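import Pool.Agent.Run7.h907.ManifoldFix

/-!
# Circle-symmetric Tonelli Lagrangians: every level has a periodic orbit or a singularity
-/

open Set Filter Topology
open scoped Manifold ContDiff

set_option linter.unusedSectionVars false

namespace Run7.h907.Mfd

variable {E : Type*} [NormedAddCommGroup E] [NormedSpace ℝ E]
variable {M : Type*} [TopologicalSpace M] [ChartedSpace E M] [IsManifold 𝓘(ℝ, E) ∞ M]
variable {L : TangentBundle 𝓘(ℝ, E) M → ℝ} {Φ : ℝ → M → M}

lemma Sym.reverse (H : Sym L Φ) : Sym L (fun s => Φ (-s)) where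
  smooth := by
    have h1 : ContMDiff (𝓘(ℝ, ℝ).prod 𝓘(ℝ, E)) (𝓘(ℝ, ℝ).prod 𝓘(ℝ, E)) ∞
        (fun p : ℝ × M => (-p.1, p.2)) := by
      refine ContMDiff.prodMk ?_ contMDiff_snd
      have h2 : ContMDiff 𝓘(ℝ, ℝ) 𝓘(ℝ, ℝ) ∞ (fun t : ℝ => -t) :=
        (by fun_prop : ContDiff ℝ ∞ (fun t : ℝ => -t)).contMDiff
      exact h2.comp contMDiff_fst
    exact H.smooth.comp h1
  zero := fun x => by rw [neg_zero, H.zero]
  add := fun s t x => by rw [neg_add, H.add]
  inv := fun s p => H.inv (-s) p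

lemma Sym.vf_reverse (H : Sym L Φ) (x : M) :
    (vf (fun s => Φ (-s)) x : E) = -vf Φ x := by
  have h := H.velocity_orbit (-1) x 0
  rw [mul_zero, H.zero, neg_one_smul] at h
  rw [← h]
  unfold vf velocity
  congr 2
  funext t
  rw [neg_one_mul]

lemma Sym.prof_reverse (H : Sym L Φ) (x : M) (s : ℝ) :
    prof L (fun s => Φ (-s)) x s = prof L Φ x (-s) := by
  unfold prof
  rw [H.vf_reverse, smul_neg, neg_smul]

/-- A point where `-L (x, 0)` is minimal is a singularity. -/
lemma sing_of_min (hT : IsTonelli L) (H : Sym L Φ) {x : M} {k : ℝ} (hx : -L (pt x 0) = k)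
    (hmin : ∀ y : M, k ≤ -L (pt y 0)) : IsSingularity L k x := by
  have hel := el_orbit hT H x 0 (by
    intro t η
    have hmax : IsLocalMax (fun q => Floc L Φ (Φ t x) (q, 0)) (chartAt E (Φ t x) (Φ t x)) := by
      filter_upwards [(chartAt E (Φ t x)).open_target.mem_nhds (target_self (Φ t x))] with q hq
      rw [Floc_eq H _ (p := (q, 0)) hq,
        Floc_eq H _ (p := (chartAt E (Φ t x) (Φ t x), 0)) (target_self _)]
      simp only [symm_self]
      rw [H.prof_flow, prof_zero, prof_zero]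
      have := hmin ((chartAt E (Φ t x)).symm q)
      linarith
    rw [hmax.fderiv_eq_zero]
    rfl)
  refine ⟨?_, ?_⟩
  · have e : (fun t => Φ (0 * t) x) = fun _ => x := by
      funext t
      rw [zero_mul, H.zero]
    rw [e] at hel
    exact hel
  · have := energy_smul (Φ := Φ) hT x 0
    rw [zero_smul, pen_zero, hx] at this
    exact this

/-- Main theorem on circle symmetries. -/
theorem circle_main [CompleteSpace E] [CompactSpace M] [T2Space M] [PreconnectedSpace M]
    (hT : IsTonelli L) (H : Sym L Φ) (hper : ∀ x, Φ 1 x = x) (hnt : ∃ s x, Φ s x ≠ x)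
    (k : ℝ) (hk : ∃ x v, energy L x v = k) :
    (∃ γ : ℝ → M, IsPeriodicOrbit L k γ) ∨ (∃ x : M, IsSingularity L k x) := by
  obtain ⟨x₀, v₀, h0⟩ := hk
  have hx₀ : -L (pt x₀ 0) ≤ k := by
    rw [← h0]; exact energy_ge hT x₀ v₀
  by_cases hlow : ∀ y : M, k ≤ -L (pt y 0)
  · right
    exact ⟨x₀, sing_of_min hT H (le_antisymm hx₀ (hlow x₀)) hlow⟩
  push Not at hlow
  have hcont0 : Continuous (fun x : M => -L (pt x 0)) := by
    have := continuous_prof hT H 0
    simp only [prof_zero] at this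
    exact this.neg
  have hO : IsOpen {x : M | -L (pt x 0) < k} := isOpen_lt hcont0 continuous_const
  obtain ⟨x₁, hx₁, hv⟩ := H.exists_vf_ne_zero hper hnt hO hlow
  have hx₁' : -L (pt x₁ 0) < k := hx₁
  have H' := H.reverse
  have hv' : (vf (fun s => Φ (-s)) x₁ : E) ≠ 0 := by
    rw [H.vf_reverse]
    exact neg_ne_zero.mpr hv
  obtain ⟨s, hs0, hs⟩ := exists_pen hT hv hx₁'.le
  obtain ⟨r, hr0, hr⟩ := exists_pen hT hv' hx₁'.le
  have hspos : 0 < s := by
    rcases hs0.eq_or_lt with h | h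
    · rw [← h, pen_zero] at hs
      linarith
    · exact h
  have hder : deriv (prof L (fun s => Φ (-s)) x₁) r = -deriv (prof L Φ x₁) (-r) := by
    have e : prof L (fun s => Φ (-s)) x₁ = fun s => prof L Φ x₁ (-s) := by
      funext s
      exact H.prof_reverse x₁ s
    rw [e, deriv_comp_neg]
  have hmono : deriv (prof L Φ x₁) (-r) < deriv (prof L Φ x₁) s :=
    od_strictMono (fun s => hasDerivAt_prof2 hT Φ x₁ s) (fun s => prof_pos hT hv s)
      (by linarith)
  rcases lt_or_ge 0 (deriv (prof L Φ x₁) s) with hc | hc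
  · exact pos_case hT H hper hc hx₁'.le (fun t ht => mom_lower hT hv hs ht)
  · have hc' : 0 < deriv (prof L (fun s => Φ (-s)) x₁) r := by
      rw [hder]
      linarith
    have hper' : ∀ x, Φ (-1) x = x := by
      intro x
      have h1 : Φ (-1) (Φ 1 x) = x := by
        rw [← H.add, neg_add_cancel, H.zero]
      rwa [hper] at h1
    exact pos_case hT H' hper' hc' hx₁'.le (fun t ht => mom_lower hT hv' hr ht)

end Run7.h907.Mfd
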