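import Mathlib

/-!
# Local analysis: critical points of the momentum and the Euler-Lagrange equation
-/

open Set Filter Topology

namespace Run7.h907.Mfd

section Lagrange

variable {B : Type*} [NormedAddCommGroup B] [NormedSpace ℝ B] [CompleteSpace B]

/-- At a local extremum of `∂_s F` on a level of the energy `s ∂_s F - F`, the derivative of `F`
in the base directions vanishes. -/
theorem lagrange_local {F : B × ℝ → ℝ} {p : B × ℝ} (hF : ContDiffAt ℝ 2 F p)
    (hpos : 0 < fderiv ℝ (fderiv ℝ F) p (0, 1) (0, 1))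
    (hext : IsLocalExtrOn (fun q => fderiv ℝ F q (0, 1))
      {q | q.2 * fderiv ℝ F q (0, 1) - F q = p.2 * fderiv ℝ F p (0, 1) - F p} p) (η : B) :
    fderiv ℝ F p (η, 0) = 0 := by
  set G := fderiv ℝ F with hG
  have hG1 : ContDiffAt ℝ 1 G p := hF.fderiv_right (by norm_num)
  have hG2 : HasStrictFDerivAt G (fderiv ℝ G p) p := hG1.hasStrictFDerivAt (by norm_num)
  set j' : B × ℝ →L[ℝ] ℝ :=
    (ContinuousLinearMap.apply ℝ ℝ ((0 : B), (1 : ℝ))).comp (fderiv ℝ G p) with hj'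
  have hj : HasStrictFDerivAt (fun q : B × ℝ => G q (0, 1)) j' p :=
    (ContinuousLinearMap.apply ℝ ℝ ((0 : B), (1 : ℝ))).hasStrictFDerivAt.comp p hG2
  have hl : HasStrictFDerivAt F (G p) p := hF.hasStrictFDerivAt (by norm_num)
  have hs : HasStrictFDerivAt (fun q : B × ℝ => q.2) (ContinuousLinearMap.snd ℝ B ℝ) p :=
    (ContinuousLinearMap.snd ℝ B ℝ).hasStrictFDerivAt
  set e' : B × ℝ →L[ℝ] ℝ := (p.2 • j' + (G p (0, 1)) • ContinuousLinearMap.snd ℝ B ℝ)
    - G p with he'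
  have he : HasStrictFDerivAt (fun q : B × ℝ => q.2 * G q (0, 1) - F q) e' p :=
    (hs.mul hj).sub hl
  obtain ⟨a, b, hab, h⟩ := hext.exists_multipliers_of_hasStrictFDerivAt_1d
    (f := fun q : B × ℝ => q.2 * G q (0, 1) - F q) he hj
  have h01 := congrArg (fun T : B × ℝ →L[ℝ] ℝ => T (0, 1)) h
  have h10 := congrArg (fun T : B × ℝ →L[ℝ] ℝ => T (η, 0)) h
  have hpos' : 0 < j' (0, 1) := hpos
  have e01 : e' (0, 1) = p.2 * j' (0, 1) := by
    simp [he']
  have e10 : e' (η, 0) = p.2 * j' (η, 0) - G p (η, 0) := by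
    simp [he']
  simp only [add_apply, smul_apply, smul_eq_mul, zero_apply] at h01 h10
  rw [e01] at h01
  rw [e10] at h10
  have hb : a * p.2 + b = 0 := by
    have : (a * p.2 + b) * j' (0, 1) = 0 := by linarith
    rcases mul_eq_zero.mp this with h | h
    · exact h
    · exact absurd h hpos'.ne'
  have ha : a ≠ 0 := by
    intro ha
    apply hab
    rw [ha, zero_mul, zero_add] at hb
    rw [ha, hb]
    rfl
  have hfin : a * G p (η, 0) = 0 := by
    have hb' : b = -(a * p.2) := by linarith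
    rw [hb'] at h10
    linarith
  exact (mul_eq_zero.mp hfin).resolve_left ha

end Lagrange

section EL

variable {E : Type*} [NormedAddCommGroup E] [NormedSpace ℝ E]

/-- The Euler-Lagrange equation along a relative equilibrium, in a chart. -/
theorem local_el {l : E × E → ℝ} {G : ℝ × E → E} {q0 : E} {s : ℝ} {U : Set E}
    (hU : U ∈ 𝓝 q0)
    (hG : ContDiffAt ℝ 2 G (0, q0)) (hG0 : ∀ᶠ q in 𝓝 q0, G (0, q) = q)
    (hflow : ∀ᶠ p : ℝ × ℝ in 𝓝 (0, 0), G (p.1, G (p.2, q0)) = G (p.1 + p.2, q0))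
    (hl : ContDiffOn ℝ 2 l (U ×ˢ univ))
    (hinv : ∀ᶠ p : ℝ × E in 𝓝 (0, q0), ∀ w, l (G p, fderiv ℝ G p (0, w)) = l (p.2, w))
    (hcrit : ∀ η, fderiv ℝ (fun q => l (q, s • fderiv ℝ G (0, q) (1, 0))) q0 η = 0) :
    HasDerivAt (fun t : ℝ => fderiv ℝ (fun v => l (G (s * t, q0), v))
        (deriv (fun t : ℝ => G (s * t, q0)) t))
      (fderiv ℝ (fun q => l (q, deriv (fun t : ℝ => G (s * t, q0)) 0)) (G (s * 0, q0))) 0 := by
  -- notation
  set x : ℝ → E := fun t => G (s * t, q0) with hx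
  set w0 : E := s • fderiv ℝ G (0, q0) (1, 0) with hw0
  set A : ℝ → E →L[ℝ] E := fun t => (fderiv ℝ G (s * t, q0)).comp
    (ContinuousLinearMap.inr ℝ ℝ E) with hA
  have hG00 : G (0, q0) = q0 := hG0.self_of_nhds
  have hx0 : x 0 = q0 := by simp [hx, hG00]
  -- tendsto of time
  have hτ : Tendsto (fun t : ℝ => (s * t, q0)) (𝓝 0) (𝓝 ((0 : ℝ), q0)) := by
    have : Continuous (fun t : ℝ => (s * t, q0)) := by fun_prop
    have h := this.tendsto 0
    rwa [mul_zero] at h
  have hGd : ∀ᶠ p in 𝓝 ((0 : ℝ), q0), DifferentiableAt ℝ G p := by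
    filter_upwards [hG.eventually (by simp)] with p hp
    exact hp.differentiableAt (by norm_num)
  have hG1 : ContDiffAt ℝ 1 (fderiv ℝ G) (0, q0) := hG.fderiv_right (by norm_num)
  -- the derivative of `x`
  have hxd : ∀ᶠ t : ℝ in 𝓝 0, HasDerivAt x (s • fderiv ℝ G (s * t, q0) (1, 0)) t := by
    filter_upwards [hτ.eventually hGd] with t ht
    have h1 : HasDerivAt (fun t : ℝ => (s * t, q0)) (s, (0 : E)) t := by
      refine HasDerivAt.prodMk ?_ (hasDerivAt_const t q0)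
      simpa using (hasDerivAt_id t).const_mul s
    have h2 := ht.hasFDerivAt.comp_hasDerivAt t h1
    have e : (s, (0 : E)) = s • ((1 : ℝ), (0 : E)) := by simp
    rw [e, map_smul] at h2
    exact h2
  have hflow' : ∀ᶠ τ : ℝ in 𝓝 0, fderiv ℝ G (τ, q0) (1, 0) =
      fderiv ℝ G (τ, q0) (0, fderiv ℝ G (0, q0) (1, 0)) := by
    have h1 : ∀ᶠ τ : ℝ in 𝓝 0, ∀ᶠ σ : ℝ in 𝓝 0, G (τ, G (σ, q0)) = G (τ + σ, q0) :=
      hflow.curry_nhds
    have h2 : ∀ᶠ τ : ℝ in 𝓝 0, DifferentiableAt ℝ G (τ, q0) := by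
      have : Tendsto (fun τ : ℝ => (τ, q0)) (𝓝 0) (𝓝 ((0 : ℝ), q0)) :=
        (by fun_prop : Continuous (fun τ : ℝ => (τ, q0))).tendsto 0
      exact this.eventually hGd
    filter_upwards [h1, h2] with τ hτ1 hτ2
    have d1 : HasDerivAt (fun σ : ℝ => G (σ, q0)) (fderiv ℝ G (0, q0) (1, 0)) 0 := by
      have h1 : HasDerivAt (fun σ : ℝ => (σ, q0)) ((1 : ℝ), (0 : E)) 0 :=
        (hasDerivAt_id 0).prodMk (hasDerivAt_const 0 q0)
      exact (hGd.self_of_nhds).hasFDerivAt.comp_hasDerivAt 0 h1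
    have d2 : HasDerivAt (fun σ : ℝ => G (τ, G (σ, q0)))
        (fderiv ℝ G (τ, q0) (0, fderiv ℝ G (0, q0) (1, 0))) 0 := by
      have h1 : HasDerivAt (fun σ : ℝ => (τ, G (σ, q0))) ((0 : ℝ), fderiv ℝ G (0, q0) (1, 0)) 0 :=
        (hasDerivAt_const 0 τ).prodMk d1
      have h2 : HasFDerivAt G (fderiv ℝ G (τ, q0)) (τ, G (0, q0)) := by
        rw [hG00]; exact hτ2.hasFDerivAt
      exact h2.comp_hasDerivAt (0 : ℝ) h1
    have d3 : HasDerivAt (fun σ : ℝ => G (τ + σ, q0)) (fderiv ℝ G (τ, q0) (1, 0)) 0 := by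
      have h1 : HasDerivAt (fun σ : ℝ => (τ + σ, q0)) ((1 : ℝ), (0 : E)) 0 :=
        ((hasDerivAt_id (0 : ℝ)).const_add τ).prodMk (hasDerivAt_const 0 q0)
      have h2 : HasFDerivAt G (fderiv ℝ G (τ, q0)) (τ + (0 : ℝ), q0) := by
        rw [add_zero]; exact hτ2.hasFDerivAt
      exact h2.comp_hasDerivAt (0 : ℝ) h1
    have d4 := d3.congr_of_eventuallyEq hτ1
    exact d4.unique d2
  have hder : ∀ᶠ t : ℝ in 𝓝 0, deriv x t = A t w0 := by
    have hs : Tendsto (fun t : ℝ => s * t) (𝓝 0) (𝓝 0) := by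
      have := (continuous_const_mul s).tendsto (0 : ℝ)
      rwa [mul_zero] at this
    filter_upwards [hxd, hs.eventually hflow'] with t ht1 ht2
    rw [ht1.deriv, ht2]
    simp only [hA, hw0, ContinuousLinearMap.comp_apply, ContinuousLinearMap.inr_apply]
    rw [← map_smul]
    simp
  have hA0 : A 0 = ContinuousLinearMap.id ℝ E := by
    ext w
    have h1 : HasFDerivAt (fun q : E => G ((0 : ℝ), q))
        ((fderiv ℝ G (0, q0)).comp (ContinuousLinearMap.inr ℝ ℝ E)) q0 := by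
      have h2 : HasFDerivAt (fun q : E => ((0 : ℝ), q)) (ContinuousLinearMap.inr ℝ ℝ E) q0 :=
        (ContinuousLinearMap.inr ℝ ℝ E).hasFDerivAt
      exact (hGd.self_of_nhds).hasFDerivAt.comp q0 h2
    have h3 : HasFDerivAt (fun q : E => G ((0 : ℝ), q)) (ContinuousLinearMap.id ℝ E) q0 :=
      (hasFDerivAt_id q0).congr_of_eventuallyEq hG0
    have h4 := h1.unique h3
    simp only [hA, mul_zero]
    rw [h4]
  have hd0 : deriv x 0 = w0 := by
    rw [hder.self_of_nhds, hA0]; rfl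
  -- derivative of `A`
  set A' : E →L[ℝ] E := s • ((fderiv ℝ (fderiv ℝ G) (0, q0) (1, 0)).comp
    (ContinuousLinearMap.inr ℝ ℝ E)) with hA'
  have hAd : HasDerivAt A A' 0 := by
    have h1 : HasDerivAt (fun t : ℝ => (s * t, q0)) (s, (0 : E)) 0 := by
      refine HasDerivAt.prodMk ?_ (hasDerivAt_const 0 q0)
      simpa using (hasDerivAt_id (0 : ℝ)).const_mul s
    have h2 : HasFDerivAt (fderiv ℝ G) (fderiv ℝ (fderiv ℝ G) (0, q0)) (s * 0, q0) := by
      rw [mul_zero]
      exact (hG1.differentiableAt (by norm_num)).hasFDerivAt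
    have h3 := h2.comp_hasDerivAt (0 : ℝ) h1
    have e : (s, (0 : E)) = s • ((1 : ℝ), (0 : E)) := by simp
    rw [e, map_smul] at h3
    have h4 := h3.clm_comp (hasDerivAt_const (0 : ℝ) (ContinuousLinearMap.inr ℝ ℝ E))
    refine h4.congr_deriv ?_
    ext w
    simp [hA']
  -- the momentum
  set P : ℝ → E →L[ℝ] ℝ := fun t => fderiv ℝ (fun v => l (x t, v)) (deriv x t) with hP
  have hxc : Tendsto x (𝓝 0) (𝓝 q0) := by
    have := (hxd.self_of_nhds).continuousAt.tendsto
    rwa [hx0] at this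
  have hldiff : ∀ q ∈ interior U, ∀ w, ContDiffAt ℝ 2 l (q, w) := by
    intro q hq w
    apply (hl (q, w) ⟨interior_subset hq, mem_univ _⟩).contDiffAt
    exact prod_mem_nhds (mem_interior_iff_mem_nhds.mp hq) univ_mem
  have hUint : ∀ᶠ t : ℝ in 𝓝 0, x t ∈ interior U :=
    hxc.eventually (isOpen_interior.mem_nhds (mem_interior_iff_mem_nhds.mpr hU))
  have hq0U : q0 ∈ interior U := mem_interior_iff_mem_nhds.mpr hU
  have hfib : ∀ q ∈ interior U, ∀ w, HasFDerivAt (fun v => l (q, v))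
      ((fderiv ℝ l (q, w)).comp (ContinuousLinearMap.inr ℝ E E)) w := by
    intro q hq w
    have h1 : HasFDerivAt (fun v : E => (q, v)) (ContinuousLinearMap.inr ℝ E E) w := by
      exact (hasFDerivAt_const (𝕜 := ℝ) q w).prodMk (hasFDerivAt_id w)
    exact ((hldiff q hq w).differentiableAt (by norm_num)).hasFDerivAt.comp w h1
  have hPeq : ∀ᶠ t : ℝ in 𝓝 0, P t = (fderiv ℝ l (x t, A t w0)).comp
      (ContinuousLinearMap.inr ℝ E E) := by
    filter_upwards [hUint, hder] with t h1 h2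
    simp only [hP]
    rw [h2, (hfib (x t) h1 _).fderiv]
  have hAc : Tendsto (fun t => A t w0) (𝓝 0) (𝓝 w0) := by
    have h1 : ContinuousAt (fun t => A t w0) 0 :=
      (hAd.continuousAt).clm_apply continuousAt_const
    have h2 : A 0 w0 = w0 := by rw [hA0]; rfl
    have := h1.tendsto
    rwa [h2] at this
  have hP0 : P 0 = (fderiv ℝ l (q0, w0)).comp (ContinuousLinearMap.inr ℝ E E) := by
    rw [hPeq.self_of_nhds, hx0, hA0]; rfl
  have hPc : Tendsto P (𝓝 0) (𝓝 (P 0)) := by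
    rw [hP0]
    refine Tendsto.congr' (EventuallyEq.symm hPeq) ?_
    have h1 : ContinuousAt (fderiv ℝ l) (q0, w0) := by
      have : ContDiffAt ℝ 1 (fderiv ℝ l) (q0, w0) :=
        (hldiff q0 hq0U w0).fderiv_right (by norm_num)
      exact this.continuousAt
    have h2 : Tendsto (fun t => (x t, A t w0)) (𝓝 0) (𝓝 (q0, w0)) := hxc.prodMk_nhds hAc
    have h3 := h1.tendsto.comp h2
    exact ((ContinuousLinearMap.compL ℝ E (E × E) ℝ).flip
      (ContinuousLinearMap.inr ℝ E E)).continuous.continuousAt.tendsto.comp h3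
  have hPA : ∀ᶠ t : ℝ in 𝓝 0, (P t).comp (A t) = P 0 := by
    filter_upwards [hτ.eventually hinv, hUint, hPeq] with t h1 h2 h3
    have d1 : HasFDerivAt (fun w => l (x t, A t w)) ((P t).comp (A t)) w0 := by
      have h4 : HasFDerivAt (fun w => A t w) (A t) w0 := (A t).hasFDerivAt
      rw [h3]
      exact (hfib (x t) h2 (A t w0)).comp w0 h4
    have e : (fun w => l (x t, A t w)) = fun w => l (q0, w) := by
      funext w
      exact h1 w
    rw [e] at d1
    rw [hP0]
    exact d1.unique (hfib q0 hq0U w0)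
  -- derivative of the momentum
  have hPd : HasDerivAt P (-((P 0).comp A')) 0 := by
    rw [hasDerivAt_iff_tendsto_slope] at hAd ⊢
    have h1 : Tendsto (fun t => (P t).comp (-(slope A 0 t))) (𝓝[≠] 0)
        (𝓝 ((P 0).comp (-A'))) := by
      have hc : Continuous (fun r : (E →L[ℝ] ℝ) × (E →L[ℝ] E) => r.1.comp r.2) :=
        isBoundedBilinearMap_comp.continuous
      exact hc.continuousAt.tendsto.comp ((hPc.mono_left nhdsWithin_le_nhds).prodMk_nhds hAd.neg)
    have e : (P 0).comp (-A') = -((P 0).comp A') := by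
      ext w; simp
    rw [e] at h1
    refine h1.congr' ?_
    filter_upwards [hPA.filter_mono nhdsWithin_le_nhds] with t ht
    rw [slope_def_module, slope_def_module, hA0]
    have h5 : P t - P 0 = (P t).comp (ContinuousLinearMap.id ℝ E - A t) := by
      rw [ContinuousLinearMap.comp_sub, ht, ContinuousLinearMap.comp_id]
    rw [h5]
    ext w
    simp only [ContinuousLinearMap.comp_apply, neg_apply, smul_apply, sub_apply, map_neg, map_smul,
      ContinuousLinearMap.id_apply, map_sub, smul_eq_mul]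
    ring
  -- the critical point equation
  have hcr : -((P 0).comp A') = fderiv ℝ (fun q => l (q, deriv x 0)) (x 0) := by
    rw [hd0, hx0]
    have hl0 : HasFDerivAt l (fderiv ℝ l (q0, w0)) (q0, w0) :=
      ((hldiff q0 hq0U w0).differentiableAt (by norm_num)).hasFDerivAt
    have h1 : HasFDerivAt (fun q : E => l (q, w0))
        ((fderiv ℝ l (q0, w0)).comp (ContinuousLinearMap.inl ℝ E E)) q0 := by
      have h2 : HasFDerivAt (fun q : E => (q, w0)) (ContinuousLinearMap.inl ℝ E E) q0 :=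
        (hasFDerivAt_id q0).prodMk (hasFDerivAt_const w0 q0)
      exact hl0.comp q0 h2
    rw [h1.fderiv]
    ext η
    have hGG : HasFDerivAt (fderiv ℝ G) (fderiv ℝ (fderiv ℝ G) (0, q0)) (0, q0) :=
      (hG1.differentiableAt (by norm_num)).hasFDerivAt
    have h3 : HasFDerivAt (fun q : E => fderiv ℝ G ((0 : ℝ), q))
        ((fderiv ℝ (fderiv ℝ G) (0, q0)).comp (ContinuousLinearMap.inr ℝ ℝ E)) q0 :=
      hGG.comp q0 (ContinuousLinearMap.inr ℝ ℝ E).hasFDerivAt
    have h4 : HasFDerivAt (fun q : E => s • fderiv ℝ G ((0 : ℝ), q) (1, 0))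
        (s • ((ContinuousLinearMap.apply ℝ E ((1 : ℝ), (0 : E))).comp
          ((fderiv ℝ (fderiv ℝ G) (0, q0)).comp (ContinuousLinearMap.inr ℝ ℝ E)))) q0 :=
      ((ContinuousLinearMap.apply ℝ E ((1 : ℝ), (0 : E))).hasFDerivAt.comp q0 h3).const_smul s
    have h5 := hl0.comp q0 ((hasFDerivAt_id q0).prodMk h4)
    have h6 := hcrit η
    have e6 : (fun q => l (q, s • fderiv ℝ G (0, q) (1, 0))) =
        l ∘ (fun q : E => (id q, s • fderiv ℝ G ((0 : ℝ), q) (1, 0))) := rfl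
    rw [e6, h5.fderiv] at h6
    have hsymm : fderiv ℝ (fderiv ℝ G) (0, q0) (1, 0) (0, η) =
        fderiv ℝ (fderiv ℝ G) (0, q0) (0, η) (1, 0) := by
      have := hG.isSymmSndFDerivAt (by simp)
      exact this (1, 0) (0, η)
    rw [hP0]
    simp only [ContinuousLinearMap.comp_apply, neg_apply, ContinuousLinearMap.inr_apply,
      ContinuousLinearMap.inl_apply, hA', smul_apply] at h6 ⊢
    rw [hsymm]
    have e7 : (η, s • (fderiv ℝ (fderiv ℝ G) (0, q0) (0, η)) (1, 0)) =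
        (η, (0 : E)) + ((0 : E), s • (fderiv ℝ (fderiv ℝ G) (0, q0) (0, η)) (1, 0)) := by
      simp
    have h7 : fderiv ℝ l (q0, w0) (η, s • (fderiv ℝ (fderiv ℝ G) (0, q0) (0, η)) (1, 0)) = 0 := h6
    rw [e7, map_add] at h7
    linarith
  rw [hcr] at hPd
  have hx0' : x 0 = G (s * 0, q0) := rfl
  rw [hx0'] at hPd
  exact hPd

end EL

end Run7.h907.Mfd
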