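import Mathlib

/-!
# Tonelli Lagrangians on manifolds: definitions

`M` is a manifold without boundary modelled on a finite-dimensional normed space `E`.
-/

open Set Filter Topology
open scoped Manifold ContDiff

namespace Run7.h907.Mfd

variable {E : Type*} [NormedAddCommGroup E] [NormedSpace ℝ E]
variable {M : Type*} [TopologicalSpace M] [ChartedSpace E M] [IsManifold 𝓘(ℝ, E) ∞ M]

/-- The point `(x, v)` of the tangent bundle. -/
def pt (x : M) (v : E) : TangentBundle 𝓘(ℝ, E) M := ⟨x, v⟩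

/-- `L` is a Tonelli Lagrangian on `M`: of class `C²` on the tangent bundle, with positive
definite second derivative and superlinear growth on each tangent space. -/
structure IsTonelli (L : TangentBundle 𝓘(ℝ, E) M → ℝ) : Prop where
  smooth : ContMDiff 𝓘(ℝ, E).tangent 𝓘(ℝ, ℝ) 2 L
  convex : ∀ (x : M) (v u : E), u ≠ 0 → 0 < iteratedDeriv 2 (fun s : ℝ => L (pt x (v + s • u))) 0
  superlinear : ∀ (x : M) (C : ℝ), ∃ R : ℝ, ∀ v : E, R ≤ ‖v‖ → C * ‖v‖ ≤ L (pt x v)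

/-- The energy `E (x, v) = ∂_v L (x, v) v - L (x, v)`. -/
noncomputable def energy (L : TangentBundle 𝓘(ℝ, E) M → ℝ) (x : M) (v : E) : ℝ :=
  deriv (fun s : ℝ => L (pt x (s • v))) 1 - L (pt x v)

/-- The expression of `L` in the chart of `M` at `x₀`: `(q, v) ↦ L (φ⁻¹ q, Dφ⁻¹ (q) v)`. -/
noncomputable def loc (L : TangentBundle 𝓘(ℝ, E) M → ℝ) (x₀ : M) (q v : E) : ℝ :=
  L (pt ((chartAt E x₀).symm q) (mfderiv 𝓘(ℝ, E) 𝓘(ℝ, E) (chartAt E x₀).symm q v))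

/-- The curve `γ` in the chart at `x₀`. -/
noncomputable def coord (x₀ : M) (γ : ℝ → M) (t : ℝ) : E := chartAt E x₀ (γ t)

/-- `γ` is a `C¹` solution of the Euler-Lagrange equation of `L`: at each time `t₀`, in the chart
at `γ t₀`, `d/dt ∂_v L (γ, γ') = ∂_q L (γ, γ')`. -/
structure IsEulerLagrange (L : TangentBundle 𝓘(ℝ, E) M → ℝ) (γ : ℝ → M) : Prop where
  smooth : ContMDiff 𝓘(ℝ, ℝ) 𝓘(ℝ, E) 1 γ
  eq : ∀ t₀ : ℝ, HasDerivAt
    (fun t => fderiv ℝ (fun v : E => loc L (γ t₀) (coord (γ t₀) γ t) v)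
      (deriv (coord (γ t₀) γ) t))
    (fderiv ℝ (fun q : E => loc L (γ t₀) q (deriv (coord (γ t₀) γ) t₀)) (coord (γ t₀) γ t₀)) t₀

/-- The velocity of a curve. -/
noncomputable def velocity (γ : ℝ → M) (t : ℝ) : E := mfderiv 𝓘(ℝ, ℝ) 𝓘(ℝ, E) γ t (1 : ℝ)

/-- `γ` is a periodic orbit of energy `k`. -/
structure IsPeriodicOrbit (L : TangentBundle 𝓘(ℝ, E) M → ℝ) (k : ℝ) (γ : ℝ → M) : Prop where
  el : IsEulerLagrange L γ
  level : ∀ t, energy L (γ t) (velocity γ t) = k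
  nonconst : ∃ s t, γ s ≠ γ t
  periodic : ∃ T : ℝ, 0 < T ∧ ∀ t, γ (t + T) = γ t

/-- `(x, 0)` is a singularity of energy `k`. -/
structure IsSingularity (L : TangentBundle 𝓘(ℝ, E) M → ℝ) (k : ℝ) (x : M) : Prop where
  el : IsEulerLagrange L (fun _ => x)
  level : energy L x 0 = k

/-- `Φ` is a smooth action of the circle `ℝ / ℤ` on `M`. -/
structure IsCircleAction (Φ : ℝ → M → M) : Prop where
  smooth : ContMDiff (𝓘(ℝ, ℝ).prod 𝓘(ℝ, E)) 𝓘(ℝ, E) ∞ (fun p : ℝ × M => Φ p.1 p.2)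
  zero : ∀ x, Φ 0 x = x
  add : ∀ s t x, Φ (s + t) x = Φ s (Φ t x)
  one : ∀ x, Φ 1 x = x

end Run7.h907.Mfd
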