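import Pool.Agent.Run7.h907.ManifoldSym

/-!
# The Euler-Lagrange equation along orbits of a symmetry
-/

open Set Filter Topology
open scoped Manifold ContDiff

set_option linter.unusedSectionVars false

namespace Run7.h907.Mfd

variable {E : Type*} [NormedAddCommGroup E] [NormedSpace ℝ E]
variable {M : Type*} [TopologicalSpace M] [ChartedSpace E M] [IsManifold 𝓘(ℝ, E) ∞ M]
variable {L : TangentBundle 𝓘(ℝ, E) M → ℝ} {Φ : ℝ → M → M}

/-- The profile in a chart. -/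
noncomputable def Floc (L : TangentBundle 𝓘(ℝ, E) M → ℝ) (Φ : ℝ → M → M) (x₀ : M)
    (p : E × ℝ) : ℝ :=
  loc L x₀ p.1 (p.2 • fderiv ℝ (flowLoc Φ x₀) (0, p.1) (1, 0))

lemma Floc_eq (H : Sym L Φ) (x₀ : M) {p : E × ℝ} (hp : p.1 ∈ (chartAt E x₀).target) :
    Floc L Φ x₀ p = prof L Φ ((chartAt E x₀).symm p.1) p.2 := by
  unfold Floc prof
  rw [loc_eq, map_smul, vf_eq H.smooth H.zero x₀ hp]

lemma contDiffAt_xi (H : Sym L Φ) (x₀ : M) {q : E} (hq : q ∈ (chartAt E x₀).target) :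
    ContDiffAt ℝ 2 (fun q : E => fderiv ℝ (flowLoc Φ x₀) (0, q) (1, 0)) q := by
  have hsrc : Φ 0 ((chartAt E x₀).symm q) ∈ (chartAt E x₀).source := by
    rw [H.zero]; exact (chartAt E x₀).map_target hq
  have h1 : ContDiffAt ℝ 2 (fderiv ℝ (flowLoc Φ x₀)) (0, q) :=
    (contDiffAt_flowLoc H.smooth x₀ hq hsrc).fderiv_right (by norm_cast)
  have h2 : ContDiffAt ℝ 2 (fun q : E => fderiv ℝ (flowLoc Φ x₀) ((0 : ℝ), q)) q :=
    h1.comp q (contDiffAt_const.prodMk contDiffAt_id)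
  exact h2.clm_apply contDiffAt_const

lemma contDiffAt_loc (hT : IsTonelli L) (x₀ : M) {q : E} (hq : q ∈ (chartAt E x₀).target)
    (v : E) : ContDiffAt ℝ 2 (fun p : E × E => loc L x₀ p.1 p.2) (q, v) :=
  (contDiffOn_loc hT.smooth x₀ (q, v) ⟨hq, mem_univ _⟩).contDiffAt
    (prod_mem_nhds ((chartAt E x₀).open_target.mem_nhds hq) univ_mem)

lemma contDiffAt_Floc (hT : IsTonelli L) (H : Sym L Φ) (x₀ : M) {q : E}
    (hq : q ∈ (chartAt E x₀).target) (s : ℝ) : ContDiffAt ℝ 2 (Floc L Φ x₀) (q, s) := by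
  have h1 : ContDiffAt ℝ 2 (fun p : E × ℝ =>
      (p.1, p.2 • fderiv ℝ (flowLoc Φ x₀) (0, p.1) (1, 0))) (q, s) := by
    refine contDiffAt_fst.prodMk (contDiffAt_snd.smul ?_)
    exact (contDiffAt_xi H x₀ hq).comp (q, s) contDiffAt_fst
  exact ContDiffAt.comp (g := fun p : E × E => loc L x₀ p.1 p.2) (q, s)
    (contDiffAt_loc hT x₀ hq _) h1

lemma fderiv_Floc (hT : IsTonelli L) (H : Sym L Φ) (x₀ : M) {q : E}
    (hq : q ∈ (chartAt E x₀).target) (s : ℝ) :
    fderiv ℝ (Floc L Φ x₀) (q, s) (0, 1) = deriv (prof L Φ ((chartAt E x₀).symm q)) s := by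
  have h1 : HasDerivAt (fun s : ℝ => (q, s)) ((0 : E), (1 : ℝ)) s :=
    (hasDerivAt_const s q).prodMk (hasDerivAt_id s)
  have h2 := ((contDiffAt_Floc hT H x₀ hq s).differentiableAt
    (by norm_num)).hasFDerivAt.comp_hasDerivAt s h1
  have e : (Floc L Φ x₀ ∘ fun s : ℝ => (q, s)) = prof L Φ ((chartAt E x₀).symm q) := by
    funext r
    exact Floc_eq H x₀ (p := (q, r)) hq
  rw [e] at h2
  exact h2.deriv.symm

lemma fderiv2_Floc (hT : IsTonelli L) (H : Sym L Φ) (x₀ : M) {q : E}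
    (hq : q ∈ (chartAt E x₀).target) (s : ℝ) :
    fderiv ℝ (fderiv ℝ (Floc L Φ x₀)) (q, s) (0, 1) (0, 1) =
      deriv (deriv (prof L Φ ((chartAt E x₀).symm q))) s := by
  have h1 : HasDerivAt (fun s : ℝ => (q, s)) ((0 : E), (1 : ℝ)) s :=
    (hasDerivAt_const s q).prodMk (hasDerivAt_id s)
  have h0 : ContDiffAt ℝ 1 (fderiv ℝ (Floc L Φ x₀)) (q, s) :=
    (contDiffAt_Floc hT H x₀ hq s).fderiv_right (by norm_num)
  have h2 := (h0.differentiableAt (by norm_num)).hasFDerivAt.comp_hasDerivAt s h1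
  have h3 := h2.clm_apply (hasDerivAt_const s ((0 : E), (1 : ℝ)))
  have e : (fun r => (fderiv ℝ (Floc L Φ x₀) ∘ fun s : ℝ => (q, s)) r ((0 : E), (1 : ℝ))) =
      deriv (prof L Φ ((chartAt E x₀).symm q)) := by
    funext r
    exact fderiv_Floc hT H x₀ hq r
  rw [e] at h3
  rw [h3.deriv]
  simp

lemma target_self (x : M) : chartAt E x x ∈ (chartAt E x).target := mem_chart_target E x

lemma symm_self (x : M) : (chartAt E x).symm (chartAt E x x) = x :=
  (chartAt E x).left_inv (mem_chart_source E x)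

/-- Local flow identities. -/
lemma flowLoc_facts (H : Sym L Φ) (x₀ : M) :
    (∀ᶠ q in 𝓝 (chartAt E x₀ x₀), flowLoc Φ x₀ (0, q) = q) ∧
    (∀ᶠ p : ℝ × ℝ in 𝓝 (0, 0), flowLoc Φ x₀ (p.1, flowLoc Φ x₀ (p.2, chartAt E x₀ x₀)) =
      flowLoc Φ x₀ (p.1 + p.2, chartAt E x₀ x₀)) := by
  constructor
  · filter_upwards [(chartAt E x₀).open_target.mem_nhds (target_self x₀)] with q hq
    unfold flowLoc
    rw [H.zero]
    exact (chartAt E x₀).right_inv hq
  · have h1 : ∀ᶠ σ : ℝ in 𝓝 0, Φ σ x₀ ∈ (chartAt E x₀).source := by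
      have hc : ContinuousAt (fun σ : ℝ => Φ σ x₀) 0 :=
        (H.contMDiff_time x₀).continuous.continuousAt
      apply hc.eventually
      apply (chartAt E x₀).open_source.mem_nhds
      show Φ 0 x₀ ∈ (chartAt E x₀).source
      rw [H.zero]
      exact mem_chart_source E x₀
    have hsnd : Tendsto (Prod.snd : ℝ × ℝ → ℝ) (𝓝 ((0 : ℝ), (0 : ℝ))) (𝓝 0) :=
      continuous_snd.tendsto _
    have h2 : ∀ᶠ p : ℝ × ℝ in 𝓝 (0, 0), Φ p.2 x₀ ∈ (chartAt E x₀).source :=
      hsnd.eventually h1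
    filter_upwards [h2] with p hp
    unfold flowLoc
    simp only [symm_self]
    rw [(chartAt E x₀).left_inv hp, H.add]

/-- Invariance of the local Lagrangian. -/
lemma loc_inv (H : Sym L Φ) (x₀ : M) :
    ∀ᶠ p : ℝ × E in 𝓝 (0, chartAt E x₀ x₀), ∀ w,
      loc L x₀ (flowLoc Φ x₀ p) (fderiv ℝ (flowLoc Φ x₀) p (0, w)) = loc L x₀ p.2 w := by
  have hsrc : Φ 0 ((chartAt E x₀).symm (chartAt E x₀ x₀)) ∈ (chartAt E x₀).source := by
    rw [symm_self, H.zero]
    exact mem_chart_source E x₀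
  filter_upwards [eventually_source H.smooth x₀ (target_self x₀) hsrc] with p hp w
  obtain ⟨τ, q⟩ := p
  have h1 := dflow_eq H.smooth x₀ hp.1 hp.2 w
  rw [loc_eq, loc_eq]
  have h2 := H.inv' τ ((chartAt E x₀).symm q) (dsymm x₀ q w)
  rw [← h2]
  have h3 : (chartAt E x₀).symm (flowLoc Φ x₀ (τ, q)) = Φ τ ((chartAt E x₀).symm q) :=
    (chartAt E x₀).left_inv hp.2
  rw [h3]
  exact congrArg (fun v : E => L (pt (Φ τ ((chartAt E x₀).symm q)) v)) h1.symm

/-- If the profile at time `s` is critical along the orbit of `x`, then `t ↦ Φ (s t) x` solves the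
Euler-Lagrange equation. -/
theorem el_orbit (hT : IsTonelli L) (H : Sym L Φ) (x : M) (s : ℝ)
    (hcrit : ∀ t η, fderiv ℝ (fun q => Floc L Φ (Φ t x) (q, s)) (chartAt E (Φ t x) (Φ t x)) η = 0) :
    IsEulerLagrange L (fun t => Φ (s * t) x) where
  smooth := by
    have h1 : ContMDiff 𝓘(ℝ, ℝ) 𝓘(ℝ, E) ∞ (fun t : ℝ => Φ (s * t) x) := by
      have h2 : ContMDiff 𝓘(ℝ, ℝ) 𝓘(ℝ, ℝ) ∞ (fun t : ℝ => s * t) :=
        (by fun_prop : ContDiff ℝ ∞ (fun t : ℝ => s * t)).contMDiff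
      exact (H.contMDiff_time x).comp h2
    exact h1.of_le (by norm_cast)
  eq := by
    intro t₀
    set x₀ : M := Φ (s * t₀) x with hx₀
    set q0 : E := chartAt E x₀ x₀ with hq0
    have hsrc : Φ 0 ((chartAt E x₀).symm q0) ∈ (chartAt E x₀).source := by
      rw [hq0, symm_self, H.zero]
      exact mem_chart_source E x₀
    have hfacts := flowLoc_facts H x₀
    have hG : ContDiffAt ℝ 2 (flowLoc Φ x₀) (0, q0) :=
      (contDiffAt_flowLoc H.smooth x₀ (target_self x₀) hsrc).of_le (by norm_cast)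
    have hmain := local_el (l := fun p : E × E => loc L x₀ p.1 p.2) (G := flowLoc Φ x₀)
      (q0 := q0) (s := s) (U := (chartAt E x₀).target)
      ((chartAt E x₀).open_target.mem_nhds (target_self x₀)) hG hfacts.1 hfacts.2
      (contDiffOn_loc hT.smooth x₀) (loc_inv H x₀) (hcrit (s * t₀))
    have hcoord : coord x₀ (fun t => Φ (s * t) x) =
        fun t => (fun t : ℝ => flowLoc Φ x₀ (s * t, q0)) (t - t₀) := by
      funext t
      simp only [coord, flowLoc, hq0, symm_self]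
      rw [hx₀, ← H.add]
      congr 2
      ring
    have hderiv : deriv (coord x₀ (fun t => Φ (s * t) x)) =
        fun t => deriv (fun t : ℝ => flowLoc Φ x₀ (s * t, q0)) (t - t₀) := by
      rw [hcoord]
      funext t
      exact deriv_comp_sub_const (f := fun t : ℝ => flowLoc Φ x₀ (s * t, q0)) t₀ t
    have hmain' : HasDerivAt (fun t : ℝ => fderiv ℝ (fun v => loc L x₀ (flowLoc Φ x₀ (s * t, q0)) v)
        (deriv (fun t : ℝ => flowLoc Φ x₀ (s * t, q0)) t))
        (fderiv ℝ (fun q => loc L x₀ q (deriv (fun t : ℝ => flowLoc Φ x₀ (s * t, q0)) 0))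
          (flowLoc Φ x₀ (s * 0, q0))) (t₀ - t₀) := by
      rw [sub_self]
      exact hmain
    have hfin := hmain'.comp_sub_const t₀ t₀
    have e1 : coord x₀ (fun t => Φ (s * t) x) t₀ = flowLoc Φ x₀ (s * 0, q0) := by
      rw [hcoord]
      simp
    have e2 : deriv (coord x₀ (fun t => Φ (s * t) x)) t₀ =
        deriv (fun t : ℝ => flowLoc Φ x₀ (s * t, q0)) 0 := by
      rw [hderiv]
      simp
    show HasDerivAt (fun t => fderiv ℝ (fun v : E => loc L x₀ (coord x₀ (fun t => Φ (s * t) x) t) v)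
      (deriv (coord x₀ (fun t => Φ (s * t) x)) t))
      (fderiv ℝ (fun q : E => loc L x₀ q (deriv (coord x₀ (fun t => Φ (s * t) x)) t₀))
        (coord x₀ (fun t => Φ (s * t) x) t₀)) t₀
    rw [e1, e2, hderiv]
    have e3 : (fun t => fderiv ℝ (fun v : E => loc L x₀ (coord x₀ (fun t => Φ (s * t) x) t) v)
        ((fun t => deriv (fun t : ℝ => flowLoc Φ x₀ (s * t, q0)) (t - t₀)) t)) =
        fun t => fderiv ℝ (fun v => loc L x₀ (flowLoc Φ x₀ (s * (t - t₀), q0)) v)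
          (deriv (fun t : ℝ => flowLoc Φ x₀ (s * t, q0)) (t - t₀)) := by
      funext t
      rw [hcoord]
    rw [e3]
    exact hfin

end Run7.h907.Mfd
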