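import Pool.Agent.Run7.h907.ManifoldMax

/-!
# Fixed points of circle actions

On a connected manifold a smooth circle action that is trivial on a nonempty open set is trivial.
-/

open Set Filter Topology
open scoped Manifold ContDiff

set_option linter.unusedSectionVars false

namespace Run7.h907.Mfd

variable {E : Type*} [NormedAddCommGroup E] [NormedSpace ℝ E]
variable {M : Type*} [TopologicalSpace M] [ChartedSpace E M] [IsManifold 𝓘(ℝ, E) ∞ M]
variable {L : TangentBundle 𝓘(ℝ, E) M → ℝ} {Φ : ℝ → M → M}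

/-- A zero of the vector field is a fixed point. -/
lemma Sym.fixed_of_vf_zero (H : Sym L Φ) {x : M} (hx : (vf Φ x : E) = 0) :
    ∀ t, Φ t x = x := by
  have hloc : IsLocallyConstant (fun t => Φ t x) := by
    rw [IsLocallyConstant.iff_eventually_eq]
    intro t₀
    set y := Φ t₀ x with hy
    have hc : Continuous (fun t => Φ t x) := (H.contMDiff_time x).continuous
    have h1 : ∀ᶠ t in 𝓝 t₀, Φ t x ∈ (chartAt E y).source :=
      hc.continuousAt.eventually ((chartAt E y).open_source.mem_nhds (mem_chart_source E y))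
    obtain ⟨ε, hε, hball⟩ := Metric.eventually_nhds_iff_ball.mp h1
    have hder : ∀ t ∈ Metric.ball t₀ ε,
        HasFDerivAt (fun t => chartAt E y (Φ t x)) (0 : ℝ →L[ℝ] E) t := by
      intro t ht
      have h2 : MDifferentiableAt 𝓘(ℝ, E) 𝓘(ℝ, E) (chartAt E y) (Φ t x) :=
        mdifferentiableAt_atlas (chart_mem_atlas E y) (hball t ht)
      have h3 : MDifferentiableAt 𝓘(ℝ, ℝ) 𝓘(ℝ, E) (fun t => Φ t x) t :=
        (H.contMDiff_time x).mdifferentiableAt (by simp)
      have h4 := h2.hasMFDerivAt.comp t h3.hasMFDerivAt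
      have h5 : (mfderiv 𝓘(ℝ, ℝ) 𝓘(ℝ, E) (fun t => Φ t x) t : ℝ →L[ℝ] E) = 0 := by
        have h6 := H.velocity_orbit 1 x t
        simp only [one_mul, one_smul] at h6
        have h7 : (vf Φ (Φ t x) : E) = 0 := by
          rw [← H.vf_flow, hx, map_zero]
        rw [h7] at h6
        ext
        exact h6
      obtain ⟨A, hA⟩ : ∃ A : E →L[ℝ] E,
        A = mfderiv 𝓘(ℝ, E) 𝓘(ℝ, E) (chartAt E y) (Φ t x) := ⟨_, rfl⟩
      obtain ⟨B, hB⟩ : ∃ B : ℝ →L[ℝ] E,
        B = mfderiv 𝓘(ℝ, ℝ) 𝓘(ℝ, E) (fun t => Φ t x) t := ⟨_, rfl⟩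
      have h8 : HasFDerivAt ((chartAt E y) ∘ fun t => Φ t x) (A.comp B) t := by
        rw [hA, hB]
        exact h4.hasFDerivAt
      have hB0 : B = 0 := by rw [hB]; exact h5
      rw [hB0, ContinuousLinearMap.comp_zero] at h8
      exact h8
    filter_upwards [Metric.ball_mem_nhds t₀ hε] with t ht
    have hpre : IsPreconnected (Metric.ball t₀ ε) := (convex_ball t₀ ε).isPreconnected
    have h9 := Metric.isOpen_ball.is_const_of_fderiv_eq_zero (𝕜 := ℝ) hpre
      (f := fun t => chartAt E y (Φ t x))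
      (fun t ht => (hder t ht).differentiableAt.differentiableWithinAt)
      (fun t ht => (hder t ht).fderiv) ht (Metric.mem_ball_self hε)
    exact (chartAt E y).injOn (hball t ht) (hball t₀ (Metric.mem_ball_self hε)) h9
  intro t
  have h := hloc.apply_eq_of_isPreconnected isPreconnected_univ (mem_univ t) (mem_univ 0)
  simp only [H.zero] at h
  exact h

/-- The set of fixed points. -/
def Fix (Φ : ℝ → M → M) : Set M := {x | ∀ s, Φ s x = x}

lemma Sym.isClosed_fix [T2Space M] (H : Sym L Φ) : IsClosed (Fix Φ) := by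
  have : Fix Φ = ⋂ s, {x | Φ s x = x} := by
    ext x
    simp [Fix]
  rw [this]
  exact isClosed_iInter fun s => isClosed_eq (H.contMDiff_space s).continuous continuous_id

/-- The space derivative of the local flow. -/
noncomputable def dloc (Φ : ℝ → M → M) (x : M) (p : ℝ × E) : E →L[ℝ] E :=
  (fderiv ℝ (flowLoc Φ x) p).comp (ContinuousLinearMap.inr ℝ ℝ E)

lemma hasFDerivAt_flowLoc_space (H : Sym L Φ) (x : M) {τ : ℝ} {q : E}
    (hq : q ∈ (chartAt E x).target) (hsrc : Φ τ ((chartAt E x).symm q) ∈ (chartAt E x).source) :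
    HasFDerivAt (fun q : E => flowLoc Φ x (τ, q)) (dloc Φ x (τ, q)) q := by
  have hG : DifferentiableAt ℝ (flowLoc Φ x) (τ, q) :=
    (contDiffAt_flowLoc H.smooth x hq hsrc).differentiableAt (by simp)
  have h2 : HasFDerivAt (fun q : E => (τ, q)) (ContinuousLinearMap.inr ℝ ℝ E) q :=
    (hasFDerivAt_const τ q).prodMk (hasFDerivAt_id q)
  exact hG.hasFDerivAt.comp q h2

lemma continuousAt_dloc (H : Sym L Φ) (x : M) {τ : ℝ} {q : E}
    (hq : q ∈ (chartAt E x).target) (hsrc : Φ τ ((chartAt E x).symm q) ∈ (chartAt E x).source) :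
    ContinuousAt (dloc Φ x) (τ, q) := by
  have h1 : ContDiffAt ℝ 1 (fderiv ℝ (flowLoc Φ x)) (τ, q) :=
    (contDiffAt_flowLoc H.smooth x hq hsrc).fderiv_right (by norm_cast)
  have h2 := h1.continuousAt
  exact ((ContinuousLinearMap.compL ℝ E (ℝ × E) E).flip
      (ContinuousLinearMap.inr ℝ ℝ E)).continuous.continuousAt.comp h2

theorem Sym.interior_fix_closed [T2Space M] (H : Sym L Φ) (hper : ∀ x, Φ 1 x = x) :
    IsClosed (interior (Fix Φ)) := by
  rw [← closure_subset_iff_isClosed]
  intro x hx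
  have hxF : ∀ s, Φ s x = x := by
    have h1 : closure (interior (Fix Φ)) ⊆ Fix Φ :=
      closure_minimal interior_subset H.isClosed_fix
    exact h1 hx
  set q0 : E := chartAt E x x with hq0
  have hq0t : q0 ∈ (chartAt E x).target := target_self x
  have hsy : (chartAt E x).symm q0 = x := symm_self x
  have hsrc : ∀ τ, Φ τ ((chartAt E x).symm q0) ∈ (chartAt E x).source := by
    intro τ
    rw [hsy, hxF]
    exact mem_chart_source E x
  have hG0 : ∀ τ, flowLoc Φ x (τ, q0) = q0 := by
    intro τ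
    unfold flowLoc
    simp only [hsy, hxF]
    rfl
  -- the derivative at the fixed point is the identity
  have hid : ∀ τ, dloc Φ x (τ, q0) = ContinuousLinearMap.id ℝ E := by
    intro τ
    by_contra hne
    have h1 : ContinuousAt (fun y : M => dloc Φ x (τ, chartAt E x y)) x := by
      have h2 : ContinuousAt (fun y : M => (τ, chartAt E x y)) x :=
        continuousAt_const.prodMk ((chartAt E x).continuousAt (mem_chart_source E x))
      exact ContinuousAt.comp (f := fun y : M => (τ, chartAt E x y))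
        (continuousAt_dloc H x hq0t (hsrc τ)) h2
    have h3 : ∀ᶠ y in 𝓝 x, dloc Φ x (τ, chartAt E x y) ≠ ContinuousLinearMap.id ℝ E :=
      h1.eventually_ne hne
    have h4 : ∀ᶠ y in 𝓝 x, y ∈ (chartAt E x).source :=
      (chartAt E x).open_source.mem_nhds (mem_chart_source E x)
    have h5 : ∃ᶠ y in 𝓝 x, y ∈ interior (Fix Φ) := mem_closure_iff_frequently.mp hx
    obtain ⟨y, hy1, hy2, hy3⟩ := (h5.and_eventually (h3.and h4)).exists
    apply hy2
    have hyt : chartAt E x y ∈ (chartAt E x).target := (chartAt E x).map_source hy3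
    have hys : (chartAt E x).symm (chartAt E x y) = y := (chartAt E x).left_inv hy3
    have hyF : Φ τ y = y := interior_subset hy1 τ
    have h6 := hasFDerivAt_flowLoc_space H x (τ := τ) hyt (by rw [hys, hyF]; exact hy3)
    have h7 : (fun q : E => flowLoc Φ x (τ, q)) =ᶠ[𝓝 (chartAt E x y)] id := by
      have h8 : ∀ᶠ q in 𝓝 (chartAt E x y), (chartAt E x).symm q ∈ interior (Fix Φ) := by
        have h9 := (chartAt E x).continuousAt_symm hyt
        apply h9.eventually
        rw [hys]
        exact isOpen_interior.mem_nhds hy1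
      filter_upwards [h8, (chartAt E x).open_target.mem_nhds hyt] with q hq1 hq2
      unfold flowLoc
      have h10 : Φ τ ((chartAt E x).symm q) = (chartAt E x).symm q := interior_subset hq1 τ
      simp only [h10, id]
      exact (chartAt E x).right_inv hq2
    have h8 : HasFDerivAt (fun q : E => flowLoc Φ x (τ, q)) (ContinuousLinearMap.id ℝ E)
        (chartAt E x y) := (hasFDerivAt_id _).congr_of_eventuallyEq h7
    exact h6.unique h8
  -- uniform control on `[0, 1]`
  have hU : ∀ᶠ q in 𝓝 q0, ∀ τ ∈ Icc (0 : ℝ) 1, q ∈ (chartAt E x).target ∧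
      Φ τ ((chartAt E x).symm q) ∈ (chartAt E x).source ∧
      ‖dloc Φ x (τ, q) - ContinuousLinearMap.id ℝ E‖ ≤ 1 / 2 := by
    refine isCompact_Icc.eventually_forall_of_forall_eventually
      (P := fun (q : E) (τ : ℝ) => q ∈ (chartAt E x).target ∧
      Φ τ ((chartAt E x).symm q) ∈ (chartAt E x).source ∧
      ‖dloc Φ x (τ, q) - ContinuousLinearMap.id ℝ E‖ ≤ 1 / 2) ?_
    intro τ _
    have h1 := eventually_source H.smooth x hq0t (hsrc τ)
    have h2 : ∀ᶠ p : ℝ × E in 𝓝 (τ, q0),
        ‖dloc Φ x p - ContinuousLinearMap.id ℝ E‖ < 1 / 2 := by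
      have h3 : ContinuousAt (fun p : ℝ × E => ‖dloc Φ x p - ContinuousLinearMap.id ℝ E‖)
          (τ, q0) := ((continuousAt_dloc H x hq0t (hsrc τ)).sub continuousAt_const).norm
      refine h3.eventually_lt continuousAt_const ?_
      rw [hid τ, sub_self, norm_zero]
      norm_num
    have h3 : Tendsto (Prod.swap : E × ℝ → ℝ × E) (𝓝 (q0, τ)) (𝓝 (τ, q0)) :=
      continuous_swap.tendsto _
    filter_upwards [h3.eventually h1, h3.eventually h2] with p hp1 hp2
    exact ⟨hp1.1, hp1.2, hp2.le⟩
  obtain ⟨ε, hε, hball⟩ := Metric.eventually_nhds_iff_ball.mp hU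
  have hV : ∀ᶠ q in 𝓝 q0, ∀ τ ∈ Icc (0 : ℝ) 1, flowLoc Φ x (τ, q) ∈ Metric.ball q0 ε := by
    refine isCompact_Icc.eventually_forall_of_forall_eventually
      (P := fun (q : E) (τ : ℝ) => flowLoc Φ x (τ, q) ∈ Metric.ball q0 ε) ?_
    intro τ _
    have h1 : ContinuousAt (flowLoc Φ x) (τ, q0) :=
      (contDiffAt_flowLoc H.smooth x hq0t (hsrc τ)).continuousAt
    have h3 : Tendsto (Prod.swap : E × ℝ → ℝ × E) (𝓝 (q0, τ)) (𝓝 (τ, q0)) :=
      continuous_swap.tendsto _
    have h2 : ∀ᶠ p in 𝓝 (τ, q0), flowLoc Φ x p ∈ Metric.ball q0 ε := by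
      apply h1.eventually
      rw [hG0 τ]
      exact Metric.ball_mem_nhds q0 hε
    exact h3.eventually h2
  have hfin : ∀ᶠ q in 𝓝 q0, (chartAt E x).symm q ∈ Fix Φ := by
    filter_upwards [hV, Metric.ball_mem_nhds q0 hε] with q hq1 hq2
    set y := (chartAt E x).symm q with hy
    have hB := hball q hq2
    -- `Φ (1 / N)` fixes `y`
    have hN : ∀ N : ℕ, 0 < N → Φ (1 / (N : ℝ)) y = y := by
      intro N hNpos
      have hN0 : (0 : ℝ) < N := by exact_mod_cast hNpos
      have hmem : ∀ i : ℕ, i ≤ N → ((i : ℝ) / N) ∈ Icc (0 : ℝ) 1 := by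
        intro i hi
        refine ⟨by positivity, ?_⟩
        rw [div_le_one hN0]
        exact_mod_cast hi
      have h1N : (1 / (N : ℝ)) ∈ Icc (0 : ℝ) 1 := by
        have := hmem 1 hNpos
        simpa using this
      set q1 := flowLoc Φ x (1 / (N : ℝ), q) with hq1'
      have hq1b : q1 ∈ Metric.ball q0 ε := hq1 _ h1N
      have hstep : ∀ i : ℕ, flowLoc Φ x ((i : ℝ) / N, q1) =
          flowLoc Φ x (((i + 1 : ℕ) : ℝ) / N, q) := by
        intro i
        simp only [hq1', flowLoc]
        rw [(chartAt E x).left_inv (hB _ h1N).2.1, ← H.add]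
        congr 2
        push_cast
        ring
      have htel : ∑ i ∈ Finset.range N, (flowLoc Φ x ((i : ℝ) / N, q1) -
          flowLoc Φ x ((i : ℝ) / N, q)) = 0 := by
        have h2 : ∀ i ∈ Finset.range N, (flowLoc Φ x ((i : ℝ) / N, q1) -
          flowLoc Φ x ((i : ℝ) / N, q)) = (fun i : ℕ => flowLoc Φ x ((i : ℝ) / N, q)) (i + 1) -
            (fun i : ℕ => flowLoc Φ x ((i : ℝ) / N, q)) i := by
          intro i _
          rw [hstep i]
        rw [Finset.sum_congr rfl h2]
        refine (Finset.sum_range_sub (fun i : ℕ => flowLoc Φ x ((i : ℝ) / N, q)) N).trans ?_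
        have e0 : flowLoc Φ x (((0 : ℕ) : ℝ) / N, q) = q := by
          rw [Nat.cast_zero, zero_div]
          unfold flowLoc
          rw [H.zero]
          exact (chartAt E x).right_inv (hB 0 ⟨le_rfl, zero_le_one⟩).1
        have e1 : flowLoc Φ x (((N : ℕ) : ℝ) / N, q) = q := by
          rw [div_self hN0.ne']
          unfold flowLoc
          rw [hper]
          exact (chartAt E x).right_inv (hB 0 ⟨le_rfl, zero_le_one⟩).1
        rw [e0, e1, sub_self]
      have hmv : ∀ i ∈ Finset.range N, ‖flowLoc Φ x ((i : ℝ) / N, q1) -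
          flowLoc Φ x ((i : ℝ) / N, q) - (q1 - q)‖ ≤ 1 / 2 * ‖q1 - q‖ := by
        intro i hi
        have hi' := hmem i (Finset.mem_range.mp hi).le
        have h3 : ∀ z ∈ Metric.ball q0 ε, HasFDerivWithinAt
            (fun q : E => flowLoc Φ x ((i : ℝ) / N, q)) (dloc Φ x ((i : ℝ) / N, z))
            (Metric.ball q0 ε) z := by
          intro z hz
          exact (hasFDerivAt_flowLoc_space H x (hball z hz _ hi').1
            (hball z hz _ hi').2.1).hasFDerivWithinAt
        exact (convex_ball q0 ε).norm_image_sub_le_of_norm_hasFDerivWithin_le'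
          (φ := ContinuousLinearMap.id ℝ E) h3 (fun z hz => (hball z hz _ hi').2.2) hq2 hq1b
      have hsum : ‖∑ i ∈ Finset.range N, (flowLoc Φ x ((i : ℝ) / N, q1) -
          flowLoc Φ x ((i : ℝ) / N, q) - (q1 - q))‖ ≤ N * (1 / 2 * ‖q1 - q‖) := by
        have := norm_sum_le_of_le _ hmv
        simpa using this
      rw [Finset.sum_sub_distrib, htel, Finset.sum_const, Finset.card_range, zero_sub, norm_neg,
        ← Nat.cast_smul_eq_nsmul ℝ, norm_smul, Real.norm_natCast] at hsum
      have h4 : ‖q1 - q‖ ≤ 1 / 2 * ‖q1 - q‖ := le_of_mul_le_mul_left hsum hN0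
      have h5 : ‖q1 - q‖ = 0 := by
        have := norm_nonneg (q1 - q)
        linarith
      have h6 : q1 = q := sub_eq_zero.mp (norm_eq_zero.mp h5)
      have h7 : chartAt E x (Φ (1 / (N : ℝ)) y) = chartAt E x y := by
        have : chartAt E x y = q := (chartAt E x).right_inv (hB 0 ⟨le_rfl, zero_le_one⟩).1
        rw [this]
        exact h6
      exact (chartAt E x).injOn (hB _ h1N).2.1
        ((chartAt E x).map_target (hB 0 ⟨le_rfl, zero_le_one⟩).1) h7
    -- the stabiliser is a closed dense subgroup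
    let S : AddSubgroup ℝ :=
      { carrier := {s | Φ s y = y}
        zero_mem' := H.zero y
        add_mem' := by
          intro a b ha hb
          show Φ (a + b) y = y
          rw [H.add, hb, ha]
        neg_mem' := by
          intro a ha
          show Φ (-a) y = y
          have ha' : Φ a y = y := ha
          nth_rewrite 1 [← ha']
          rw [← H.add, neg_add_cancel, H.zero] }
    have hdense : Dense (S : Set ℝ) := by
      refine AddSubgroup.dense_of_not_isolated_zero S ?_
      intro δ hδ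
      obtain ⟨n, hn⟩ := exists_nat_one_div_lt hδ
      refine ⟨1 / ((n : ℝ) + 1), ?_, ⟨by positivity, hn⟩⟩
      have := hN (n + 1) (Nat.succ_pos n)
      push_cast at this
      exact this
    have hclosed : IsClosed (S : Set ℝ) :=
      isClosed_eq (H.contMDiff_time y).continuous continuous_const
    intro s
    have : s ∈ closure (S : Set ℝ) := by rw [hdense.closure_eq]; trivial
    rw [hclosed.closure_eq] at this
    exact this
  rw [mem_interior_iff_mem_nhds]
  have h1 : ContinuousAt (chartAt E x) x := (chartAt E x).continuousAt (mem_chart_source E x)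
  have h2 : ∀ᶠ y in 𝓝 x, (chartAt E x).symm (chartAt E x y) ∈ Fix Φ := h1.eventually hfin
  filter_upwards [h2, (chartAt E x).open_source.mem_nhds (mem_chart_source E x)] with y hy1 hy2
  rw [(chartAt E x).left_inv hy2] at hy1
  exact hy1

/-- A nontrivial circle action on a connected manifold moves points of every open set. -/
theorem Sym.exists_vf_ne_zero [T2Space M] [PreconnectedSpace M] (H : Sym L Φ)
    (hper : ∀ x, Φ 1 x = x) (hnt : ∃ s x, Φ s x ≠ x) {O : Set M} (hO : IsOpen O)
    (hne : O.Nonempty) : ∃ x ∈ O, (vf Φ x : E) ≠ 0 := by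
  by_contra hcon
  push Not at hcon
  have h1 : O ⊆ Fix Φ := fun x hx => H.fixed_of_vf_zero (hcon x hx)
  have h2 : (interior (Fix Φ)).Nonempty := hne.mono (interior_maximal h1 hO)
  have h3 : IsClopen (interior (Fix Φ)) := ⟨H.interior_fix_closed hper, isOpen_interior⟩
  have h4 := h3.eq_univ h2
  obtain ⟨s, x, hx⟩ := hnt
  apply hx
  have : x ∈ interior (Fix Φ) := by rw [h4]; trivial
  exact interior_subset this s

end Run7.h907.Mfd
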