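import Pool.Agent.Run7.h907.ManifoldLocal

open Set Filter Topology
open scoped Manifold ContDiff

set_option linter.unusedSectionVars false

namespace Run7.h907.Mfd

variable {E : Type*} [NormedAddCommGroup E] [NormedSpace ℝ E]
variable {M : Type*} [TopologicalSpace M] [ChartedSpace E M] [IsManifold 𝓘(ℝ, E) ∞ M]

/-- The derivative of the inverse chart, as a map between fixed spaces. -/
noncomputable def dsymm (x₀ : M) (q : E) : E →L[ℝ] E :=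
  mfderiv 𝓘(ℝ, E) 𝓘(ℝ, E) (chartAt E x₀).symm q

lemma loc_eq (L : TangentBundle 𝓘(ℝ, E) M → ℝ) (x₀ : M) (q v : E) :
    loc L x₀ q v = L (pt ((chartAt E x₀).symm q) (dsymm x₀ q v)) := rfl

section Flow

variable {Φ : ℝ → M → M}

lemma eventually_source
    (hΦ : ContMDiff (𝓘(ℝ, ℝ).prod 𝓘(ℝ, E)) 𝓘(ℝ, E) ∞ (fun p : ℝ × M => Φ p.1 p.2))
    (x₀ : M) {τ : ℝ} {q : E} (hq : q ∈ (chartAt E x₀).target)
    (h : Φ τ ((chartAt E x₀).symm q) ∈ (chartAt E x₀).source) :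
    ∀ᶠ p : ℝ × E in 𝓝 (τ, q), p.2 ∈ (chartAt E x₀).target ∧
      Φ p.1 ((chartAt E x₀).symm p.2) ∈ (chartAt E x₀).source := by
  have h1 : ∀ᶠ p : ℝ × E in 𝓝 (τ, q), p.2 ∈ (chartAt E x₀).target :=
    continuousAt_snd.eventually ((chartAt E x₀).open_target.mem_nhds hq)
  have h2 : ContinuousAt (fun p : ℝ × E => Φ p.1 ((chartAt E x₀).symm p.2)) (τ, q) := by
    have h3 : ContinuousAt (fun p : ℝ × E => (p.1, (chartAt E x₀).symm p.2)) (τ, q) := by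
      refine continuousAt_fst.prodMk ?_
      exact ((chartAt E x₀).continuousAt_symm hq).comp continuousAt_snd
    exact (hΦ.continuous.continuousAt).comp h3
  exact h1.and (h2.eventually ((chartAt E x₀).open_source.mem_nhds h))

/-- Statement (A). -/
lemma vf_eq
    (hΦ : ContMDiff (𝓘(ℝ, ℝ).prod 𝓘(ℝ, E)) 𝓘(ℝ, E) ∞ (fun p : ℝ × M => Φ p.1 p.2))
    (h0 : ∀ x, Φ 0 x = x) (x₀ : M) {q : E} (hq : q ∈ (chartAt E x₀).target) :
    vf Φ ((chartAt E x₀).symm q) = dsymm x₀ q (fderiv ℝ (flowLoc Φ x₀) (0, q) (1, 0)) := by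
  have hsrc : Φ 0 ((chartAt E x₀).symm q) ∈ (chartAt E x₀).source := by
    rw [h0]; exact (chartAt E x₀).map_target hq
  have hG : DifferentiableAt ℝ (flowLoc Φ x₀) (0, q) :=
    (contDiffAt_flowLoc hΦ x₀ hq hsrc).differentiableAt (by simp)
  have hG0 : flowLoc Φ x₀ (0, q) = q := by
    unfold flowLoc
    rw [h0]
    exact (chartAt E x₀).right_inv hq
  have hg : HasFDerivAt (fun τ : ℝ => flowLoc Φ x₀ (τ, q))
      ((fderiv ℝ (flowLoc Φ x₀) (0, q)).comp (ContinuousLinearMap.inl ℝ ℝ E)) 0 := by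
    have h2 : HasFDerivAt (fun τ : ℝ => (τ, q)) (ContinuousLinearMap.inl ℝ ℝ E) 0 :=
      (hasFDerivAt_id (0 : ℝ)).prodMk (hasFDerivAt_const q (0 : ℝ))
    exact hG.hasFDerivAt.comp 0 h2
  have hs : MDifferentiableAt 𝓘(ℝ, E) 𝓘(ℝ, E) (chartAt E x₀).symm
      ((fun τ : ℝ => flowLoc Φ x₀ (τ, q)) 0) := by
    show MDifferentiableAt 𝓘(ℝ, E) 𝓘(ℝ, E) (chartAt E x₀).symm (flowLoc Φ x₀ (0, q))
    rw [hG0]
    exact mdiff_chart_symm x₀ hq
  have hcomp := hs.hasMFDerivAt.comp (0 : ℝ) hg.hasMFDerivAt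
  have hev : (fun τ => Φ τ ((chartAt E x₀).symm q)) =ᶠ[𝓝 0]
      ((chartAt E x₀).symm ∘ fun τ : ℝ => flowLoc Φ x₀ (τ, q)) := by
    have h1 : ∀ᶠ τ : ℝ in 𝓝 0, Φ τ ((chartAt E x₀).symm q) ∈ (chartAt E x₀).source := by
      have h2 := eventually_source hΦ x₀ hq hsrc
      have h3 : Tendsto (fun τ : ℝ => (τ, q)) (𝓝 0) (𝓝 ((0 : ℝ), q)) :=
        (by fun_prop : Continuous (fun τ : ℝ => (τ, q))).tendsto 0
      exact (h3.eventually h2).mono fun τ h => h.2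
    filter_upwards [h1] with τ hτ
    simp only [Function.comp_apply, flowLoc]
    exact ((chartAt E x₀).left_inv hτ).symm
  have h5 := (hcomp.congr_of_eventuallyEq hev).mfderiv
  have h6 : vf Φ ((chartAt E x₀).symm q) = dsymm x₀ (flowLoc Φ x₀ (0, q))
      (fderiv ℝ (flowLoc Φ x₀) (0, q) (1, 0)) := by
    unfold vf
    rw [h5]
    rfl
  rw [h6, hG0]

/-- Statement (B), differential of `Φ τ` in the chart. -/
lemma dflow_eq
    (hΦ : ContMDiff (𝓘(ℝ, ℝ).prod 𝓘(ℝ, E)) 𝓘(ℝ, E) ∞ (fun p : ℝ × M => Φ p.1 p.2))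
    (x₀ : M) {τ : ℝ} {q : E} (hq : q ∈ (chartAt E x₀).target)
    (hsrc : Φ τ ((chartAt E x₀).symm q) ∈ (chartAt E x₀).source) (w : E) :
    (mfderiv 𝓘(ℝ, E) 𝓘(ℝ, E) (Φ τ) ((chartAt E x₀).symm q) (dsymm x₀ q w) : E) =
      dsymm x₀ (flowLoc Φ x₀ (τ, q)) (fderiv ℝ (flowLoc Φ x₀) (τ, q) (0, w)) := by
  have hG : DifferentiableAt ℝ (flowLoc Φ x₀) (τ, q) :=
    (contDiffAt_flowLoc hΦ x₀ hq hsrc).differentiableAt (by simp)
  have hg : HasFDerivAt (fun q : E => flowLoc Φ x₀ (τ, q))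
      ((fderiv ℝ (flowLoc Φ x₀) (τ, q)).comp (ContinuousLinearMap.inr ℝ ℝ E)) q := by
    have h2 : HasFDerivAt (fun q : E => (τ, q)) (ContinuousLinearMap.inr ℝ ℝ E) q :=
      (hasFDerivAt_const τ q).prodMk (hasFDerivAt_id q)
    exact hG.hasFDerivAt.comp q h2
  have hs : MDifferentiableAt 𝓘(ℝ, E) 𝓘(ℝ, E) (chartAt E x₀).symm
      ((fun q : E => flowLoc Φ x₀ (τ, q)) q) :=
    mdiff_chart_symm x₀ ((chartAt E x₀).map_source hsrc)
  have hcomp := hs.hasMFDerivAt.comp q hg.hasMFDerivAt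
  have hΦτ : MDifferentiableAt 𝓘(ℝ, E) 𝓘(ℝ, E) (Φ τ) ((chartAt E x₀).symm q) := by
    have h1 : ContMDiff 𝓘(ℝ, E) 𝓘(ℝ, E) ∞ (Φ τ) :=
      hΦ.comp (contMDiff_const.prodMk contMDiff_id)
    exact h1.mdifferentiableAt (by simp)
  have hcomp2 := hΦτ.hasMFDerivAt.comp q (mdiff_chart_symm x₀ hq).hasMFDerivAt
  have hev : (Φ τ ∘ (chartAt E x₀).symm) =ᶠ[𝓝 q]
      ((chartAt E x₀).symm ∘ fun q : E => flowLoc Φ x₀ (τ, q)) := by
    have h1 : ∀ᶠ q : E in 𝓝 q, Φ τ ((chartAt E x₀).symm q) ∈ (chartAt E x₀).source := by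
      have h2 := eventually_source hΦ x₀ hq hsrc
      have h3 : Tendsto (fun q : E => (τ, q)) (𝓝 q) (𝓝 (τ, q)) :=
        (by fun_prop : Continuous (fun q : E => (τ, q))).tendsto q
      exact (h3.eventually h2).mono fun τ h => h.2
    filter_upwards [h1] with q hq
    simp only [Function.comp_apply, flowLoc]
    exact ((chartAt E x₀).left_inv hq).symm
  have h5 := (hcomp.congr_of_eventuallyEq hev).mfderiv
  have h6 := hcomp2.mfderiv
  have h7 := h6.symm.trans h5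
  exact congrArg (fun T : E →L[ℝ] E => T w) h7

end Flow

end Run7.h907.Mfd
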