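import Pool.Agent.Run7.h907.ManifoldDefs
import Pool.Agent.Run7.h907.LocalEL

/-!
# Charts of the tangent bundle and local expressions
-/

open Set Filter Topology
open scoped Manifold ContDiff

namespace Run7.h907.Mfd

variable {E : Type*} [NormedAddCommGroup E] [NormedSpace ℝ E]
variable {M : Type*} [TopologicalSpace M] [ChartedSpace E M] [IsManifold 𝓘(ℝ, E) ∞ M]

lemma chart_symm_eq (x₀ : M) (q v : E) (hq : q ∈ (chartAt E x₀).target) :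
    (pt ((chartAt E x₀).symm q) (mfderiv 𝓘(ℝ, E) 𝓘(ℝ, E) (chartAt E x₀).symm q v) :
      TangentBundle 𝓘(ℝ, E) M) =
    (chartAt (ModelProd E E) (pt x₀ 0 : TangentBundle 𝓘(ℝ, E) M)).symm (q, v) := by
  have h := tangentMap_chart_symm (I := 𝓘(ℝ, E)) (p := (pt x₀ 0 : TangentBundle 𝓘(ℝ, E) M))
    (q := (⟨q, v⟩ : TangentBundle 𝓘(ℝ, E) E)) hq
  exact h

lemma contDiffOn_loc {L : TangentBundle 𝓘(ℝ, E) M → ℝ}
    (hL : ContMDiff 𝓘(ℝ, E).tangent 𝓘(ℝ, ℝ) 2 L) (x₀ : M) :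
    ContDiffOn ℝ 2 (fun p : E × E => loc L x₀ p.1 p.2) ((chartAt E x₀).target ×ˢ univ) := by
  have h1 : ContMDiffOn 𝓘(ℝ, E).tangent 𝓘(ℝ, E).tangent 2
      (chartAt (ModelProd E E) (pt x₀ 0 : TangentBundle 𝓘(ℝ, E) M)).symm
      (chartAt (ModelProd E E) (pt x₀ 0 : TangentBundle 𝓘(ℝ, E) M)).target :=
    contMDiffOn_chart_symm
  have h2 : ContMDiffOn 𝓘(ℝ, E).tangent 𝓘(ℝ, ℝ) 2
      (L ∘ (chartAt (ModelProd E E) (pt x₀ 0 : TangentBundle 𝓘(ℝ, E) M)).symm)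
      (chartAt (ModelProd E E) (pt x₀ 0 : TangentBundle 𝓘(ℝ, E) M)).target :=
    hL.comp_contMDiffOn h1
  have h3 : (chartAt (ModelProd E E) (pt x₀ 0 : TangentBundle 𝓘(ℝ, E) M)).target =
      (chartAt E x₀).target ×ˢ univ := by
    ext p
    rw [TangentBundle.mem_chart_target_iff]
    exact ⟨fun h => ⟨h, mem_univ _⟩, fun h => h.1⟩
  rw [h3] at h2
  have h4 : ContDiffOn ℝ 2
      (L ∘ (chartAt (ModelProd E E) (pt x₀ 0 : TangentBundle 𝓘(ℝ, E) M)).symm : E × E → ℝ)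
      ((chartAt E x₀).target ×ˢ univ) := by
    rw [← contMDiffOn_iff_contDiffOn, modelWithCornersSelf_prod]
    exact h2
  refine h4.congr ?_
  intro p hp
  show L _ = L _
  rw [chart_symm_eq x₀ p.1 p.2 hp.1]

/-- In the chart centred at `x`, the tangent space at `x` is read by the identity. -/
lemma loc_self (L : TangentBundle 𝓘(ℝ, E) M → ℝ) (x : M) (v : E) :
    loc L x (chartAt E x x) v = L (pt x v) := by
  unfold loc
  have h1 : (chartAt E x).symm (chartAt E x x) = x :=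
    (chartAt E x).left_inv (mem_chart_source E x)
  have h2 := mfderivWithin_range_extChartAt_symm (I := 𝓘(ℝ, E)) (x := x)
  simp only [mfld_simps, mfderivWithin_univ] at h2
  rw [h2]
  congr 1
  exact congrArg (fun y => pt y v) h1

lemma mdiff_chart_symm (x₀ : M) {q : E} (hq : q ∈ (chartAt E x₀).target) :
    MDifferentiableAt 𝓘(ℝ, E) 𝓘(ℝ, E) (chartAt E x₀).symm q :=
  mdifferentiableAt_atlas_symm (chart_mem_atlas E x₀) hq

/-- A fibre of `L` is `C²`. -/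
lemma contDiff_fibre {L : TangentBundle 𝓘(ℝ, E) M → ℝ}
    (hL : ContMDiff 𝓘(ℝ, E).tangent 𝓘(ℝ, ℝ) 2 L) (x : M) :
    ContDiff ℝ 2 (fun v : E => L (pt x v)) := by
  have h := contDiffOn_loc hL x
  have h2 : ContDiffOn ℝ 2 (fun v : E => loc L x (chartAt E x x) v) univ := by
    refine h.comp (f := fun v : E => (chartAt E x x, v)) (by fun_prop) ?_
    intro v _
    exact ⟨mem_chart_target E x, mem_univ _⟩
  rw [contDiffOn_univ] at h2
  simpa only [loc_self] using h2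

/-- The local expression of a flow. -/
noncomputable def flowLoc (Φ : ℝ → M → M) (x₀ : M) (p : ℝ × E) : E :=
  chartAt E x₀ (Φ p.1 ((chartAt E x₀).symm p.2))

/-- The vector field of a flow. -/
noncomputable def vf (Φ : ℝ → M → M) (x : M) : E :=
  mfderiv 𝓘(ℝ, ℝ) 𝓘(ℝ, E) (fun τ => Φ τ x) 0 (1 : ℝ)

section Flow

variable {Φ : ℝ → M → M}

lemma contDiffAt_flowLoc
    (hΦ : ContMDiff (𝓘(ℝ, ℝ).prod 𝓘(ℝ, E)) 𝓘(ℝ, E) ∞ (fun p : ℝ × M => Φ p.1 p.2))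
    (x₀ : M) {τ : ℝ} {q : E} (hq : q ∈ (chartAt E x₀).target)
    (h : Φ τ ((chartAt E x₀).symm q) ∈ (chartAt E x₀).source) :
    ContDiffAt ℝ ∞ (flowLoc Φ x₀) (τ, q) := by
  have h1 : ContMDiffAt (𝓘(ℝ, ℝ).prod 𝓘(ℝ, E)) (𝓘(ℝ, ℝ).prod 𝓘(ℝ, E)) ∞
      (fun p : ℝ × E => (p.1, (chartAt E x₀).symm p.2)) (τ, q) := by
    refine ContMDiffAt.prodMk contMDiffAt_fst ?_
    have h2 : ContMDiffAt 𝓘(ℝ, E) 𝓘(ℝ, E) ∞ (chartAt E x₀).symm q :=
      (contMDiffOn_chart_symm q hq).contMDiffAt ((chartAt E x₀).open_target.mem_nhds hq)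
    exact h2.comp (τ, q) contMDiffAt_snd
  have h3 : ContMDiffAt (𝓘(ℝ, ℝ).prod 𝓘(ℝ, E)) 𝓘(ℝ, E) ∞
      (fun p : ℝ × E => Φ p.1 ((chartAt E x₀).symm p.2)) (τ, q) :=
    (hΦ.contMDiffAt).comp (τ, q) h1
  have h4 : ContMDiffAt 𝓘(ℝ, E) 𝓘(ℝ, E) ∞ (chartAt E x₀) (Φ τ ((chartAt E x₀).symm q)) :=
    (contMDiffOn_chart _ h).contMDiffAt ((chartAt E x₀).open_source.mem_nhds h)
  have h5 : ContMDiffAt (𝓘(ℝ, ℝ).prod 𝓘(ℝ, E)) 𝓘(ℝ, E) ∞ (flowLoc Φ x₀) (τ, q) :=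
    h4.comp (τ, q) h3
  rw [← contMDiffAt_iff_contDiffAt, modelWithCornersSelf_prod, ← chartedSpaceSelf_prod]
  exact h5

end Flow

end Run7.h907.Mfd
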