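import Pool.Agent.Run7.h907.ManifoldEL

/-!
# Maximising the momentum of a circle symmetry on an energy level
-/

open Set Filter Topology
open scoped Manifold ContDiff

set_option linter.unusedSectionVars false

namespace Run7.h907.Mfd

variable {E : Type*} [NormedAddCommGroup E] [NormedSpace ℝ E]
variable {M : Type*} [TopologicalSpace M] [ChartedSpace E M] [IsManifold 𝓘(ℝ, E) ∞ M]
variable {L : TangentBundle 𝓘(ℝ, E) M → ℝ} {Φ : ℝ → M → M}

lemma continuous_prof (hT : IsTonelli L) (H : Sym L Φ) (t : ℝ) :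
    Continuous (fun x => prof L Φ x t) := by
  rw [continuous_iff_continuousAt]
  intro x₀
  have h1 : ContinuousAt (Floc L Φ x₀) (chartAt E x₀ x₀, t) :=
    (contDiffAt_Floc hT H x₀ (target_self x₀) t).continuousAt
  have h2 : ContinuousAt (fun x => (chartAt E x₀ x, t)) x₀ :=
    ((chartAt E x₀).continuousAt (mem_chart_source E x₀)).prodMk continuousAt_const
  have h3 : ContinuousAt (fun x => Floc L Φ x₀ (chartAt E x₀ x, t)) x₀ :=
    ContinuousAt.comp (f := fun x => (chartAt E x₀ x, t)) h1 h2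
  refine h3.congr ?_
  filter_upwards [(chartAt E x₀).open_source.mem_nhds (mem_chart_source E x₀)] with x hx
  rw [Floc_eq H x₀ ((chartAt E x₀).map_source hx)]
  simp only [(chartAt E x₀).left_inv hx]

/-- The support function in the direction of the symmetry. -/
noncomputable def supp (L : TangentBundle 𝓘(ℝ, E) M → ℝ) (Φ : ℝ → M → M) (k : ℝ) (x : M) : ℝ :=
  ⨅ t : Ioi (0 : ℝ), (prof L Φ x t + k) / t

lemma prof_const (x : M) (hx : (vf Φ x : E) = 0) : prof L Φ x = fun _ => L (pt x 0) := by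
  funext t
  unfold prof
  rw [hx, smul_zero]

lemma mom_lower (hT : IsTonelli L) {x : M} (hx : (vf Φ x : E) ≠ 0) {s k : ℝ}
    (hs : pen L Φ x s = k) {t : ℝ} (ht : 0 < t) :
    deriv (prof L Φ x) s ≤ (prof L Φ x t + k) / t := by
  have h := prof_tangent hT hx s t
  rw [le_div_iff₀ ht]
  unfold pen at hs
  linarith

lemma supp_bdd (hT : IsTonelli L) (Φ : ℝ → M → M) {k : ℝ} {x : M} (hk : -L (pt x 0) ≤ k) :
    BddBelow (range fun t : Ioi (0 : ℝ) => (prof L Φ x t + k) / t) := by
  by_cases hx : (vf Φ x : E) = 0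
  · refine ⟨0, ?_⟩
    rintro _ ⟨t, rfl⟩
    have ht : (0 : ℝ) < t := t.2
    simp only [prof_const x hx]
    exact div_nonneg (by linarith) ht.le
  · obtain ⟨s, -, hs⟩ := exists_pen hT hx hk
    refine ⟨deriv (prof L Φ x) s, ?_⟩
    rintro _ ⟨t, rfl⟩
    exact mom_lower hT hx hs t.2

lemma supp_le (hT : IsTonelli L) (Φ : ℝ → M → M) {k : ℝ} {x : M} (hk : -L (pt x 0) ≤ k)
    {t : ℝ} (ht : 0 < t) : supp L Φ k x ≤ (prof L Φ x t + k) / t :=
  ciInf_le (supp_bdd hT Φ hk) (⟨t, ht⟩ : Ioi (0 : ℝ))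

lemma le_supp {k c : ℝ} {x : M} (h : ∀ t : ℝ, 0 < t → c ≤ (prof L Φ x t + k) / t) :
    c ≤ supp L Φ k x := by
  have : Nonempty (Ioi (0 : ℝ)) := ⟨⟨1, mem_Ioi.mpr one_pos⟩⟩
  exact le_ciInf fun t => h t t.2

lemma supp_le_mom (hT : IsTonelli L) {k : ℝ} {x : M} (hk : -L (pt x 0) ≤ k)
    {s : ℝ} (hs0 : 0 ≤ s) (hs : pen L Φ x s = k) : supp L Φ k x ≤ deriv (prof L Φ x) s := by
  rcases hs0.eq_or_lt with h0 | h0
  · subst h0
    rw [pen_zero] at hs
    have hd := (hasDerivAt_prof hT Φ x 0).tendsto_slope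
    have hd' : Tendsto (slope (prof L Φ x) 0) (𝓝[>] 0) (𝓝 (deriv (prof L Φ x) 0)) :=
      hd.mono_left (nhdsWithin_mono _ (by
        intro t ht
        exact ne_of_gt ht))
    refine ge_of_tendsto hd' ?_
    filter_upwards [self_mem_nhdsWithin] with t ht
    have ht' : (0 : ℝ) < t := ht
    have h1 := supp_le hT Φ hk ht'
    rw [slope_def_field, prof_zero, sub_zero]
    have e : prof L Φ x t - L (pt x 0) = prof L Φ x t + k := by rw [← hs]; ring
    rw [e]
    exact h1
  · have h1 := supp_le hT Φ hk h0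
    have e : (prof L Φ x s + k) / s = deriv (prof L Φ x) s := by
      rw [div_eq_iff h0.ne']
      unfold pen at hs
      linarith
    rwa [e] at h1

lemma supp_usc (hT : IsTonelli L) (H : Sym L Φ) (k : ℝ) :
    UpperSemicontinuousOn (supp L Φ k) {x | -L (pt x 0) ≤ k} := by
  intro x hx y hxy
  have : Nonempty (Ioi (0 : ℝ)) := ⟨⟨1, mem_Ioi.mpr one_pos⟩⟩
  obtain ⟨t, ht⟩ := exists_lt_of_ciInf_lt hxy
  have h1 : Continuous (fun z => (prof L Φ z t + k) / t) :=
    ((continuous_prof hT H t).add continuous_const).div_const _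
  have h2 : ∀ᶠ z in 𝓝[{x | -L (pt x 0) ≤ k}] x, (prof L Φ z t + k) / t < y :=
    (h1.continuousAt.eventually_lt continuousAt_const ht).filter_mono nhdsWithin_le_nhds
  filter_upwards [h2, eventually_mem_nhdsWithin] with z hz1 hz2
  exact (supp_le hT Φ hz2 t.2).trans_lt hz1

/-- The maximum of the momentum on the level, attained on the symmetry direction. -/
theorem exists_max [CompactSpace M] (hT : IsTonelli L) (H : Sym L Φ) {k c : ℝ} {x₁ : M}
    (hc : 0 < c) (hx₁ : -L (pt x₁ 0) ≤ k)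
    (h : ∀ t : ℝ, 0 < t → c ≤ (prof L Φ x₁ t + k) / t) :
    ∃ (x : M) (s : ℝ), 0 ≤ s ∧ (vf Φ x : E) ≠ 0 ∧ pen L Φ x s = k ∧
      ∀ y s', pen L Φ y s' = k → deriv (prof L Φ y) s' ≤ deriv (prof L Φ x) s := by
  set D : Set M := {x | -L (pt x 0) ≤ k} with hD
  have hcont0 : Continuous (fun x : M => L (pt x 0)) := by
    have := continuous_prof hT H 0
    simpa only [prof_zero] using this
  have hDc : IsCompact D := (isClosed_le hcont0.neg continuous_const).isCompact
  obtain ⟨x, hxD, hmax⟩ := (supp_usc hT H k).exists_isMaxOn ⟨x₁, hx₁⟩ hDc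
  have hcx : c ≤ supp L Φ k x := (le_supp h).trans (hmax hx₁)
  have hvx : (vf Φ x : E) ≠ 0 := by
    intro hv
    have hA : 0 ≤ L (pt x 0) + k := by
      have : -L (pt x 0) ≤ k := hxD
      linarith
    have h1 := supp_le hT Φ hxD (t := (L (pt x 0) + k) / c + 1)
      (by positivity)
    rw [prof_const x hv] at h1
    have h2 : c ≤ (L (pt x 0) + k) / ((L (pt x 0) + k) / c + 1) := hcx.trans h1
    rw [le_div_iff₀ (by positivity)] at h2
    have h3 : c * ((L (pt x 0) + k) / c + 1) = (L (pt x 0) + k) + c := by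
      field_simp
    rw [h3] at h2
    linarith
  obtain ⟨s, hs0, hs⟩ := exists_pen hT hvx hxD
  refine ⟨x, s, hs0, hvx, hs, ?_⟩
  have hms : supp L Φ k x ≤ deriv (prof L Φ x) s := supp_le_mom hT hxD hs0 hs
  intro y s' hs'
  by_cases hvy : (vf Φ y : E) = 0
  · rw [prof_const y hvy]
    have : deriv (fun _ : ℝ => L (pt y 0)) s' = 0 := deriv_const s' _
    rw [this]
    linarith
  · have hyD : -L (pt y 0) ≤ k := by
      rw [← hs', ← energy_smul hT y s']
      exact energy_ge hT y _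
    exact ((le_supp fun t ht => mom_lower hT hvy hs' ht).trans (hmax hyD)).trans hms

/-- At a maximum the profile is critical in the chart. -/
theorem crit_of_max [CompleteSpace E] (hT : IsTonelli L) (H : Sym L Φ) {k : ℝ} {x : M} {s : ℝ}
    (hv : (vf Φ x : E) ≠ 0) (hs : pen L Φ x s = k)
    (hmax : ∀ y s', pen L Φ y s' = k → deriv (prof L Φ y) s' ≤ deriv (prof L Φ x) s) (η : E) :
    fderiv ℝ (fun q => Floc L Φ x (q, s)) (chartAt E x x) η = 0 := by
  set q0 : E := chartAt E x x with hq0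
  have hF := contDiffAt_Floc hT H x (target_self x) s
  have hpos : 0 < fderiv ℝ (fderiv ℝ (Floc L Φ x)) (q0, s) (0, 1) (0, 1) := by
    rw [fderiv2_Floc hT H x (target_self x), symm_self]
    exact prof_pos hT hv s
  have hext : IsLocalExtrOn (fun q => fderiv ℝ (Floc L Φ x) q (0, 1))
      {q | q.2 * fderiv ℝ (Floc L Φ x) q (0, 1) - Floc L Φ x q =
        (q0, s).2 * fderiv ℝ (Floc L Φ x) (q0, s) (0, 1) - Floc L Φ x (q0, s)} (q0, s) := by
    right
    have h1 : ∀ᶠ q : E × ℝ in 𝓝 (q0, s), q.1 ∈ (chartAt E x).target :=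
      continuousAt_fst.eventually ((chartAt E x).open_target.mem_nhds (target_self x))
    filter_upwards [h1.filter_mono nhdsWithin_le_nhds, eventually_mem_nhdsWithin] with q hq1 hq2
    obtain ⟨q, r⟩ := q
    rw [fderiv_Floc hT H x hq1, fderiv_Floc hT H x (target_self x), symm_self,
      Floc_eq H x hq1, Floc_eq H x (p := (q0, s)) (target_self x)] at hq2
    have hsy : (chartAt E x).symm q0 = x := symm_self x
    simp only [hsy] at hq2
    rw [fderiv_Floc hT H x hq1, fderiv_Floc hT H x (target_self x), symm_self]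
    apply hmax
    rw [← hs]
    exact hq2
  have h2 := lagrange_local hF hpos hext η
  have h3 : HasFDerivAt (fun q : E => (q, s)) (ContinuousLinearMap.inl ℝ E ℝ) q0 :=
    (hasFDerivAt_id q0).prodMk (hasFDerivAt_const s q0)
  have h4 := (hF.differentiableAt (by norm_num)).hasFDerivAt.comp q0 h3
  have e : (Floc L Φ x ∘ fun q : E => (q, s)) = fun q => Floc L Φ x (q, s) := rfl
  rw [e] at h4
  rw [h4.fderiv]
  exact h2

/-- The periodic orbit, or singularity, at the maximum. -/
theorem pos_case [CompleteSpace E] [CompactSpace M] (hT : IsTonelli L) (H : Sym L Φ)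
    (hper : ∀ x, Φ 1 x = x) {k c : ℝ} {x₁ : M}
    (hc : 0 < c) (hx₁ : -L (pt x₁ 0) ≤ k)
    (h : ∀ t : ℝ, 0 < t → c ≤ (prof L Φ x₁ t + k) / t) :
    (∃ γ : ℝ → M, IsPeriodicOrbit L k γ) ∨ (∃ x : M, IsSingularity L k x) := by
  obtain ⟨x, s, hs0, hv, hs, hmax⟩ := exists_max hT H hc hx₁ h
  have hvt : ∀ t, (vf Φ (Φ t x) : E) ≠ 0 := by
    intro t ht
    apply hv
    have h1 := H.vf_flow (-t) (Φ t x)
    rw [ht, map_zero, ← H.add, neg_add_cancel, H.zero] at h1
    exact h1.symm
  have hcrit : ∀ t η, fderiv ℝ (fun q => Floc L Φ (Φ t x) (q, s))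
      (chartAt E (Φ t x) (Φ t x)) η = 0 := by
    intro t η
    refine crit_of_max hT H (k := k) (hvt t) ?_ ?_ η
    · rw [H.pen_flow]
      exact hs
    · intro y s' hy
      rw [H.prof_flow]
      exact hmax y s' hy
  have hel := el_orbit hT H x s hcrit
  rcases hs0.eq_or_lt with h0 | h0
  · right
    refine ⟨x, ?_, ?_⟩
    · have e : (fun t => Φ (s * t) x) = fun _ => x := by
        funext t
        rw [← h0, zero_mul, H.zero]
      rw [e] at hel
      exact hel
    · have := energy_smul (Φ := Φ) hT x s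
      rw [hs, ← h0, zero_smul] at this
      exact this
  · left
    refine ⟨fun t => Φ (s * t) x, hel, ?_, ?_, ?_⟩
    · intro t
      rw [H.velocity_orbit, energy_smul hT, H.pen_flow, hs]
    · by_contra hcon
      push Not at hcon
      have e : (fun t => Φ (s * t) x) = fun _ => x := by
        funext t
        rw [hcon t 0, mul_zero, H.zero]
      have h1 := H.velocity_orbit s x 0
      rw [e] at h1
      have h2 : (velocity (fun _ : ℝ => x) 0 : E) = 0 := by
        unfold velocity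
        have h3 : mfderiv 𝓘(ℝ, ℝ) 𝓘(ℝ, E) (fun _ : ℝ => x) 0 = 0 := mfderiv_const
        rw [h3]
        rfl
      rw [h2, mul_zero, H.zero] at h1
      exact (smul_ne_zero h0.ne' hv) h1.symm
    · refine ⟨s⁻¹, inv_pos.mpr h0, fun t => ?_⟩
      show Φ (s * (t + s⁻¹)) x = Φ (s * t) x
      rw [mul_add, mul_inv_cancel₀ h0.ne', H.add, hper]

end Run7.h907.Mfd
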