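import Pool.Agent.Run7.h907.Sublinear

/-!
# The reduced Lagrangian on `ℝ × V`

Critical points of the momentum function on an energy level of a Lagrangian `ℓ (z, v)`
convex in `v`.
-/

open Set Filter Topology

namespace Run7.h907

section OneDim

variable {g g' g'' : ℝ → ℝ}

lemma od_strictMono (h2 : ∀ s, HasDerivAt g' (g'' s) s) (h3 : ∀ s, 0 < g'' s) :
    StrictMono g' :=
  strictMono_of_deriv_pos fun s => by rw [(h2 s).deriv]; exact h3 s

lemma od_tangent (h1 : ∀ s, HasDerivAt g (g' s) s) (h2 : ∀ s, HasDerivAt g' (g'' s) s)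
    (h3 : ∀ s, 0 < g'' s) (s t : ℝ) : g s + g' s * (t - s) ≤ g t := by
  have hm := od_strictMono h2 h3
  have hc : Continuous g := continuous_iff_continuousAt.mpr fun x => (h1 x).continuousAt
  rcases lt_trichotomy s t with h | h | h
  · obtain ⟨x, hx, hx'⟩ := exists_hasDerivAt_eq_slope g g' h hc.continuousOn (fun x _ => h1 x)
    have h4 : g' s < g' x := hm hx.1
    rw [hx', lt_div_iff₀ (by linarith)] at h4
    linarith
  · subst h; simp
  · obtain ⟨x, hx, hx'⟩ := exists_hasDerivAt_eq_slope g g' h hc.continuousOn (fun x _ => h1 x)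
    have h4 : g' x < g' s := hm hx.2
    rw [hx', div_lt_iff₀ (by linarith)] at h4
    linarith

lemma od_strictMonoOn (h1 : ∀ s, HasDerivAt g (g' s) s) (h2 : ∀ s, HasDerivAt g' (g'' s) s)
    (h3 : ∀ s, 0 < g'' s) : StrictMonoOn (fun s => s * g' s - g s) (Ici 0) := by
  have hd : ∀ s, HasDerivAt (fun s => s * g' s - g s) (s * g'' s) s := by
    intro s
    exact (((hasDerivAt_id s).mul (h2 s)).sub (h1 s)).congr_deriv (by simp)
  refine strictMonoOn_of_deriv_pos (convex_Ici 0)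
    (fun x _ => (hd x).continuousAt.continuousWithinAt) ?_
  intro x hx
  rw [interior_Ici] at hx
  rw [(hd x).deriv]
  exact mul_pos hx (h3 x)

lemma od_ge (h1 : ∀ s, HasDerivAt g (g' s) s) (h2 : ∀ s, HasDerivAt g' (g'' s) s)
    (h3 : ∀ s, 0 < g'' s) (s : ℝ) : -g 0 ≤ s * g' s - g s := by
  have := od_tangent h1 h2 h3 s 0
  linarith

lemma od_unbounded (h1 : ∀ s, HasDerivAt g (g' s) s) (h2 : ∀ s, HasDerivAt g' (g'' s) s)
    (h3 : ∀ s, 0 < g'' s) (hg : ∀ C : ℝ, ∃ R : ℝ, ∀ s, R ≤ s → C * s ≤ g s) (k : ℝ) :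
    ∃ s, 0 < s ∧ k < s * g' s - g s := by
  obtain ⟨R, hR⟩ := hg (k + 1 + |g 0| + g 1)
  set s := max R 1 with hs
  have hs1 : 1 ≤ s := le_max_right _ _
  have hs0 : 0 < s := by linarith
  refine ⟨s, hs0, ?_⟩
  have a1 := hR s (le_max_left _ _)
  have a2 := od_tangent h1 h2 h3 s 1
  have a3 := od_tangent h1 h2 h3 s 0
  have a4 : (k + 1 + g 1) * s ≤ g' s * s := by
    have b1 : g 0 ≤ |g 0| := le_abs_self _
    have b2 : |g 0| ≤ |g 0| * s := le_mul_of_one_le_right (abs_nonneg _) hs1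
    nlinarith
  have a5 : k + 1 + g 1 ≤ g' s := le_of_mul_le_mul_right a4 hs0
  linarith

end OneDim

variable {V : Type*} [NormedAddCommGroup V] [NormedSpace ℝ V]

/-- The fibre momentum `∂_v ℓ (z, v) u`. -/
noncomputable def mom (l : ℝ × V → ℝ) (z : ℝ) (v u : V) : ℝ := fderiv ℝ l (z, v) (0, u)

/-- The energy `∂_v ℓ (z, v) v - ℓ (z, v)`. -/
noncomputable def en (l : ℝ × V → ℝ) (z : ℝ) (v : V) : ℝ := mom l z v v - l (z, v)

/-- Regularity, convexity and superlinearity of a reduced Lagrangian. -/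
structure Red (l : ℝ × V → ℝ) : Prop where
  smooth : ContDiff ℝ 2 l
  convex : ∀ p u, u ≠ 0 → 0 < fderiv ℝ (fderiv ℝ l) p (0, u) (0, u)
  superlin : ∀ (z C : ℝ), ∃ R : ℝ, ∀ v, R ≤ ‖v‖ → C * ‖v‖ ≤ l (z, v)

lemma mom_smul (l : ℝ × V → ℝ) (z : ℝ) (v u : V) (s : ℝ) :
    mom l z v (s • u) = s * mom l z v u := by
  unfold mom
  have : ((0 : ℝ), s • u) = s • ((0 : ℝ), u) := by simp
  rw [this, map_smul, smul_eq_mul]

lemma en_smul (l : ℝ × V → ℝ) (z : ℝ) (u : V) (s : ℝ) :
    en l z (s • u) = s * mom l z (s • u) u - l (z, s • u) := by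
  unfold en
  rw [mom_smul]

lemma en_zero (l : ℝ × V → ℝ) (z : ℝ) : en l z 0 = -l (z, 0) := by
  unfold en mom
  have : ((0 : ℝ), (0 : V)) = 0 := rfl
  rw [this, map_zero, zero_sub]

namespace Red

variable {l : ℝ × V → ℝ} (H : Red l)
include H

lemma hasFDerivAt (p : ℝ × V) : HasFDerivAt l (fderiv ℝ l p) p :=
  (H.smooth.differentiable (by norm_num) p).hasFDerivAt

lemma contDiff_fderiv : ContDiff ℝ 1 (fderiv ℝ l) :=
  H.smooth.fderiv_right (by norm_num)

lemma hasDerivAt_line (z : ℝ) (v u : V) (s : ℝ) :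
    HasDerivAt (fun s : ℝ => l (z, v + s • u)) (mom l z (v + s • u) u) s := by
  have hc : HasDerivAt (fun s : ℝ => (z, v + s • u)) (0, u) s := by
    refine (hasDerivAt_const s z).prodMk ?_
    have := ((hasDerivAt_id s).smul_const u).const_add v
    simpa using this
  exact (H.hasFDerivAt (z, v + s • u)).comp_hasDerivAt s hc

lemma hasDerivAt_line2 (z : ℝ) (v u : V) (s : ℝ) :
    HasDerivAt (fun s : ℝ => mom l z (v + s • u) u)
      (fderiv ℝ (fderiv ℝ l) (z, v + s • u) (0, u) (0, u)) s := by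
  have hc : HasDerivAt (fun s : ℝ => (z, v + s • u)) (0, u) s := by
    refine (hasDerivAt_const s z).prodMk ?_
    have := ((hasDerivAt_id s).smul_const u).const_add v
    simpa using this
  have h2 : HasFDerivAt (fderiv ℝ l) (fderiv ℝ (fderiv ℝ l) (z, v + s • u)) (z, v + s • u) :=
    (H.contDiff_fderiv.differentiable (by norm_num) _).hasFDerivAt
  have h3 := h2.comp_hasDerivAt s hc
  exact h3.clm_apply (hasDerivAt_const s ((0 : ℝ), u)) |>.congr_deriv (by simp)

lemma hasDerivAt_ray (z : ℝ) (u : V) (s : ℝ) :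
    HasDerivAt (fun s : ℝ => l (z, s • u)) (mom l z (s • u) u) s := by
  have := H.hasDerivAt_line z 0 u s
  simpa using this

lemma hasDerivAt_ray2 (z : ℝ) (u : V) (s : ℝ) :
    HasDerivAt (fun s : ℝ => mom l z (s • u) u)
      (fderiv ℝ (fderiv ℝ l) (z, s • u) (0, u) (0, u)) s := by
  have := H.hasDerivAt_line2 z 0 u s
  simpa using this

lemma convexOn (z : ℝ) : ConvexOn ℝ univ (fun v => l (z, v)) := by
  refine ⟨convex_univ, ?_⟩
  intro x _ y _ s t hs ht hst
  by_cases hxy : y - x = 0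
  · have : y = x := sub_eq_zero.mp hxy
    subst this
    have e : s • y + t • y = y := by rw [← add_smul, hst, one_smul]
    simp only [e, smul_eq_mul]
    rw [← add_mul, hst, one_mul]
  have h := fun a b => od_tangent (g := fun r : ℝ => l (z, x + r • (y - x)))
    (fun r => H.hasDerivAt_line z x (y - x) r) (fun r => H.hasDerivAt_line2 z x (y - x) r)
    (fun _ => H.convex _ _ hxy) a b
  have h0 := h t 0
  have h1 := h t 1
  have e : s • x + t • y = x + t • (y - x) := by
    rw [smul_sub]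
    have : s = 1 - t := by linarith
    rw [this, sub_smul, one_smul]
    abel
  simp only [zero_smul, add_zero, one_smul, add_sub_cancel] at h0 h1
  simp only [smul_eq_mul]
  rw [e]
  have hs' : s = 1 - t := by linarith
  subst hs'
  nlinarith

lemma en_strictMonoOn (z : ℝ) {u : V} (hu : u ≠ 0) :
    StrictMonoOn (fun s : ℝ => en l z (s • u)) (Ici 0) := by
  have := od_strictMonoOn (g := fun s : ℝ => l (z, s • u)) (fun s => H.hasDerivAt_ray z u s)
    (fun s => H.hasDerivAt_ray2 z u s) (fun _ => H.convex _ _ hu)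
  intro x hx y hy hxy
  have h := this hx hy hxy
  simp only [en_smul]
  exact h

lemma mom_strictMono (z : ℝ) {u : V} (hu : u ≠ 0) :
    StrictMono (fun s : ℝ => mom l z (s • u) u) :=
  od_strictMono (fun s => H.hasDerivAt_ray2 z u s) (fun _ => H.convex _ _ hu)

lemma tangent (z : ℝ) {u : V} (hu : u ≠ 0) (s t : ℝ) :
    l (z, s • u) + mom l z (s • u) u * (t - s) ≤ l (z, t • u) :=
  od_tangent (g := fun s : ℝ => l (z, s • u)) (fun s => H.hasDerivAt_ray z u s)
    (fun s => H.hasDerivAt_ray2 z u s) (fun _ => H.convex _ _ hu) s t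

lemma en_ge (z : ℝ) {u : V} (hu : u ≠ 0) (s : ℝ) : -l (z, 0) ≤ en l z (s • u) := by
  have := H.tangent z hu s 0
  rw [zero_smul] at this
  rw [en_smul]
  linarith

lemma en_unbounded (z : ℝ) {u : V} (hu : u ≠ 0) (k : ℝ) :
    ∃ s : ℝ, 0 < s ∧ k < en l z (s • u) := by
  have hn : 0 < ‖u‖ := norm_pos_iff.mpr hu
  obtain ⟨s, hs, hs'⟩ := od_unbounded (g := fun s : ℝ => l (z, s • u))
    (fun s => H.hasDerivAt_ray z u s)
    (fun s => H.hasDerivAt_ray2 z u s) (fun _ => H.convex _ _ hu) (by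
      intro C
      obtain ⟨R, hR⟩ := H.superlin z (C / ‖u‖)
      refine ⟨max (R / ‖u‖) 0, fun s hs => ?_⟩
      have hs1 : R / ‖u‖ ≤ s := (le_max_left _ _).trans hs
      have hs2 : 0 ≤ s := (le_max_right _ _).trans hs
      have e : ‖s • u‖ = s * ‖u‖ := by rw [norm_smul, Real.norm_of_nonneg hs2]
      have h := hR (s • u) (by rw [e]; exact (div_le_iff₀ hn).mp hs1)
      rw [e] at h
      have e2 : C / ‖u‖ * (s * ‖u‖) = C * s := by field_simp
      rw [e2] at h
      exact h) k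
  exact ⟨s, hs, by rw [en_smul]; exact hs'⟩

lemma continuous_mom (u : V) : Continuous (fun p : ℝ × ℝ => mom l p.1 (p.2 • u) u) := by
  unfold mom
  have h1 : Continuous (fun p : ℝ × ℝ => fderiv ℝ l (p.1, p.2 • u)) :=
    H.contDiff_fderiv.continuous.comp (by fun_prop)
  exact h1.clm_apply continuous_const

lemma continuous_en (u : V) : Continuous (fun p : ℝ × ℝ => en l p.1 (p.2 • u)) := by
  simp only [en_smul]
  have h2 : Continuous (fun p : ℝ × ℝ => l (p.1, p.2 • u)) :=
    H.smooth.continuous.comp (by fun_prop)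
  exact (continuous_snd.mul (H.continuous_mom u)).sub h2

/-- Existence of the positive multiple of `u` on the energy level. -/
lemma exists_lam (z : ℝ) {u : V} (hu : u ≠ 0) {k : ℝ} (hk : -l (z, 0) ≤ k) :
    ∃ s : ℝ, 0 ≤ s ∧ en l z (s • u) = k := by
  obtain ⟨b, hb, hb'⟩ := H.en_unbounded z hu k
  have hcont : Continuous (fun s : ℝ => en l z (s • u)) :=
    (H.continuous_en u).comp (by fun_prop : Continuous (fun s : ℝ => (z, s)))
  have h0 : en l z ((0 : ℝ) • u) ≤ k := by rw [zero_smul, en_zero]; exact hk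
  obtain ⟨s, hs, hs'⟩ := intermediate_value_Icc hb.le hcont.continuousOn ⟨h0, hb'.le⟩
  exact ⟨s, hs.1, hs'⟩

end Red

open Classical in
/-- The nonnegative `s` with `en l z (s • u) = k`, if it exists. -/
noncomputable def lam (l : ℝ × V → ℝ) (k z : ℝ) (u : V) : ℝ :=
  if h : ∃ s : ℝ, 0 ≤ s ∧ en l z (s • u) = k then h.choose else 0

/-- The support function `σ (z, u)`. -/
noncomputable def sg (l : ℝ × V → ℝ) (k z : ℝ) (u : V) : ℝ := mom l z (lam l k z u • u) u

namespace Red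

variable {l : ℝ × V → ℝ} (H : Red l)
include H

lemma lam_spec (z : ℝ) {u : V} (hu : u ≠ 0) {k : ℝ} (hk : -l (z, 0) ≤ k) :
    0 ≤ lam l k z u ∧ en l z (lam l k z u • u) = k := by
  have h := H.exists_lam z hu hk
  unfold lam
  rw [dif_pos h]
  exact h.choose_spec

lemma lam_unique (z : ℝ) {u : V} (hu : u ≠ 0) {k s : ℝ} (hs : 0 ≤ s)
    (hs' : en l z (s • u) = k) : s = lam l k z u := by
  have hk : -l (z, 0) ≤ k := by rw [← hs']; exact H.en_ge z hu s
  have h := H.lam_spec z hu hk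
  exact (H.en_strictMonoOn z hu).injOn hs h.1 (hs'.trans h.2.symm)

lemma lam_pos (z : ℝ) {u : V} (hu : u ≠ 0) {k : ℝ} (hk : -l (z, 0) < k) :
    0 < lam l k z u := by
  have h := H.lam_spec z hu hk.le
  rcases h.1.eq_or_lt with h0 | h0
  · exfalso
    have := h.2
    rw [← h0, zero_smul, en_zero] at this
    linarith
  · exact h0

lemma continuousOn_lam {u : V} (hu : u ≠ 0) (k : ℝ) :
    ContinuousOn (fun z => lam l k z u) {z | -l (z, 0) ≤ k} := by
  intro z0 hz0
  have hz0' : -l (z0, 0) ≤ k := hz0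
  have h0 := H.lam_spec z0 hu hz0'
  have hmem : ∀ᶠ z in 𝓝[{z | -l (z, 0) ≤ k}] z0, -l (z, 0) ≤ k :=
    eventually_mem_nhdsWithin
  have hcz : ∀ b : ℝ, Continuous (fun z : ℝ => en l z (b • u)) := fun b =>
    (H.continuous_en u).comp (by fun_prop : Continuous (fun z : ℝ => (z, b)))
  refine tendsto_order.2 ⟨fun b hb => ?_, fun b hb => ?_⟩
  · rcases lt_or_ge b 0 with hb0 | hb0
    · filter_upwards [hmem] with z hz
      exact hb0.trans_le (H.lam_spec z hu hz).1
    · have h1 : en l z0 (b • u) < k := by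
        rw [← h0.2]
        exact H.en_strictMonoOn z0 hu hb0 h0.1 hb
      have h2 : ∀ᶠ z in 𝓝[{z | -l (z, 0) ≤ k}] z0, en l z (b • u) < k :=
        ((hcz b).continuousAt.eventually_lt continuousAt_const h1).filter_mono nhdsWithin_le_nhds
      filter_upwards [hmem, h2] with z hz hz2
      have h3 := H.lam_spec z hu hz
      rw [← h3.2] at hz2
      exact ((H.en_strictMonoOn z hu).lt_iff_lt hb0 h3.1).mp hz2
  · have hb0 : 0 ≤ b := h0.1.trans hb.le
    have h1 : k < en l z0 (b • u) := by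
      have := H.en_strictMonoOn z0 hu h0.1 hb0 hb
      simp only [h0.2] at this
      exact this
    have h2 : ∀ᶠ z in 𝓝[{z | -l (z, 0) ≤ k}] z0, k < en l z (b • u) :=
      (continuousAt_const.eventually_lt (hcz b).continuousAt h1).filter_mono nhdsWithin_le_nhds
    filter_upwards [hmem, h2] with z hz hz2
    have h3 := H.lam_spec z hu hz
    rw [← h3.2] at hz2
    exact ((H.en_strictMonoOn z hu).lt_iff_lt h3.1 hb0).mp hz2

lemma continuousOn_sg {u : V} (hu : u ≠ 0) (k : ℝ) :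
    ContinuousOn (fun z => sg l k z u) {z | -l (z, 0) ≤ k} := by
  have h1 : ContinuousOn (fun z => (z, lam l k z u)) {z | -l (z, 0) ≤ k} :=
    continuousOn_id.prodMk (H.continuousOn_lam hu k)
  exact (H.continuous_mom u).comp_continuousOn h1

/-- A local extremum of the momentum on the energy level in the plane `ℝ × ℝ u` is a critical
point of `ℓ` in the `z`-direction. -/
lemma lagrange {u : V} (hu : u ≠ 0) {k : ℝ} {p : ℝ × ℝ} (hp : en l p.1 (p.2 • u) = k)
    (hext : IsLocalExtrOn (fun q : ℝ × ℝ => mom l q.1 (q.2 • u) u)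
      {q : ℝ × ℝ | en l q.1 (q.2 • u) = k} p) :
    fderiv ℝ l (p.1, p.2 • u) (1, 0) = 0 := by
  set i : ℝ × ℝ →L[ℝ] ℝ × V := (ContinuousLinearMap.fst ℝ ℝ ℝ).prod
    ((ContinuousLinearMap.snd ℝ ℝ ℝ).smulRight u) with hi
  have hi_apply : ∀ q : ℝ × ℝ, i q = (q.1, q.2 • u) := fun q => by simp [hi]
  set G := fderiv ℝ l with hG
  have hG2 : HasStrictFDerivAt G (fderiv ℝ G (i p)) (i p) :=
    (H.contDiff_fderiv.contDiffAt (x := i p)).hasStrictFDerivAt (by norm_num)
  have hG3 : HasStrictFDerivAt (fun q : ℝ × ℝ => G (i q)) ((fderiv ℝ G (i p)).comp i) p :=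
    hG2.comp p i.hasStrictFDerivAt
  set j' : ℝ × ℝ →L[ℝ] ℝ :=
    (ContinuousLinearMap.apply ℝ ℝ ((0 : ℝ), u)).comp ((fderiv ℝ G (i p)).comp i) with hj'
  have hj : HasStrictFDerivAt (fun q : ℝ × ℝ => mom l q.1 (q.2 • u) u) j' p := by
    have h := (ContinuousLinearMap.apply ℝ ℝ ((0 : ℝ), u)).hasStrictFDerivAt.comp p hG3
    have e : (fun q : ℝ × ℝ => mom l q.1 (q.2 • u) u) =
        (⇑(ContinuousLinearMap.apply ℝ ℝ ((0 : ℝ), u)) ∘ fun q : ℝ × ℝ => G (i q)) := by
      funext q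
      simp [mom, hi_apply, hG]
    rw [e]
    exact h
  have hl : HasStrictFDerivAt (fun q : ℝ × ℝ => l (q.1, q.2 • u)) ((G (i p)).comp i) p := by
    have h1 : HasStrictFDerivAt l (G (i p)) (i p) :=
      (H.smooth.contDiffAt (x := i p)).hasStrictFDerivAt (by norm_num)
    have h := h1.comp p i.hasStrictFDerivAt
    have e : (fun q : ℝ × ℝ => l (q.1, q.2 • u)) = l ∘ i := by
      funext q
      simp [hi_apply]
    rw [e]
    exact h
  have hs : HasStrictFDerivAt (fun q : ℝ × ℝ => q.2) (ContinuousLinearMap.snd ℝ ℝ ℝ) p :=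
    (ContinuousLinearMap.snd ℝ ℝ ℝ).hasStrictFDerivAt
  set e' : ℝ × ℝ →L[ℝ] ℝ := (p.2 • j' + (mom l p.1 (p.2 • u) u) • ContinuousLinearMap.snd ℝ ℝ ℝ)
    - (G (i p)).comp i with he'
  have he : HasStrictFDerivAt (fun q : ℝ × ℝ => en l q.1 (q.2 • u)) e' p := by
    have h := (hs.mul hj).sub hl
    have e : (fun q : ℝ × ℝ => en l q.1 (q.2 • u)) =
        (fun q : ℝ × ℝ => q.2 * mom l q.1 (q.2 • u) u - l (q.1, q.2 • u)) := by
      funext q
      exact en_smul l q.1 u q.2
    rw [e]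
    exact h
  have hset : {q : ℝ × ℝ | en l q.1 (q.2 • u) = k} =
      {q : ℝ × ℝ | en l q.1 (q.2 • u) = en l p.1 (p.2 • u)} := by rw [hp]
  rw [hset] at hext
  obtain ⟨a, b, hab, h⟩ := hext.exists_multipliers_of_hasStrictFDerivAt_1d
    (f := fun q : ℝ × ℝ => en l q.1 (q.2 • u)) he hj
  have h01 := congrArg (fun T : ℝ × ℝ →L[ℝ] ℝ => T (0, 1)) h
  have h10 := congrArg (fun T : ℝ × ℝ →L[ℝ] ℝ => T (1, 0)) h
  have hpos : 0 < j' (0, 1) := by
    have e : j' (0, 1) = fderiv ℝ (fderiv ℝ l) (i p) (0, u) (0, u) := by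
      simp [hj', hi, hG]
    rw [e]
    exact H.convex _ _ hu
  have hm : mom l p.1 (p.2 • u) u = G (i p) (0, u) := by
    simp [mom, hi_apply, hG]
  have e01 : e' (0, 1) = p.2 * j' (0, 1) := by
    simp [he', hm, hi_apply]
  have e10 : e' (1, 0) = p.2 * j' (1, 0) - G (i p) (1, 0) := by
    simp [he', hi_apply]
  simp only [add_apply, smul_apply, smul_eq_mul, zero_apply] at h01 h10
  rw [e01] at h01
  rw [e10] at h10
  have hb : a * p.2 + b = 0 := by
    have : (a * p.2 + b) * j' (0, 1) = 0 := by linarith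
    rcases mul_eq_zero.mp this with h | h
    · exact h
    · exact absurd h hpos.ne'
  have ha : a ≠ 0 := by
    intro ha
    apply hab
    rw [ha, zero_mul, zero_add] at hb
    rw [ha, hb]
    rfl
  have hfin : a * G (i p) (1, 0) = 0 := by
    have hb' : b = -(a * p.2) := by linarith
    rw [hb'] at h10
    linarith
  have := (mul_eq_zero.mp hfin).resolve_left ha
  rw [hi_apply] at this
  exact this

end Red

end Run7.h907
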