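import Pool.Agent.Run7.h907.ManifoldFlow
import Pool.Agent.Run7.h907.Reduced

/-!
# Relative equilibria of a symmetric Tonelli Lagrangian on a manifold
-/

open Set Filter Topology
open scoped Manifold ContDiff

set_option linter.unusedSectionVars false

namespace Run7.h907.Mfd

variable {E : Type*} [NormedAddCommGroup E] [NormedSpace ℝ E]
variable {M : Type*} [TopologicalSpace M] [ChartedSpace E M] [IsManifold 𝓘(ℝ, E) ∞ M]

/-- The profile `s ↦ L (x, s X(x))`. -/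
noncomputable def prof (L : TangentBundle 𝓘(ℝ, E) M → ℝ) (Φ : ℝ → M → M) (x : M) (s : ℝ) : ℝ :=
  L (pt x (s • vf Φ x))

/-- The energy along the profile. -/
noncomputable def pen (L : TangentBundle 𝓘(ℝ, E) M → ℝ) (Φ : ℝ → M → M) (x : M) (s : ℝ) : ℝ :=
  s * deriv (prof L Φ x) s - prof L Φ x s

/-- A smooth one-parameter group of symmetries of `L`. -/
structure Sym (L : TangentBundle 𝓘(ℝ, E) M → ℝ) (Φ : ℝ → M → M) : Prop where
  smooth : ContMDiff (𝓘(ℝ, ℝ).prod 𝓘(ℝ, E)) 𝓘(ℝ, E) ∞ (fun p : ℝ × M => Φ p.1 p.2)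
  zero : ∀ x, Φ 0 x = x
  add : ∀ s t x, Φ (s + t) x = Φ s (Φ t x)
  inv : ∀ (s : ℝ) (p : TangentBundle 𝓘(ℝ, E) M),
    L (tangentMap 𝓘(ℝ, E) 𝓘(ℝ, E) (Φ s) p) = L p

section Prof

variable {L : TangentBundle 𝓘(ℝ, E) M → ℝ} {Φ : ℝ → M → M}

lemma contDiff_line (hT : IsTonelli L) (x : M) (v u : E) :
    ContDiff ℝ 2 (fun s : ℝ => L (pt x (v + s • u))) :=
  (contDiff_fibre hT.smooth x).comp (by fun_prop : ContDiff ℝ 2 (fun s : ℝ => v + s • u))

lemma contDiff_prof (hT : IsTonelli L) (Φ : ℝ → M → M) (x : M) :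
    ContDiff ℝ 2 (prof L Φ x) :=
  (contDiff_fibre hT.smooth x).comp (by fun_prop : ContDiff ℝ 2 (fun s : ℝ => s • vf Φ x))

lemma hasDerivAt_prof (hT : IsTonelli L) (Φ : ℝ → M → M) (x : M) (s : ℝ) :
    HasDerivAt (prof L Φ x) (deriv (prof L Φ x) s) s :=
  ((contDiff_prof hT Φ x).differentiable (by norm_num) s).hasDerivAt

lemma hasDerivAt_prof2 (hT : IsTonelli L) (Φ : ℝ → M → M) (x : M) (s : ℝ) :
    HasDerivAt (deriv (prof L Φ x)) (deriv (deriv (prof L Φ x)) s) s := by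
  have h0 : ContDiff ℝ (1 + 1) (prof L Φ x) := by
    rw [one_add_one_eq_two]; exact contDiff_prof hT Φ x
  have h : ContDiff ℝ 1 (deriv (prof L Φ x)) := h0.deriv'
  exact (h.differentiable (by norm_num) s).hasDerivAt

lemma prof_pos (hT : IsTonelli L) {x : M} (hx : (vf Φ x : E) ≠ 0) (s : ℝ) :
    0 < deriv (deriv (prof L Φ x)) s := by
  have h := hT.convex x (s • vf Φ x) (vf Φ x) hx
  have e : (fun r : ℝ => L (pt x (s • vf Φ x + r • vf Φ x))) = fun r => prof L Φ x (s + r) := by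
    funext r
    simp only [prof, add_smul]
  rw [e, iteratedDeriv_succ, iteratedDeriv_one] at h
  have e2 : deriv (fun r => prof L Φ x (s + r)) = fun r => deriv (prof L Φ x) (s + r) := by
    funext r
    rw [deriv_comp_const_add]
  rw [e2, deriv_comp_const_add, add_zero] at h
  exact h

lemma prof_superlinear (hT : IsTonelli L) {x : M} (hx : (vf Φ x : E) ≠ 0) (C : ℝ) :
    ∃ R : ℝ, ∀ s, R ≤ s → C * s ≤ prof L Φ x s := by
  have hn : 0 < ‖(vf Φ x : E)‖ := norm_pos_iff.mpr hx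
  obtain ⟨R, hR⟩ := hT.superlinear x (C / ‖(vf Φ x : E)‖)
  refine ⟨max (R / ‖(vf Φ x : E)‖) 0, fun s hs => ?_⟩
  have hs1 : R / ‖(vf Φ x : E)‖ ≤ s := (le_max_left _ _).trans hs
  have hs2 : 0 ≤ s := (le_max_right _ _).trans hs
  have e : ‖s • (vf Φ x : E)‖ = s * ‖(vf Φ x : E)‖ := by rw [norm_smul, Real.norm_of_nonneg hs2]
  have h := hR (s • vf Φ x) (by rw [e]; exact (div_le_iff₀ hn).mp hs1)
  rw [e] at h
  have e2 : C / ‖(vf Φ x : E)‖ * (s * ‖(vf Φ x : E)‖) = C * s := by field_simp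
  rw [e2] at h
  exact h

lemma prof_zero (x : M) : prof L Φ x 0 = L (pt x 0) := by
  unfold prof
  rw [zero_smul]

lemma pen_zero (x : M) : pen L Φ x 0 = -L (pt x 0) := by
  unfold pen
  rw [prof_zero, zero_mul, zero_sub]

lemma prof_tangent (hT : IsTonelli L) {x : M} (hx : (vf Φ x : E) ≠ 0) (s t : ℝ) :
    prof L Φ x s + deriv (prof L Φ x) s * (t - s) ≤ prof L Φ x t :=
  od_tangent (fun s => hasDerivAt_prof hT Φ x s) (fun s => hasDerivAt_prof2 hT Φ x s)
    (fun s => prof_pos hT hx s) s t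

/-- The energy level meets the positive ray through `X(x)`. -/
lemma exists_pen (hT : IsTonelli L) {x : M} (hx : (vf Φ x : E) ≠ 0) {k : ℝ} (hk : -L (pt x 0) ≤ k) :
    ∃ s : ℝ, 0 ≤ s ∧ pen L Φ x s = k := by
  obtain ⟨b, hb, hb'⟩ := od_unbounded (fun s => hasDerivAt_prof hT Φ x s)
    (fun s => hasDerivAt_prof2 hT Φ x s) (fun s => prof_pos hT hx s)
    (prof_superlinear hT hx) k
  have hcont : Continuous (pen L Φ x) := by
    unfold pen
    have h1 : Continuous (deriv (prof L Φ x)) :=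
      continuous_iff_continuousAt.mpr fun s => (hasDerivAt_prof2 hT Φ x s).continuousAt
    have h2 : Continuous (prof L Φ x) := (contDiff_prof hT Φ x).continuous
    exact (continuous_id.mul h1).sub h2
  have h0 : pen L Φ x 0 ≤ k := by rw [pen_zero]; exact hk
  obtain ⟨s, hs, hs'⟩ := intermediate_value_Icc hb.le hcont.continuousOn ⟨h0, hb'.le⟩
  exact ⟨s, hs.1, hs'⟩

lemma energy_smul (hT : IsTonelli L) (x : M) (s : ℝ) :
    energy L x (s • vf Φ x) = pen L Φ x s := by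
  unfold energy pen
  have e : (fun r : ℝ => L (pt x (r • s • vf Φ x))) = fun r : ℝ => prof L Φ x (r * s) := by
    funext r
    simp only [prof, smul_smul]
  rw [e]
  have h1 : HasDerivAt (fun r : ℝ => r * s) s 1 := by
    simpa using (hasDerivAt_id (1 : ℝ)).mul_const s
  have h2 : HasDerivAt (prof L Φ x) (deriv (prof L Φ x) s) (1 * s) := by
    rw [one_mul]; exact hasDerivAt_prof hT Φ x s
  have h3 := h2.comp (1 : ℝ) h1
  have h4 : deriv (fun r : ℝ => prof L Φ x (r * s)) 1 = deriv (prof L Φ x) s * s := h3.deriv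
  rw [h4, mul_comm]
  rfl

/-- The energy is at least its value on the zero section. -/
lemma energy_ge (hT : IsTonelli L) (x : M) (v : E) : -L (pt x 0) ≤ energy L x v := by
  by_cases hv : v = 0
  · subst hv
    unfold energy
    simp
  set g : ℝ → ℝ := fun s => L (pt x (s • v)) with hg
  have hg2 : ContDiff ℝ 2 g :=
    (contDiff_fibre hT.smooth x).comp (by fun_prop : ContDiff ℝ 2 (fun s : ℝ => s • v))
  have h1 : ∀ s, HasDerivAt g (deriv g s) s := fun s =>
    (hg2.differentiable (by norm_num) s).hasDerivAt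
  have hg2' : ContDiff ℝ (1 + 1) g := by rw [one_add_one_eq_two]; exact hg2
  have hg1 : ContDiff ℝ 1 (deriv g) := hg2'.deriv'
  have h2 : ∀ s, HasDerivAt (deriv g) (deriv (deriv g) s) s := fun s =>
    (hg1.differentiable (by norm_num) s).hasDerivAt
  have h3 : ∀ s, 0 < deriv (deriv g) s := by
    intro s
    have h := hT.convex x (s • v) v hv
    have e : (fun r : ℝ => L (pt x (s • v + r • v))) = fun r => g (s + r) := by
      funext r
      simp only [hg, add_smul]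
    rw [e, iteratedDeriv_succ, iteratedDeriv_one] at h
    have e2 : deriv (fun r => g (s + r)) = fun r => deriv g (s + r) := by
      funext r
      rw [deriv_comp_const_add]
    rw [e2, deriv_comp_const_add, add_zero] at h
    exact h
  have h4 := od_ge h1 h2 h3 1
  have e0 : g 0 = L (pt x 0) := by simp [hg]
  have e1 : g 1 = L (pt x v) := by simp [hg]
  rw [e0, e1, one_mul] at h4
  exact h4

end Prof

section Equivariance

variable {L : TangentBundle 𝓘(ℝ, E) M → ℝ} {Φ : ℝ → M → M}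

/-- The differential of `Φ τ` at `x`, between fixed spaces. -/
noncomputable def dfl (Φ : ℝ → M → M) (τ : ℝ) (x : M) : E →L[ℝ] E :=
  mfderiv 𝓘(ℝ, E) 𝓘(ℝ, E) (Φ τ) x

lemma Sym.inv' (H : Sym L Φ) (τ : ℝ) (x : M) (v : E) :
    L (pt (Φ τ x) (dfl Φ τ x v)) = L (pt x v) := H.inv τ (pt x v)

lemma Sym.contMDiff_time (H : Sym L Φ) (x : M) :
    ContMDiff 𝓘(ℝ, ℝ) 𝓘(ℝ, E) ∞ (fun τ : ℝ => Φ τ x) :=
  H.smooth.comp (contMDiff_id.prodMk contMDiff_const)

lemma Sym.contMDiff_space (H : Sym L Φ) (τ : ℝ) :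
    ContMDiff 𝓘(ℝ, E) 𝓘(ℝ, E) ∞ (Φ τ) :=
  H.smooth.comp (contMDiff_const.prodMk contMDiff_id)

lemma Sym.comm (H : Sym L Φ) (s t : ℝ) (x : M) : Φ s (Φ t x) = Φ t (Φ s x) := by
  rw [← H.add, ← H.add, add_comm]

lemma Sym.vf_flow (H : Sym L Φ) (τ : ℝ) (x : M) :
    (dfl Φ τ x (vf Φ x) : E) = vf Φ (Φ τ x) := by
  have h1 : MDifferentiableAt 𝓘(ℝ, E) 𝓘(ℝ, E) (Φ τ) ((fun σ => Φ σ x) 0) :=
    (H.contMDiff_space τ).mdifferentiableAt (by simp)
  have h2 : MDifferentiableAt 𝓘(ℝ, ℝ) 𝓘(ℝ, E) (fun σ => Φ σ x) 0 :=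
    (H.contMDiff_time x).mdifferentiableAt (by simp)
  have h3 := (h1.hasMFDerivAt.comp (0 : ℝ) h2.hasMFDerivAt).mfderiv
  have e : (Φ τ ∘ fun σ => Φ σ x) = fun σ => Φ σ (Φ τ x) := by
    funext σ
    exact H.comm τ σ x
  rw [e] at h3
  have h4 : (vf Φ (Φ τ x) : E) = dfl Φ τ (Φ 0 x) (vf Φ x) := by
    unfold vf
    rw [h3]
    rfl
  rw [h4, H.zero]

lemma Sym.prof_flow (H : Sym L Φ) (τ : ℝ) (x : M) : prof L Φ (Φ τ x) = prof L Φ x := by
  funext s
  unfold prof
  rw [← H.vf_flow, ← map_smul, H.inv']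

lemma Sym.pen_flow (H : Sym L Φ) (τ : ℝ) (x : M) : pen L Φ (Φ τ x) = pen L Φ x := by
  funext s
  unfold pen
  rw [H.prof_flow]

/-- The time derivative of the flow, between fixed spaces. -/
noncomputable def timeD (Φ : ℝ → M → M) (y : M) (r : ℝ) : ℝ →L[ℝ] E :=
  mfderiv 𝓘(ℝ, ℝ) 𝓘(ℝ, E) (fun σ => Φ σ y) r

/-- Velocity of the orbit `t ↦ Φ (s t) x`. -/
lemma Sym.velocity_orbit (H : Sym L Φ) (s : ℝ) (x : M) (t : ℝ) :
    (velocity (fun t => Φ (s * t) x) t : E) = s • vf Φ (Φ (s * t) x) := by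
  set y := Φ (s * t) x with hy
  have e : (fun t => Φ (s * t) x) = (fun τ => Φ τ y) ∘ (fun t' => s * (t' - t)) := by
    funext t'
    simp only [Function.comp_apply, hy]
    rw [← H.add]
    congr 1
    ring
  have h1 : HasFDerivAt (fun t' : ℝ => s * (t' - t))
      (ContinuousLinearMap.toSpanSingleton ℝ s) t := by
    have h : HasDerivAt (fun t' : ℝ => s * (t' - t)) s t := by
      simpa using ((hasDerivAt_id t).sub_const t).const_mul s
    exact h.hasFDerivAt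
  have h2 : MDifferentiableAt 𝓘(ℝ, ℝ) 𝓘(ℝ, E) (fun σ => Φ σ y) ((fun t' => s * (t' - t)) t) :=
    (H.contMDiff_time y).mdifferentiableAt (by simp)
  have h3 := (h2.hasMFDerivAt.comp t h1.hasMFDerivAt).mfderiv
  rw [← e] at h3
  have h4 : (velocity (fun t => Φ (s * t) x) t : E) =
      timeD Φ y (s * (t - t)) (ContinuousLinearMap.toSpanSingleton ℝ s (1 : ℝ)) :=
    congrArg (fun T : ℝ →L[ℝ] E => T (1 : ℝ)) h3
  rw [h4, sub_self, mul_zero, ContinuousLinearMap.toSpanSingleton_apply, one_smul]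
  have h5 : (vf Φ y : E) = timeD Φ y 0 1 := rfl
  have h6 : s = s • (1 : ℝ) := by simp
  rw [h5, ← map_smul]
  congr 1

end Equivariance

end Run7.h907.Mfd
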