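import Pool.Agent.Run7.h907.Reduced

/-!
# Critical points on every level of an equivariant reduced Lagrangian
-/

open Set Filter Topology

namespace Run7.h907

variable {V : Type*} [NormedAddCommGroup V] [NormedSpace ℝ V]

lemma sg_zero (l : ℝ × V → ℝ) (k z : ℝ) : sg l k z 0 = 0 := by
  unfold sg mom
  have : ((0 : ℝ), (0 : V)) = 0 := rfl
  rw [this, map_zero]

namespace Red

variable {l : ℝ × V → ℝ} (H : Red l)
include H

lemma sg_eq (z : ℝ) {u : V} (hu : u ≠ 0) {k : ℝ} (hk : -l (z, 0) < k) :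
    sg l k z u = (l (z, lam l k z u • u) + k) / lam l k z u := by
  have h := (H.lam_spec z hu hk.le).2
  have hp := H.lam_pos z hu hk
  rw [en_smul] at h
  rw [eq_div_iff hp.ne']
  unfold sg
  linarith

lemma sg_le (z : ℝ) (u : V) {k : ℝ} (hk : -l (z, 0) < k) {s : ℝ} (hs : 0 < s) :
    sg l k z u ≤ (l (z, s • u) + k) / s := by
  by_cases hu : u = 0
  · subst hu
    rw [sg_zero, smul_zero]
    exact div_nonneg (by linarith) hs.le
  · have h := (H.lam_spec z hu hk.le).2
    have ht := H.tangent z hu (lam l k z u) s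
    rw [en_smul] at h
    rw [le_div_iff₀ hs]
    unfold sg
    linarith

lemma sg_add_aux (z : ℝ) {u v : V} (hu : u ≠ 0) (hv : v ≠ 0) {k : ℝ} (hk : -l (z, 0) < k) :
    ∃ r : ℝ, 0 < r ∧ (l (z, r • (u + v)) + k) / r ≤ sg l k z u + sg l k z v := by
  set s := lam l k z u with hs
  set t := lam l k z v with ht
  have hs0 : 0 < s := H.lam_pos z hu hk
  have ht0 : 0 < t := H.lam_pos z hv hk
  have hst : 0 < s + t := by linarith
  refine ⟨s * t / (s + t), by positivity, ?_⟩
  rw [H.sg_eq z hu hk, H.sg_eq z hv hk, ← hs, ← ht]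
  have hconv := (H.convexOn z).2 (mem_univ (s • u)) (mem_univ (t • v))
    (show 0 ≤ t / (s + t) by positivity) (show 0 ≤ s / (s + t) by positivity)
    (by field_simp; ring)
  have e : (t / (s + t)) • s • u + (s / (s + t)) • t • v = (s * t / (s + t)) • (u + v) := by
    rw [smul_add, smul_smul, smul_smul]
    congr 2 <;> ring
  rw [e] at hconv
  simp only [smul_eq_mul] at hconv
  have h1 : (l (z, (s * t / (s + t)) • (u + v)) + k) / (s * t / (s + t)) =
      (l (z, (s * t / (s + t)) • (u + v)) + k) * ((s + t) / (s * t)) := by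
    field_simp
  rw [h1]
  have h2 : (l (z, s • u) + k) / s + (l (z, t • v) + k) / t =
      (t / (s + t) * l (z, s • u) + s / (s + t) * l (z, t • v) + k) * ((s + t) / (s * t)) := by
    field_simp
    ring
  rw [h2]
  exact mul_le_mul_of_nonneg_right (by linarith) (by positivity)

lemma subFam {a : V ≃L[ℝ] V} (hshift : ∀ z v, l (z + 1, a v) = l (z, v)) {k : ℝ}
    (hk : ∀ z, -l (z, 0) < k) : SubFam a (sg l k) := by
  constructor
  · intro z u v
    by_cases hu : u = 0
    · subst hu
      rw [zero_add, sg_zero, zero_add]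
    by_cases hv : v = 0
    · subst hv
      rw [add_zero, sg_zero, add_zero]
    obtain ⟨r, hr, h⟩ := H.sg_add_aux z hu hv (hk z)
    exact (H.sg_le z (u + v) (hk z) hr).trans h
  · intro z r u hr
    by_cases hu : u = 0
    · subst hu
      rw [smul_zero, sg_zero, mul_zero]
    have hru : r • u ≠ 0 := smul_ne_zero hr.ne' hu
    have h := H.lam_spec z hu (hk z).le
    have e : (lam l k z u / r) • (r • u) = lam l k z u • u := by
      rw [smul_smul, div_mul_cancel₀ _ hr.ne']
    have h2 : lam l k z u / r = lam l k z (r • u) :=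
      H.lam_unique z hru (div_nonneg h.1 hr.le) (by rw [e]; exact h.2)
    unfold sg
    rw [← h2, e, mom_smul]
  · intro z u
    by_cases hu : u = 0
    · subst hu
      rw [map_zero, sg_zero, sg_zero]
    have hau : a u ≠ 0 := by
      intro h
      exact hu (a.injective (by rw [h, map_zero]))
    have hl : ∀ s : ℝ, l (z + 1, s • a u) = l (z, s • u) := by
      intro s
      rw [← map_smul, hshift]
    apply le_antisymm
    · have h := H.sg_le (z + 1) (a u) (hk (z + 1)) (H.lam_pos z hu (hk z))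
      rw [hl, ← H.sg_eq z hu (hk z)] at h
      exact h
    · have h := H.sg_le z u (hk z) (H.lam_pos (z + 1) hau (hk (z + 1)))
      rw [← hl, ← H.sg_eq (z + 1) hau (hk (z + 1))] at h
      exact h
  · intro z u hu
    obtain ⟨r, hr, h⟩ := H.sg_add_aux z hu (neg_ne_zero.mpr hu) (hk z)
    rw [add_neg_cancel, smul_zero] at h
    have : 0 < (l (z, 0) + k) / r := div_pos (by have := hk z; linarith) hr
    linarith

/-- The main theorem on reduced Lagrangians. -/
theorem exists_critical [FiniteDimensional ℝ V] {a : V ≃L[ℝ] V}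
    (hshift : ∀ z v, l (z + 1, a v) = l (z, v))
    {Λ : AddSubgroup V} (hL : Lat a Λ) (hne : ∃ w ∈ Λ, w ≠ 0) {k z1 : ℝ}
    (hz1 : -l (z1, 0) ≤ k) :
    ∃ (z s : ℝ) (w : V), w ∈ Λ ∧ w ≠ 0 ∧ en l z (s • w) = k ∧
      fderiv ℝ l (z, s • w) (1, 0) = 0 := by
  obtain ⟨w, hw, hw0⟩ := hne
  set h : ℝ → ℝ := fun z => -l (z, 0) with hh
  have hcont : Continuous h := (H.smooth.continuous.comp (by fun_prop)).neg
  have hper : Function.Periodic h 1 := by
    intro z
    simp only [hh]
    have := hshift z 0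
    rw [map_zero] at this
    rw [this]
  obtain ⟨zm, -, hzm⟩ := (isCompact_Icc (a := (0 : ℝ)) (b := 1)).exists_isMaxOn
    (nonempty_Icc.mpr zero_le_one) hcont.continuousOn
  have hmax : ∀ z, h z ≤ h zm := by
    intro z
    obtain ⟨y, hy, hy'⟩ := hper.exists_mem_Ico₀ zero_lt_one z
    rw [hy']
    exact hzm ⟨hy.1, hy.2.le⟩
  rcases lt_trichotomy (h zm) k with hlt | heq | hgt
  · -- case B
    have hk : ∀ z, -l (z, 0) < k := fun z => (hmax z).trans_lt hlt
    by_contra hcon
    push Not at hcon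
    have hS := H.subFam hshift hk
    refine no_all_strict hS hL ?_ ⟨w, hw, hw0⟩
    intro v hv hv0
    have hc : Continuous (fun z => sg l k z v) := by
      rw [← continuousOn_univ]
      exact (H.continuousOn_sg hv0 k).mono fun z _ => (hk z).le
    have hno : ∀ z0, ¬ IsLocalExtr (fun z => sg l k z v) z0 := by
      intro z0 hext
      have hpos := H.lam_pos z0 hv0 (hk z0)
      have hsp := H.lam_spec z0 hv0 (hk z0).le
      apply hcon z0 (lam l k z0 v) v hv hv0 hsp.2
      refine H.lagrange hv0 (p := (z0, lam l k z0 v)) hsp.2 ?_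
      have hev : ∀ᶠ q : ℝ × ℝ in 𝓝[{q : ℝ × ℝ | en l q.1 (q.2 • v) = k}] (z0, lam l k z0 v),
          mom l q.1 (q.2 • v) v = sg l k q.1 v := by
        have h1 : ∀ᶠ q : ℝ × ℝ in 𝓝[{q : ℝ × ℝ | en l q.1 (q.2 • v) = k}] (z0, lam l k z0 v),
            en l q.1 (q.2 • v) = k := eventually_mem_nhdsWithin
        have h2 : ∀ᶠ q : ℝ × ℝ in 𝓝[{q : ℝ × ℝ | en l q.1 (q.2 • v) = k}] (z0, lam l k z0 v),
            0 < q.2 :=
          (continuousAt_const.eventually_lt continuous_snd.continuousAt hpos).filter_mono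
            nhdsWithin_le_nhds
        filter_upwards [h1, h2] with q hq1 hq2
        have := H.lam_unique q.1 hv0 hq2.le hq1
        unfold sg
        rw [← this]
      have hfst : Tendsto (Prod.fst : ℝ × ℝ → ℝ)
          (𝓝[{q : ℝ × ℝ | en l q.1 (q.2 • v) = k}] (z0, lam l k z0 v)) (𝓝 z0) :=
        (continuous_fst.tendsto _).mono_left nhdsWithin_le_nhds
      rcases hext with hmin | hmax'
      · left
        have := hfst.eventually hmin
        filter_upwards [this, hev] with q h1 h2
        rw [h2]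
        exact h1
      · right
        have := hfst.eventually hmax'
        filter_upwards [this, hev] with q h1 h2
        rw [h2]
        exact h1
    have hinj : Function.Injective (fun z => sg l k z v) := by
      intro x y hxy
      by_contra hne
      rcases lt_or_gt_of_ne hne with hlt' | hlt'
      · obtain ⟨c, -, hc'⟩ := exists_isLocalExtr_Ioo hlt' hc.continuousOn hxy
        exact hno c hc'
      · obtain ⟨c, -, hc'⟩ := exists_isLocalExtr_Ioo hlt' hc.continuousOn hxy.symm
        exact hno c hc'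
    exact hc.strictMono_of_inj hinj
  · -- singularity at the maximum of `h`
    refine ⟨zm, 0, w, hw, hw0, ?_, ?_⟩
    · rw [zero_smul, en_zero]
      exact heq
    · rw [zero_smul]
      have hloc : IsLocalMax h zm := Eventually.of_forall hmax
      have h0 := hloc.hasDerivAt_eq_zero (f' := -(fderiv ℝ l (zm, 0) (1, 0))) (by
        have hc : HasDerivAt (fun z : ℝ => (z, (0 : V))) (1, 0) zm :=
          (hasDerivAt_id zm).prodMk (hasDerivAt_const zm (0 : V))
        exact ((H.hasFDerivAt (zm, 0)).comp_hasDerivAt zm hc).neg)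
      linarith
  · -- case A
    set D : Set ℝ := Icc zm (zm + 1) ∩ {z | h z ≤ k} with hD
    have hDc : IsCompact D := isCompact_Icc.inter_right (isClosed_le hcont continuous_const)
    have hDne : D.Nonempty := by
      obtain ⟨y, hy, hy'⟩ := hper.exists_mem_Ico zero_lt_one z1 zm
      refine ⟨y, ⟨hy.1, hy.2.le⟩, ?_⟩
      show h y ≤ k
      rw [← hy']
      exact hz1
    obtain ⟨zs, hzs, hzmax⟩ := hDc.exists_isMaxOn hDne
      ((H.continuousOn_sg hw0 k).mono inter_subset_right)
    have hzsk : -l (zs, 0) ≤ k := hzs.2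
    have hIoo : zs ∈ Ioo zm (zm + 1) := by
      constructor
      · refine lt_of_le_of_ne hzs.1.1 ?_
        intro he
        rw [he] at hgt
        exact absurd hzsk (not_le.mpr hgt)
      · refine lt_of_le_of_ne hzs.1.2 ?_
        intro he
        have h2 : h zs = h zm := by rw [he]; exact hper zm
        rw [← h2] at hgt
        exact absurd hzsk (not_le.mpr hgt)
    have hsp := H.lam_spec zs hw0 hzsk
    refine ⟨zs, lam l k zs w, w, hw, hw0, hsp.2, ?_⟩
    refine H.lagrange hw0 (p := (zs, lam l k zs w)) hsp.2 (Or.inr ?_)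
    have h1 : ∀ᶠ q : ℝ × ℝ in 𝓝[{q : ℝ × ℝ | en l q.1 (q.2 • w) = k}] (zs, lam l k zs w),
        en l q.1 (q.2 • w) = k := eventually_mem_nhdsWithin
    have h2 : ∀ᶠ q : ℝ × ℝ in 𝓝[{q : ℝ × ℝ | en l q.1 (q.2 • w) = k}] (zs, lam l k zs w),
        q.1 ∈ Ioo zm (zm + 1) := by
      have hfst : Tendsto (Prod.fst : ℝ × ℝ → ℝ)
          (𝓝[{q : ℝ × ℝ | en l q.1 (q.2 • w) = k}] (zs, lam l k zs w)) (𝓝 zs) :=
        (continuous_fst.tendsto _).mono_left nhdsWithin_le_nhds
      exact hfst.eventually (isOpen_Ioo.mem_nhds hIoo)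
    filter_upwards [h1, h2] with q hq1 hq2
    have hqk : -l (q.1, 0) ≤ k := by
      rw [← hq1]
      exact H.en_ge q.1 hw0 q.2
    have hqD : q.1 ∈ D := ⟨⟨hq2.1.le, hq2.2.le⟩, hqk⟩
    have hle : q.2 ≤ lam l k q.1 w := by
      rcases le_total 0 q.2 with h0 | h0
      · exact (H.lam_unique q.1 hw0 h0 hq1).le
      · exact h0.trans (H.lam_spec q.1 hw0 hqk).1
    have h3 : mom l q.1 (q.2 • w) w ≤ sg l k q.1 w := (H.mom_strictMono q.1 hw0).monotone hle
    have h4 : sg l k q.1 w ≤ sg l k zs w := hzmax hqD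
    exact h3.trans h4

end Red

end Run7.h907
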