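import Mathlib

/-!
# Families of sublinear functions over the line, equivariant under a lattice automorphism

The combinatorial heart of the torus bundle theorem.  `sg z` is a family of sublinear functions
on a finite-dimensional space, `a` an automorphism of a lattice with `sg (z+1) (a u) = sg z u`.
Then it is impossible that `z ↦ sg z w` is strictly monotone for every nonzero lattice vector `w`.
-/

open Set Filter Topology

namespace Run7.h907

variable {V : Type*} [NormedAddCommGroup V] [NormedSpace ℝ V]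

/-- The data of an equivariant family of sublinear functions. -/
structure SubFam (a : V ≃L[ℝ] V) (sg : ℝ → V → ℝ) : Prop where
  add : ∀ z u v, sg z (u + v) ≤ sg z u + sg z v
  smul : ∀ z (r : ℝ) u, 0 < r → sg z (r • u) = r * sg z u
  shift : ∀ z u, sg (z + 1) (a u) = sg z u
  pos : ∀ z u, u ≠ 0 → 0 < sg z u + sg z (-u)

namespace SubFam

variable {a : V ≃L[ℝ] V} {sg : ℝ → V → ℝ} (H : SubFam a sg)
include H

lemma zero (z : ℝ) : sg z 0 = 0 := by
  have h := H.smul z 2 0 (by norm_num)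
  rw [smul_zero] at h
  linarith

lemma convexOn (z : ℝ) : ConvexOn ℝ univ (sg z) := by
  refine ⟨convex_univ, ?_⟩
  intro x _ y _ s t hs ht hst
  rcases hs.eq_or_lt with hs0 | hs0
  · have ht1 : t = 1 := by linarith
    subst hs0 ht1
    simp
  rcases ht.eq_or_lt with ht0 | ht0
  · have hs1 : s = 1 := by linarith
    subst ht0 hs1
    simp
  calc sg z (s • x + t • y) ≤ sg z (s • x) + sg z (t • y) := H.add _ _ _
    _ = s • sg z x + t • sg z y := by
      rw [H.smul z s x hs0, H.smul z t y ht0]; rfl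

lemma cont [FiniteDimensional ℝ V] (z : ℝ) : Continuous (sg z) :=
  (H.convexOn z).locallyLipschitz.continuous

/-- A uniform lower bound at `z = 0`. -/
lemma lower [FiniteDimensional ℝ V] :
    ∃ c : ℝ, 0 < c ∧ ∀ u, c * ‖u‖ ≤ sg 0 u + sg 0 (-u) := by
  by_cases hne : (Metric.sphere (0 : V) 1).Nonempty
  · have hcont : Continuous (fun u => sg 0 u + sg 0 (-u)) :=
      (H.cont 0).add ((H.cont 0).comp continuous_neg)
    obtain ⟨u0, hu0, hmin⟩ := (isCompact_sphere (0 : V) 1).exists_isMinOn hne hcont.continuousOn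
    have hu0' : u0 ≠ 0 := by
      intro h
      rw [h] at hu0
      simp at hu0
    refine ⟨sg 0 u0 + sg 0 (-u0), H.pos 0 u0 hu0', ?_⟩
    intro u
    by_cases hu : u = 0
    · subst hu
      simp [H.zero]
    have hn : 0 < ‖u‖ := norm_pos_iff.mpr hu
    have hmem : (‖u‖⁻¹ • u) ∈ Metric.sphere (0 : V) 1 := by
      simp [norm_smul, hn.ne']
    have h1 := hmin hmem
    rw [Set.mem_ofPred_eq] at h1
    have e1 : sg 0 u = ‖u‖ * sg 0 (‖u‖⁻¹ • u) := by
      rw [← H.smul 0 ‖u‖ _ hn, smul_smul, mul_inv_cancel₀ hn.ne', one_smul]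
    have e2 : sg 0 (-u) = ‖u‖ * sg 0 (-(‖u‖⁻¹ • u)) := by
      rw [← H.smul 0 ‖u‖ _ hn, smul_neg, smul_smul, mul_inv_cancel₀ hn.ne', one_smul]
    rw [e1, e2, ← mul_add, mul_comm]
    exact mul_le_mul_of_nonneg_left h1 hn.le
  · refine ⟨1, one_pos, ?_⟩
    intro u
    have hu : u = 0 := by
      by_contra hu
      apply hne
      have hn : 0 < ‖u‖ := norm_pos_iff.mpr hu
      exact ⟨‖u‖⁻¹ • u, by simp [norm_smul, hn.ne']⟩
    subst hu
    simp [H.zero]

lemma shift_int (n : ℤ) (z : ℝ) (u : V) : sg (z + n) ((a ^ n : V ≃L[ℝ] V) u) = sg z u := by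
  induction n using Int.induction_on with
  | zero =>
    rw [zpow_zero]
    show sg (z + ((0 : ℤ) : ℝ)) u = sg z u
    simp
  | succ i ih =>
    have h := H.shift (z + (i : ℤ)) ((a ^ (i : ℤ) : V ≃L[ℝ] V) u)
    rw [ih] at h
    rw [← h]
    congr 1
    · push_cast; ring
    · rw [add_comm, zpow_add, zpow_one]; rfl
  | pred i ih =>
    have h := H.shift (z + ((-(i : ℤ) - 1 : ℤ) : ℝ)) ((a ^ (-(i : ℤ) - 1) : V ≃L[ℝ] V) u)
    rw [← h, ← ih]
    congr 1
    · push_cast; ring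
    · have : a ((a ^ (-(i : ℤ) - 1) : V ≃L[ℝ] V) u) = ((a * a ^ (-(i : ℤ) - 1) : V ≃L[ℝ] V)) u := rfl
      rw [this, ← zpow_one_add]
      congr 2
      ring

lemma at_int (n : ℤ) (u : V) : sg n u = sg 0 ((a ^ (-n) : V ≃L[ℝ] V) u) := by
  have h := H.shift_int n 0 ((a ^ (-n) : V ≃L[ℝ] V) u)
  rw [← h, zero_add]
  congr 1
  have : (a ^ n : V ≃L[ℝ] V) ((a ^ (-n) : V ≃L[ℝ] V) u) = ((a ^ n * a ^ (-n) : V ≃L[ℝ] V)) u := rfl
  rw [this, ← zpow_add, add_neg_cancel, zpow_zero]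
  rfl

end SubFam

/-- A lattice-like subgroup: stable under `a` and its inverse, finitely many elements in balls. -/
structure Lat (a : V ≃L[ℝ] V) (Λ : AddSubgroup V) : Prop where
  fin : ∀ C : ℝ, {w : V | w ∈ Λ ∧ ‖w‖ ≤ C}.Finite
  map : ∀ w ∈ Λ, a w ∈ Λ
  symm : ∀ w ∈ Λ, a.symm w ∈ Λ

lemma Lat.zpow {a : V ≃L[ℝ] V} {Λ : AddSubgroup V} (h : Lat a Λ) (n : ℤ) :
    ∀ w ∈ Λ, (a ^ n : V ≃L[ℝ] V) w ∈ Λ := by
  induction n using Int.induction_on with
  | zero =>
    intro w hw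
    rw [zpow_zero]
    exact hw
  | succ i ih =>
    intro w hw
    have : (a ^ ((i : ℤ) + 1) : V ≃L[ℝ] V) w = a ((a ^ (i : ℤ) : V ≃L[ℝ] V) w) := by
      rw [add_comm, zpow_add, zpow_one]; rfl
    rw [this]
    exact h.map _ (ih w hw)
  | pred i ih =>
    intro w hw
    have : (a ^ (-(i : ℤ) - 1) : V ≃L[ℝ] V) w = a.symm ((a ^ (-(i : ℤ)) : V ≃L[ℝ] V) w) := by
      have e : a ^ (-(i : ℤ) - 1) = a⁻¹ * a ^ (-(i : ℤ)) := by
        rw [← zpow_neg_one, ← zpow_add]; congr 1; ring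
      rw [e]; rfl
    rw [this]
    exact h.symm _ (ih w hw)

omit [NormedSpace ℝ V] in
/-- An injective sequence of lattice vectors leaves every ball along any infinite index set. -/
lemma exists_large {Λ : AddSubgroup V} (hfin : ∀ C : ℝ, {w : V | w ∈ Λ ∧ ‖w‖ ≤ C}.Finite)
    (x : ℕ → V) (hx : ∀ n, x n ∈ Λ) (hinj : Function.Injective x) (C : ℝ) :
    ∃ n, C < ‖x n‖ := by
  by_contra hcon
  push Not at hcon
  have h1 : Set.range x ⊆ {w : V | w ∈ Λ ∧ ‖w‖ ≤ C} := by
    rintro _ ⟨n, rfl⟩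
    exact ⟨hx n, hcon n⟩
  exact Set.infinite_range_of_injective hinj ((hfin C).subset h1)

section Main

variable {a : V ≃L[ℝ] V} {sg : ℝ → V → ℝ} {Λ : AddSubgroup V}

lemma SubFam.unbounded (H : SubFam a sg) (hL : Lat a Λ) {w : V} (hw : w ∈ Λ)
    (h : StrictMono (fun z => sg z w) ∨ StrictAnti (fun z => sg z w)) (C : ℝ) :
    (∃ n : ℕ, C < ‖(a ^ (n : ℤ) : V ≃L[ℝ] V) w‖) ∧
      (∃ n : ℕ, C < ‖(a ^ (-(n : ℤ)) : V ≃L[ℝ] V) w‖) := by
  have hinj : Function.Injective (fun n : ℤ => (a ^ (-n) : V ≃L[ℝ] V) w) := by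
    intro n1 n2 h12
    have h12' : (a ^ (-n1) : V ≃L[ℝ] V) w = (a ^ (-n2) : V ≃L[ℝ] V) w := h12
    have e : sg (n1 : ℝ) w = sg (n2 : ℝ) w := by
      rw [H.at_int, H.at_int, h12']
    have hi : Function.Injective (fun z => sg z w) := by
      rcases h with h | h
      · exact h.injective
      · exact h.injective
    have := hi e
    exact_mod_cast this
  constructor
  · obtain ⟨n, hn⟩ := exists_large hL.fin (fun n : ℕ => (a ^ (n : ℤ) : V ≃L[ℝ] V) w)
      (fun n => hL.zpow _ _ hw) (by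
        intro n1 n2 h12
        have h12' : (a ^ (n1 : ℤ) : V ≃L[ℝ] V) w = (a ^ (n2 : ℤ) : V ≃L[ℝ] V) w := h12
        have := @hinj (-(n1 : ℤ)) (-(n2 : ℤ)) (by simpa using h12')
        omega) C
    exact ⟨n, hn⟩
  · obtain ⟨n, hn⟩ := exists_large hL.fin (fun n : ℕ => (a ^ (-(n : ℤ)) : V ≃L[ℝ] V) w)
      (fun n => hL.zpow _ _ hw) (by
        intro n1 n2 h12
        have h12' : (a ^ (-(n1 : ℤ)) : V ≃L[ℝ] V) w = (a ^ (-(n2 : ℤ)) : V ≃L[ℝ] V) w := h12
        have := @hinj (n1 : ℤ) (n2 : ℤ) h12'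
        omega) C
    exact ⟨n, hn⟩

lemma SubFam.opp [FiniteDimensional ℝ V] (H : SubFam a sg) (hL : Lat a Λ)
    (hall : ∀ w ∈ Λ, w ≠ 0 → StrictMono (fun z => sg z w) ∨ StrictAnti (fun z => sg z w))
    {w : V} (hw : w ∈ Λ) (hw0 : w ≠ 0) :
    (StrictMono (fun z => sg z w) → StrictAnti (fun z => sg z (-w))) ∧
      (StrictAnti (fun z => sg z w) → StrictMono (fun z => sg z (-w))) := by
  obtain ⟨c, hc, hlow⟩ := H.lower
  have hneg := hall (-w) (Λ.neg_mem hw) (neg_ne_zero.mpr hw0)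
  have hsum : ∀ n : ℤ, c * ‖(a ^ (-n) : V ≃L[ℝ] V) w‖ ≤ sg n w + sg n (-w) := by
    intro n
    have h := hlow ((a ^ (-n) : V ≃L[ℝ] V) w)
    rw [← map_neg, ← H.at_int, ← H.at_int] at h
    exact h
  constructor
  · intro hm
    rcases hneg with h | h
    · exfalso
      obtain ⟨n, hn⟩ := (H.unbounded hL hw (hall w hw hw0) ((sg 0 w + sg 0 (-w)) / c)).1
      have h1 := hsum (-(n : ℤ))
      rw [neg_neg] at h1
      have h2 : sg ((-(n : ℤ) : ℤ) : ℝ) w ≤ sg 0 w := hm.monotone (by simp)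
      have h3 : sg ((-(n : ℤ) : ℤ) : ℝ) (-w) ≤ sg 0 (-w) := h.monotone (by simp)
      rw [div_lt_iff₀ hc] at hn
      linarith
    · exact h
  · intro hm
    rcases hneg with h | h
    · exact h
    · exfalso
      obtain ⟨n, hn⟩ := (H.unbounded hL hw (hall w hw hw0) ((sg 0 w + sg 0 (-w)) / c)).2
      have h1 := hsum (n : ℤ)
      have h2 : sg ((n : ℤ) : ℝ) w ≤ sg 0 w := hm.antitone (by simp)
      have h3 : sg ((n : ℤ) : ℝ) (-w) ≤ sg 0 (-w) := h.antitone (by simp)
      rw [div_lt_iff₀ hc] at hn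
      linarith

lemma SubFam.monotone_limit [FiniteDimensional ℝ V] (H : SubFam a sg) :
    IsClosed {u : V | Monotone (fun z => sg z u)} := by
  have : {u : V | Monotone (fun z => sg z u)} =
      ⋂ (x : ℝ) (y : ℝ) (_ : x ≤ y), {u : V | sg x u ≤ sg y u} := by
    ext u
    simp only [Set.mem_iInter, Set.mem_ofPred_eq]
    exact ⟨fun h x y hxy => h hxy, fun h x y hxy => h x y hxy⟩
  rw [this]
  exact isClosed_iInter fun x => isClosed_iInter fun y => isClosed_iInter fun _ =>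
    isClosed_le (H.cont x) (H.cont y)

lemma SubFam.antitone_limit [FiniteDimensional ℝ V] (H : SubFam a sg) :
    IsClosed {u : V | Antitone (fun z => sg z u)} := by
  have : {u : V | Antitone (fun z => sg z u)} =
      ⋂ (x : ℝ) (y : ℝ) (_ : x ≤ y), {u : V | sg y u ≤ sg x u} := by
    ext u
    simp only [Set.mem_iInter, Set.mem_ofPred_eq]
    exact ⟨fun h x y hxy => h hxy, fun h x y hxy => h x y hxy⟩
  rw [this]
  exact isClosed_iInter fun x => isClosed_iInter fun y => isClosed_iInter fun _ =>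
    isClosed_le (H.cont y) (H.cont x)

/-- Bounded forward orbits for a contraction recursion. -/
lemma bdd_of_contract (x : ℕ → V) (b : ℕ → V) (r C : ℝ) (hr : |r| < 1)
    (hb : ∀ n, ‖b n‖ ≤ C) (hx : ∀ n, x (n + 1) = r • x n + b n) :
    ∀ n, ‖x n‖ ≤ ‖x 0‖ + C / (1 - |r|) := by
  have h1 : 0 < 1 - |r| := by linarith
  have hC : 0 ≤ C := (norm_nonneg _).trans (hb 0)
  intro n
  induction n with
  | zero =>
    have : 0 ≤ C / (1 - |r|) := div_nonneg hC h1.le
    linarith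
  | succ n ih =>
    have h2 : ‖x (n + 1)‖ ≤ |r| * ‖x n‖ + C := by
      rw [hx n]
      calc ‖r • x n + b n‖ ≤ ‖r • x n‖ + ‖b n‖ := norm_add_le _ _
        _ ≤ |r| * ‖x n‖ + C := by
          rw [norm_smul, Real.norm_eq_abs]
          exact add_le_add le_rfl (hb n)
    have h3 : |r| * ‖x n‖ ≤ |r| * (‖x 0‖ + C / (1 - |r|)) :=
      mul_le_mul_of_nonneg_left ih (abs_nonneg r)
    have h4 : |r| * (‖x 0‖ + C / (1 - |r|)) + C ≤ ‖x 0‖ + C / (1 - |r|) := by
      have e : C = (1 - |r|) * (C / (1 - |r|)) := by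
        field_simp
      have h5 : |r| * ‖x 0‖ ≤ ‖x 0‖ := by
        have := mul_le_mul_of_nonneg_right hr.le (norm_nonneg (x 0))
        linarith
      nlinarith
    linarith

lemma zpow_succ_apply (a : V ≃L[ℝ] V) (n : ℕ) (v : V) :
    (a ^ ((n + 1 : ℕ) : ℤ) : V ≃L[ℝ] V) v = (a ^ (n : ℤ) : V ≃L[ℝ] V) (a v) := by
  have e : a ^ ((n + 1 : ℕ) : ℤ) = a ^ (n : ℤ) * a := by
    rw [Nat.cast_succ, zpow_add, zpow_one]
  rw [e]; rfl

lemma zpow_neg_succ_apply (a : V ≃L[ℝ] V) (n : ℕ) (v : V) :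
    (a ^ (-((n + 1 : ℕ) : ℤ)) : V ≃L[ℝ] V) (a v) = (a ^ (-(n : ℤ)) : V ≃L[ℝ] V) v := by
  have e : a ^ (-(n : ℤ)) = a ^ (-((n + 1 : ℕ) : ℤ)) * a := by
    nth_rewrite 3 [← zpow_one a]
    rw [← zpow_add]
    congr 1
    push_cast
    ring
  rw [e]; rfl

/-- If `a w = r w + u` and all `a ^ j u` are bounded then `a ^ j w` is bounded for `j ≥ 0` or for
`j ≤ 0`, provided `|r| ≠ 1`. -/
lemma bdd_alternative (a : V ≃L[ℝ] V) (w u : V) (r C : ℝ) (hr : |r| ≠ 1)
    (h : a w = r • w + u) (hC : ∀ j : ℤ, ‖(a ^ j : V ≃L[ℝ] V) u‖ ≤ C) :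
    (∃ K, ∀ n : ℕ, ‖(a ^ (n : ℤ) : V ≃L[ℝ] V) w‖ ≤ K) ∨
      (∃ K, ∀ n : ℕ, ‖(a ^ (-(n : ℤ)) : V ≃L[ℝ] V) w‖ ≤ K) := by
  rcases lt_or_gt_of_ne hr with hr1 | hr1
  · left
    refine ⟨_, bdd_of_contract (fun n : ℕ => (a ^ (n : ℤ) : V ≃L[ℝ] V) w)
      (fun n : ℕ => (a ^ (n : ℤ) : V ≃L[ℝ] V) u) r C hr1 (fun n => hC _) ?_⟩
    intro n
    show (a ^ ((n + 1 : ℕ) : ℤ) : V ≃L[ℝ] V) w = _
    rw [zpow_succ_apply, h, map_add, map_smul]
  · right
    have hr0 : r ≠ 0 := by
      intro h0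
      rw [h0, abs_zero] at hr1
      linarith
    have hr2 : |r⁻¹| < 1 := by
      rw [abs_inv]
      exact inv_lt_one_of_one_lt₀ hr1
    refine ⟨_, bdd_of_contract (fun n : ℕ => (a ^ (-(n : ℤ)) : V ≃L[ℝ] V) w)
      (fun n : ℕ => -(r⁻¹ • (a ^ (-((n + 1 : ℕ) : ℤ)) : V ≃L[ℝ] V) u)) r⁻¹ C hr2 (fun n => ?_) ?_⟩
    · rw [norm_neg, norm_smul, Real.norm_eq_abs]
      have h1 := hC (-((n + 1 : ℕ) : ℤ))
      have h2 := mul_le_mul hr2.le h1 (norm_nonneg _) zero_le_one
      rw [one_mul] at h2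
      exact h2
    · intro n
      show (a ^ (-((n + 1 : ℕ) : ℤ)) : V ≃L[ℝ] V) w = _
      have e := zpow_neg_succ_apply a n w
      rw [h, map_add, map_smul] at e
      rw [← e, smul_add, smul_smul, inv_mul_cancel₀ hr0, one_smul]
      abel

theorem no_all_strict [FiniteDimensional ℝ V] (H : SubFam a sg) (hL : Lat a Λ)
    (hall : ∀ w ∈ Λ, w ≠ 0 → StrictMono (fun z => sg z w) ∨ StrictAnti (fun z => sg z w))
    (hne : ∃ w ∈ Λ, w ≠ 0) : False := by
  obtain ⟨w, hw, hw0, hmono⟩ : ∃ w ∈ Λ, w ≠ 0 ∧ StrictMono (fun z => sg z w) := by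
    obtain ⟨w, hw, hw0⟩ := hne
    rcases hall w hw hw0 with h | h
    · exact ⟨w, hw, hw0, h⟩
    · exact ⟨-w, Λ.neg_mem hw, neg_ne_zero.mpr hw0, (H.opp hL hall hw hw0).2 h⟩
  have hanti : StrictAnti (fun z => sg z (-w)) := (H.opp hL hall hw hw0).1 hmono
  obtain ⟨c, hc, hlow⟩ := H.lower
  set u : ℝ → V := fun r => a w - r • w with hu
  have hau : ∀ r, a w = r • w + u r := by
    intro r
    simp [hu]
  have hucont : Continuous u := by
    rw [hu]
    fun_prop
  -- scaling facts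
  have hmon_smul : ∀ (s : ℝ) (v : V), 0 < s → Monotone (fun z => sg z (s • v)) →
      Monotone (fun z => sg z v) := by
    intro s v hs h x y hxy
    have h1 : sg x (s • v) ≤ sg y (s • v) := h hxy
    rw [H.smul x s v hs, H.smul y s v hs] at h1
    exact le_of_mul_le_mul_left h1 hs
  have hant_smul : ∀ (s : ℝ) (v : V), 0 < s → Antitone (fun z => sg z (s • v)) →
      Antitone (fun z => sg z v) := by
    intro s v hs h x y hxy
    have h1 : sg y (s • v) ≤ sg x (s • v) := h hxy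
    rw [H.smul x s v hs, H.smul y s v hs] at h1
    exact le_of_mul_le_mul_left h1 hs
  have hmon_smul' : ∀ (s : ℝ) (v : V), 0 < s → Monotone (fun z => sg z v) →
      Monotone (fun z => sg z (s • v)) := by
    intro s v hs h x y hxy
    have h1 : sg x v ≤ sg y v := h hxy
    show sg x (s • v) ≤ sg y (s • v)
    rw [H.smul x s v hs, H.smul y s v hs]
    exact mul_le_mul_of_nonneg_left h1 hs.le
  have hant_smul' : ∀ (s : ℝ) (v : V), 0 < s → Antitone (fun z => sg z v) →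
      Antitone (fun z => sg z (s • v)) := by
    intro s v hs h x y hxy
    have h1 : sg y v ≤ sg x v := h hxy
    show sg y (s • v) ≤ sg x (s • v)
    rw [H.smul x s v hs, H.smul y s v hs]
    exact mul_le_mul_of_nonneg_left h1 hs.le
  set Rp : Set ℝ := {r | Monotone (fun z => sg z (u r)) ∧ Antitone (fun z => sg z (-u r))} with hRp
  set Rm : Set ℝ := {r | Antitone (fun z => sg z (u r)) ∧ Monotone (fun z => sg z (-u r))} with hRm
  have hRpc : IsClosed Rp :=
    (H.monotone_limit.preimage hucont).inter (H.antitone_limit.preimage hucont.neg)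
  have hRmc : IsClosed Rm :=
    (H.antitone_limit.preimage hucont).inter (H.monotone_limit.preimage hucont.neg)
  -- the eigenvector case
  by_cases heig : ∃ r, u r = 0
  · obtain ⟨r, hr⟩ := heig
    have haw : a w = r • w := by
      have := hau r
      rw [hr, add_zero] at this
      exact this
    by_cases hr1 : |r| = 1
    · obtain ⟨n, hn⟩ := (H.unbounded hL hw (hall w hw hw0) ‖w‖).1
      have hb : ∀ n : ℕ, ‖(a ^ (n : ℤ) : V ≃L[ℝ] V) w‖ ≤ ‖w‖ := by
        intro n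
        induction n with
        | zero => exact le_rfl
        | succ n ih =>
          rw [zpow_succ_apply, haw, map_smul, norm_smul, Real.norm_eq_abs, hr1, one_mul]
          exact ih
      exact absurd (hb n) (not_le.mpr hn)
    · rcases bdd_alternative a w 0 r 0 hr1 (by rw [haw, add_zero]) (fun j => by simp) with
        ⟨K, hK⟩ | ⟨K, hK⟩
      · obtain ⟨n, hn⟩ := (H.unbounded hL hw (hall w hw hw0) K).1
        exact absurd (hK n) (not_le.mpr hn)
      · obtain ⟨n, hn⟩ := (H.unbounded hL hw (hall w hw hw0) K).2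
        exact absurd (hK n) (not_le.mpr hn)
  push Not at heig
  -- rational parameters
  have hrat : ∀ q : ℚ, (q : ℝ) ∈ Rp ∪ Rm := by
    intro q
    have hden : (0 : ℝ) < (q.den : ℝ) := by exact_mod_cast q.den_pos
    have hv : (q.den : ℝ) • u q = (q.den : ℕ) • a w - (q.num : ℤ) • w := by
      simp only [hu]
      rw [smul_sub, smul_smul]
      congr 1
      · rw [Nat.cast_smul_eq_nsmul]
      · have : (q.den : ℝ) * (q : ℝ) = (q.num : ℝ) := by
          have h := Rat.den_mul_eq_num q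
          exact_mod_cast h
        rw [this, Int.cast_smul_eq_zsmul]
    have hmem : (q.den : ℝ) • u q ∈ Λ := by
      rw [hv]
      exact Λ.sub_mem (Λ.nsmul_mem (hL.map w hw) _) (Λ.zsmul_mem hw _)
    have hne0 : (q.den : ℝ) • u q ≠ 0 := smul_ne_zero hden.ne' (heig _)
    rcases hall _ hmem hne0 with h | h
    · left
      have h' := (H.opp hL hall hmem hne0).1 h
      rw [← smul_neg] at h'
      exact ⟨hmon_smul _ _ hden h.monotone, hant_smul _ _ hden h'.antitone⟩
    · right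
      have h' := (H.opp hL hall hmem hne0).2 h
      rw [← smul_neg] at h'
      exact ⟨hant_smul _ _ hden h.antitone, hmon_smul _ _ hden h'.monotone⟩
  have hcover : ∀ r : ℝ, r ∈ Rp ∪ Rm := fun r =>
    DenseRange.induction_on (p := fun r => r ∈ Rp ∪ Rm) Rat.denseRange_cast r
      (hRpc.union hRmc) hrat
  -- both sets are nonempty
  have hlim0 : Tendsto (fun n : ℕ => (1 / ((n : ℝ) + 1)) • a w) atTop (𝓝 0) := by
    have := (tendsto_one_div_add_atTop_nhds_zero_nat (𝕜 := ℝ)).smul_const (a w)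
    rwa [zero_smul] at this
  have hpos : ∀ n : ℕ, (0 : ℝ) < 1 / ((n : ℝ) + 1) := fun n => by positivity
  have hRp_ne : ∃ r, r ∈ Rp := by
    by_contra hcon
    push Not at hcon
    have hall' : ∀ n : ℕ, (1 / ((n : ℝ) + 1)) • a w + w ∈ {v : V | Antitone (fun z => sg z v)} := by
      intro n
      have h1 : (-((n : ℝ) + 1)) ∈ Rm := (hcover _).resolve_left (hcon _)
      have h2 := hant_smul' _ _ (hpos n) h1.1
      have e : (1 / ((n : ℝ) + 1)) • u (-((n : ℝ) + 1)) = (1 / ((n : ℝ) + 1)) • a w + w := by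
        simp only [hu]
        rw [smul_sub, smul_smul]
        have : 1 / ((n : ℝ) + 1) * (-((n : ℝ) + 1)) = -1 := by
          have : (n : ℝ) + 1 ≠ 0 := by positivity
          field_simp
        rw [this, neg_one_smul, sub_neg_eq_add]
      rw [e] at h2
      exact h2
    have hlim : Tendsto (fun n : ℕ => (1 / ((n : ℝ) + 1)) • a w + w) atTop (𝓝 w) := by
      have := hlim0.add_const w
      rwa [zero_add] at this
    have h := H.antitone_limit.mem_of_tendsto hlim (Eventually.of_forall hall')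
    have h1 : sg 1 w ≤ sg 0 w := h zero_le_one
    have h2 : sg 0 w < sg 1 w := hmono zero_lt_one
    linarith
  have hRm_ne : ∃ r, r ∈ Rm := by
    by_contra hcon
    push Not at hcon
    have hall' : ∀ n : ℕ, (1 / ((n : ℝ) + 1)) • a w + -w ∈ {v : V | Monotone (fun z => sg z v)} := by
      intro n
      have h1 : ((n : ℝ) + 1) ∈ Rp := (hcover _).resolve_right (hcon _)
      have h2 := hmon_smul' _ _ (hpos n) h1.1
      have e : (1 / ((n : ℝ) + 1)) • u ((n : ℝ) + 1) = (1 / ((n : ℝ) + 1)) • a w + -w := by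
        simp only [hu]
        rw [smul_sub, smul_smul]
        have : 1 / ((n : ℝ) + 1) * ((n : ℝ) + 1) = 1 := by
          have : (n : ℝ) + 1 ≠ 0 := by positivity
          field_simp
        rw [this, one_smul, sub_eq_add_neg]
      rw [e] at h2
      exact h2
    have hlim : Tendsto (fun n : ℕ => (1 / ((n : ℝ) + 1)) • a w + -w) atTop (𝓝 (-w)) := by
      have := hlim0.add_const (-w)
      rwa [zero_add] at this
    have h := H.monotone_limit.mem_of_tendsto hlim (Eventually.of_forall hall')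
    have h1 : sg 0 (-w) ≤ sg 1 (-w) := h zero_le_one
    have h2 : sg 1 (-w) < sg 0 (-w) := hanti zero_lt_one
    linarith
  obtain ⟨rp, hrp⟩ := hRp_ne
  obtain ⟨rm, hrm⟩ := hRm_ne
  obtain ⟨r, -, hr1, hr2⟩ := (isPreconnected_closed_iff.mp (isPreconnected_univ (α := ℝ)))
    Rp Rm hRpc hRmc (fun r _ => hcover r) ⟨rp, mem_univ _, hrp⟩ ⟨rm, mem_univ _, hrm⟩
  have hconst1 : ∀ z, sg z (u r) = sg 0 (u r) := by
    intro z
    rcases le_total z 0 with h | h
    · exact le_antisymm (hr1.1 h) (hr2.1 h)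
    · exact le_antisymm (hr2.1 h) (hr1.1 h)
  have hconst2 : ∀ z, sg z (-u r) = sg 0 (-u r) := by
    intro z
    rcases le_total z 0 with h | h
    · exact le_antisymm (hr2.2 h) (hr1.2 h)
    · exact le_antisymm (hr1.2 h) (hr2.2 h)
  have hbd : ∀ j : ℤ, ‖(a ^ j : V ≃L[ℝ] V) (u r)‖ ≤ (sg 0 (u r) + sg 0 (-u r)) / c := by
    intro j
    rw [le_div_iff₀ hc, mul_comm]
    have h := hlow ((a ^ j : V ≃L[ℝ] V) (u r))
    have e1 := H.at_int (-j) (u r)
    have e2 := H.at_int (-j) (-u r)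
    rw [neg_neg] at e1 e2
    rw [map_neg] at e2
    rw [← e1, ← e2, hconst1, hconst2] at h
    exact h
  by_cases hr : |r| = 1
  · have hmem : u r ∈ Λ := by
      rcases (abs_eq zero_le_one).mp hr with h | h
      · simp only [hu, h, one_smul]
        exact Λ.sub_mem (hL.map w hw) hw
      · simp only [hu, h, neg_one_smul, sub_neg_eq_add]
        exact Λ.add_mem (hL.map w hw) hw
    rcases hall _ hmem (heig r) with h | h
    · have h1 : sg 0 (u r) < sg 1 (u r) := h zero_lt_one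
      rw [hconst1 1] at h1
      exact lt_irrefl _ h1
    · have h1 : sg 1 (u r) < sg 0 (u r) := h zero_lt_one
      rw [hconst1 1] at h1
      exact lt_irrefl _ h1
  · rcases bdd_alternative a w (u r) r _ hr (hau r) hbd with ⟨K, hK⟩ | ⟨K, hK⟩
    · obtain ⟨n, hn⟩ := (H.unbounded hL hw (hall w hw hw0) K).1
      exact absurd (hK n) (not_le.mpr hn)
    · obtain ⟨n, hn⟩ := (H.unbounded hL hw (hall w hw hw0) K).2
      exact absurd (hK n) (not_le.mpr hn)

end Main

end Run7.h907
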