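import Mathlib

/-!
# Tonelli Lagrangians on mapping tori of torus automorphisms: definitions
-/

open Set Filter Topology

namespace Run7.h907.TorusBundle

/-- The universal cover `ℝ^m × ℝ` of the mapping torus of `A ∈ GL_m(ℤ)`; it is also the space of
velocities at each of its points. -/
abbrev Cover (m : ℕ) : Type := (Fin m → ℝ) × ℝ

/-- The linear action on `ℝ^m` of an invertible integer matrix. -/
noncomputable def act {m : ℕ} (B : Matrix.GeneralLinearGroup (Fin m) ℤ) (x : Fin m → ℝ) :
    Fin m → ℝ :=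
  ((B : Matrix (Fin m) (Fin m) ℤ).map (fun a : ℤ => (a : ℝ))).mulVec x

/-- The deck transformation `(x, z) ↦ (A ^ j x + n, z + j)` of the mapping torus of `A`. -/
noncomputable def deck {m : ℕ} (A : Matrix.GeneralLinearGroup (Fin m) ℤ) (n : Fin m → ℤ) (j : ℤ)
    (q : Cover m) : Cover m :=
  (act (A ^ j) q.1 + (fun i => (n i : ℝ)), q.2 + (j : ℝ))

/-- The differential `(v, w) ↦ (A ^ j v, w)` of `deck A n j`. -/
noncomputable def deckVel {m : ℕ} (A : Matrix.GeneralLinearGroup (Fin m) ℤ) (j : ℤ)
    (v : Cover m) : Cover m :=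
  (act (A ^ j) v.1, v.2)

/-- `L` is (the lift to the universal cover of) a Tonelli Lagrangian on the mapping torus of `A`:
it is of class `C²`, invariant under all deck transformations, has positive definite second
derivative in the velocity and is superlinear in the velocity, uniformly over the fundamental
domain `[0,1]^m × [0,1]`. -/
structure IsTonelli {m : ℕ} (A : Matrix.GeneralLinearGroup (Fin m) ℤ)
    (L : Cover m → Cover m → ℝ) : Prop where
  smooth : ContDiff ℝ 2 (fun p : Cover m × Cover m => L p.1 p.2)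
  invariant : ∀ (n : Fin m → ℤ) (j : ℤ) (q v : Cover m),
    L (deck A n j q) (deckVel A j v) = L q v
  convex : ∀ q v u : Cover m, u ≠ 0 → 0 < fderiv ℝ (fderiv ℝ (L q)) v u u
  superlinear : ∀ C : ℝ, ∃ R : ℝ, ∀ q v : Cover m, (∀ i, q.1 i ∈ Icc (0 : ℝ) 1) →
    q.2 ∈ Icc (0 : ℝ) 1 → R ≤ ‖v‖ → C * ‖v‖ ≤ L q v

/-- The energy `E (q, v) = ∂_v L (q, v) v - L (q, v)`. -/
noncomputable def energy {m : ℕ} (L : Cover m → Cover m → ℝ) (q v : Cover m) : ℝ :=
  fderiv ℝ (L q) v v - L q v

/-- The curve `c` solves the Euler-Lagrange equation `(∂_v L (c, c'))' = ∂_q L (c, c')`. -/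
structure IsEulerLagrange {m : ℕ} (L : Cover m → Cover m → ℝ) (c : ℝ → Cover m) : Prop where
  diff : Differentiable ℝ c
  eq : ∀ t, HasDerivAt (fun s => fderiv ℝ (L (c s)) (deriv c s))
    (fderiv ℝ (fun q => L q (deriv c t)) (c t)) t

/-- `c` is the lift of a periodic orbit of energy `k` on the mapping torus of `A`: a nonconstant
solution of the Euler-Lagrange equation, of energy `k`, with `c (t + T) = g (c t)` for some
`T > 0` and some deck transformation `g`. -/
structure IsPeriodicOrbit {m : ℕ} (A : Matrix.GeneralLinearGroup (Fin m) ℤ)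
    (L : Cover m → Cover m → ℝ) (k : ℝ) (c : ℝ → Cover m) : Prop where
  el : IsEulerLagrange L c
  level : ∀ t, energy L (c t) (deriv c t) = k
  nonconst : ∀ t, deriv c t ≠ 0
  periodic : ∃ T : ℝ, 0 < T ∧ ∃ (n : Fin m → ℤ) (j : ℤ), ∀ t, c (t + T) = deck A n j (c t)

/-- `(q, 0)` is a singularity of energy `k`: the constant curve `q` solves the Euler-Lagrange
equation and has energy `k`. -/
structure IsSingularity {m : ℕ} (L : Cover m → Cover m → ℝ) (k : ℝ) (q : Cover m) : Prop where
  el : IsEulerLagrange L (fun _ => q)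
  level : energy L q 0 = k

end Run7.h907.TorusBundle
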