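import Pool.Agent.Run7.h907.ReducedMain
import Pool.Agent.Run7.h907.TorusDefs

/-!
# Tonelli Lagrangians on mapping tori of torus automorphisms: proof

Every nonempty energy level carries a periodic orbit or a singularity.
-/

open Set Filter Topology

namespace Run7.h907.TorusBundle

section Proof

lemma line_deriv {E : Type*} [NormedAddCommGroup E] [NormedSpace ℝ E] {f : E → ℝ}
    (hf : ContDiff ℝ 2 f) (v u : E) (s : ℝ) :
    HasDerivAt (fun s : ℝ => f (v + s • u)) (fderiv ℝ f (v + s • u) u) s := by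
  have hc : HasDerivAt (fun s : ℝ => v + s • u) u s := by
    have := ((hasDerivAt_id s).smul_const u).const_add v
    simpa using this
  exact ((hf.differentiable (by norm_num) (v + s • u)).hasFDerivAt).comp_hasDerivAt s hc

lemma line_deriv2 {E : Type*} [NormedAddCommGroup E] [NormedSpace ℝ E] {f : E → ℝ}
    (hf : ContDiff ℝ 2 f) (v u : E) (s : ℝ) :
    HasDerivAt (fun s : ℝ => fderiv ℝ f (v + s • u) u)
      (fderiv ℝ (fderiv ℝ f) (v + s • u) u u) s := by
  have hc : HasDerivAt (fun s : ℝ => v + s • u) u s := by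
    have := ((hasDerivAt_id s).smul_const u).const_add v
    simpa using this
  have h1 : ContDiff ℝ 1 (fderiv ℝ f) := hf.fderiv_right (by norm_num)
  have h3 := ((h1.differentiable (by norm_num) (v + s • u)).hasFDerivAt).comp_hasDerivAt s hc
  exact (h3.clm_apply (hasDerivAt_const s u)).congr_deriv (by simp)

variable {m : ℕ}

lemma act_mul (B C : Matrix.GeneralLinearGroup (Fin m) ℤ) (x : Fin m → ℝ) :
    act (B * C) x = act B (act C x) := by
  unfold act
  have h : ((B * C : Matrix.GeneralLinearGroup (Fin m) ℤ) : Matrix (Fin m) (Fin m) ℤ).map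
      (fun a : ℤ => (a : ℝ)) = (B : Matrix (Fin m) (Fin m) ℤ).map (fun a : ℤ => (a : ℝ)) *
      (C : Matrix (Fin m) (Fin m) ℤ).map (fun a : ℤ => (a : ℝ)) := by
    rw [Units.val_mul]
    exact Matrix.map_mul (f := Int.castRingHom ℝ)
  rw [h, Matrix.mulVec_mulVec]

lemma act_one (x : Fin m → ℝ) : act 1 x = x := by
  unfold act
  have h : ((1 : Matrix.GeneralLinearGroup (Fin m) ℤ) : Matrix (Fin m) (Fin m) ℤ).map
      (fun a : ℤ => (a : ℝ)) = 1 := by
    rw [Units.val_one]
    exact Matrix.map_one _ (by simp) (by simp)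
  rw [h, Matrix.one_mulVec]

/-- The action as a linear automorphism. -/
noncomputable def actEquiv (B : Matrix.GeneralLinearGroup (Fin m) ℤ) :
    (Fin m → ℝ) ≃L[ℝ] (Fin m → ℝ) :=
  ({ toFun := act B
     invFun := act B⁻¹
     map_add' := fun x y => Matrix.mulVec_add _ x y
     map_smul' := fun r x => Matrix.mulVec_smul _ r x
     left_inv := fun x => by rw [← act_mul, inv_mul_cancel, act_one]
     right_inv := fun x => by rw [← act_mul, mul_inv_cancel, act_one] } :
    (Fin m → ℝ) ≃ₗ[ℝ] (Fin m → ℝ)).toContinuousLinearEquiv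

lemma actEquiv_apply (B : Matrix.GeneralLinearGroup (Fin m) ℤ) (x : Fin m → ℝ) :
    actEquiv B x = act B x := rfl

lemma actEquiv_symm_apply (B : Matrix.GeneralLinearGroup (Fin m) ℤ) (x : Fin m → ℝ) :
    (actEquiv B).symm x = act B⁻¹ x := rfl

/-- The integer lattice. -/
def lattice (m : ℕ) : AddSubgroup (Fin m → ℝ) where
  carrier := Set.range (fun n : Fin m → ℤ => (fun i => (n i : ℝ)))
  zero_mem' := ⟨0, by funext i; simp⟩
  add_mem' := by
    rintro _ _ ⟨a, rfl⟩ ⟨b, rfl⟩
    exact ⟨a + b, by funext i; simp⟩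
  neg_mem' := by
    rintro _ ⟨a, rfl⟩
    exact ⟨-a, by funext i; simp⟩

lemma act_mem_lattice (B : Matrix.GeneralLinearGroup (Fin m) ℤ) {w : Fin m → ℝ}
    (hw : w ∈ lattice m) : act B w ∈ lattice m := by
  obtain ⟨n, rfl⟩ := hw
  refine ⟨(B : Matrix (Fin m) (Fin m) ℤ).mulVec n, ?_⟩
  funext i
  simp [act, Matrix.mulVec, dotProduct]

lemma lattice_fin (C : ℝ) : {w : Fin m → ℝ | w ∈ lattice m ∧ ‖w‖ ≤ C}.Finite := by
  have h : {w : Fin m → ℝ | w ∈ lattice m ∧ ‖w‖ ≤ C} ⊆
      (fun n : Fin m → ℤ => (fun i => (n i : ℝ))) ''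
        Icc (fun _ : Fin m => -⌈C⌉) (fun _ : Fin m => ⌈C⌉) := by
    rintro w ⟨⟨n, rfl⟩, hn⟩
    refine ⟨n, ⟨fun i => ?_, fun i => ?_⟩, rfl⟩
    · have h1 := (norm_le_pi_norm (fun i => (n i : ℝ)) i).trans hn
      rw [Real.norm_eq_abs] at h1
      have h2 := (abs_le.mp h1).1
      have h3 : (-(⌈C⌉ : ℤ) : ℝ) ≤ (n i : ℝ) := by
        have := Int.le_ceil C
        linarith
      exact_mod_cast h3
    · have h1 := (norm_le_pi_norm (fun i => (n i : ℝ)) i).trans hn
      rw [Real.norm_eq_abs] at h1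
      have h2 := (abs_le.mp h1).2
      have h3 : (n i : ℝ) ≤ (⌈C⌉ : ℝ) := h2.trans (Int.le_ceil C)
      exact_mod_cast h3
  exact ((finite_Icc _ _).image _).subset h

lemma lat (A : Matrix.GeneralLinearGroup (Fin m) ℤ) :
    Run7.h907.Lat (actEquiv A) (lattice m) where
  fin := lattice_fin
  map := fun w hw => by rw [actEquiv_apply]; exact act_mem_lattice A hw
  symm := fun w hw => by rw [actEquiv_symm_apply]; exact act_mem_lattice A⁻¹ hw

/-- The reduced Lagrangian. -/
def red (L : Cover m → Cover m → ℝ) (p : ℝ × (Fin m → ℝ)) : ℝ := L (0, p.1) (p.2, 0)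

variable {A : Matrix.GeneralLinearGroup (Fin m) ℤ} {L : Cover m → Cover m → ℝ}

lemma act_zero (B : Matrix.GeneralLinearGroup (Fin m) ℤ) : act B 0 = 0 := by
  rw [← actEquiv_apply, map_zero]

lemma deck_fibre (j : ℤ) (z : ℝ) : deck A 0 j ((0 : Fin m → ℝ), z) = (0, z + j) := by
  unfold deck
  ext i
  · simp [act_zero]
  · simp

lemma red_shift_int (hT : IsTonelli A L) (j : ℤ) (z : ℝ) (v : Fin m → ℝ) :
    red L (z + j, act (A ^ j) v) = red L (z, v) := by
  have h := hT.invariant 0 j (0, z) (v, 0)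
  rw [deck_fibre] at h
  exact h

lemma red_shift (hT : IsTonelli A L) (z : ℝ) (v : Fin m → ℝ) :
    red L (z + 1, actEquiv A v) = red L (z, v) := by
  have h := red_shift_int hT 1 z v
  rw [zpow_one, Int.cast_one] at h
  exact h

lemma contDiff_fibre (hT : IsTonelli A L) (q : Cover m) : ContDiff ℝ 2 (L q) :=
  hT.smooth.comp (by fun_prop : ContDiff ℝ 2 (fun v : Cover m => (q, v)))

lemma contDiff_red (hT : IsTonelli A L) : ContDiff ℝ 2 (red L) := by
  have h : ContDiff ℝ 2 (fun p : ℝ × (Fin m → ℝ) =>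
      (((0 : Fin m → ℝ), p.1), (p.2, (0 : ℝ)))) := by fun_prop
  exact hT.smooth.comp h

lemma fderiv_red (hT : IsTonelli A L) (z : ℝ) (v u : Fin m → ℝ) :
    fderiv ℝ (red L) (z, v) (0, u) = fderiv ℝ (L (0, z)) (v, 0) (u, 0) := by
  have h1 := line_deriv (contDiff_red hT) (z, v) (0, u) 0
  have h2 := line_deriv (contDiff_fibre hT (0, z)) (v, 0) (u, 0) 0
  have e : (fun s : ℝ => red L ((z, v) + s • ((0 : ℝ), u))) =
      fun s : ℝ => L (0, z) ((v, 0) + s • (u, 0)) := by
    funext s
    simp [red]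
  rw [e] at h1
  have h3 := h1.unique h2
  simpa using h3

lemma fderiv2_red (hT : IsTonelli A L) (p : ℝ × (Fin m → ℝ)) (u : Fin m → ℝ) :
    fderiv ℝ (fderiv ℝ (red L)) p (0, u) (0, u) =
      fderiv ℝ (fderiv ℝ (L (0, p.1))) (p.2, 0) (u, 0) (u, 0) := by
  have h1 := line_deriv2 (contDiff_red hT) p (0, u) 0
  have h2 := line_deriv2 (contDiff_fibre hT (0, p.1)) (p.2, 0) (u, 0) 0
  have e : (fun s : ℝ => fderiv ℝ (red L) (p + s • ((0 : ℝ), u)) (0, u)) =
      fun s : ℝ => fderiv ℝ (L (0, p.1)) ((p.2, 0) + s • (u, 0)) (u, 0) := by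
    funext s
    have e1 : p + s • ((0 : ℝ), u) = (p.1, p.2 + s • u) := by
      ext <;> simp
    have e2 : ((p.2, 0) + s • (u, 0) : Cover m) = (p.2 + s • u, 0) := by
      ext <;> simp
    rw [e1, e2, fderiv_red hT]
  rw [e] at h1
  have h3 := h1.unique h2
  simpa using h3

lemma red_red (hT : IsTonelli A L) : Run7.h907.Red (red L) where
  smooth := contDiff_red hT
  convex := by
    intro p u hu
    rw [fderiv2_red hT]
    refine hT.convex _ _ _ ?_
    intro h
    exact hu (congrArg Prod.fst h)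
  superlin := by
    intro z C
    set j : ℤ := -⌊z⌋ with hj
    set T : (Fin m → ℝ) →L[ℝ] (Fin m → ℝ) :=
      (actEquiv (A ^ j)).symm.toContinuousLinearMap with hTdef
    set K : ℝ := ‖T‖ + 1 with hK
    have hK0 : 0 < K := by positivity
    obtain ⟨R, hR⟩ := hT.superlinear (|C| * K)
    refine ⟨K * R, fun v hv => ?_⟩
    have hbound : ‖v‖ ≤ K * ‖act (A ^ j) v‖ := by
      have h1 : T (act (A ^ j) v) = v := by
        rw [hTdef, ← actEquiv_apply]
        simp
      calc ‖v‖ = ‖T (act (A ^ j) v)‖ := by rw [h1]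
        _ ≤ ‖T‖ * ‖act (A ^ j) v‖ := T.le_opNorm _
        _ ≤ K * ‖act (A ^ j) v‖ :=
          mul_le_mul_of_nonneg_right (by linarith) (norm_nonneg _)
    have hnorm : ‖((act (A ^ j) v, 0) : Cover m)‖ = ‖act (A ^ j) v‖ := by
      rw [Prod.norm_mk, norm_zero]
      exact max_eq_left (norm_nonneg _)
    have hz : z + (j : ℝ) ∈ Icc (0 : ℝ) 1 := by
      have h1 := Int.floor_le z
      have h2 := (Int.lt_floor_add_one z).le
      rw [hj]
      push_cast
      exact ⟨by linarith, by linarith⟩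
    have h := hR (0, z + (j : ℝ)) (act (A ^ j) v, 0) (fun i => by simp) hz (by
      rw [hnorm]
      exact le_of_mul_le_mul_left (hv.trans hbound) hK0)
    rw [hnorm] at h
    have e : L (0, z + (j : ℝ)) (act (A ^ j) v, 0) = red L (z, v) := red_shift_int hT j z v
    rw [e] at h
    calc C * ‖v‖ ≤ |C| * ‖v‖ := mul_le_mul_of_nonneg_right (le_abs_self C) (norm_nonneg _)
      _ ≤ |C| * (K * ‖act (A ^ j) v‖) := mul_le_mul_of_nonneg_left hbound (abs_nonneg C)
      _ = |C| * K * ‖act (A ^ j) v‖ := by ring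
      _ ≤ red L (z, v) := h

lemma en_red (hT : IsTonelli A L) (z : ℝ) (v : Fin m → ℝ) :
    Run7.h907.en (red L) z v = energy L (0, z) (v, 0) := by
  unfold Run7.h907.en Run7.h907.mom energy
  rw [fderiv_red hT]
  rfl

/-- The energy is at least its value on the zero section. -/
lemma energy_ge (hT : IsTonelli A L) (q v : Cover m) : -L q 0 ≤ energy L q v := by
  by_cases hv : v = 0
  · subst hv
    unfold energy
    rw [map_zero, zero_sub]
  have h := Run7.h907.od_ge (g := fun s : ℝ => L q (0 + s • v))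
    (fun s => line_deriv (contDiff_fibre hT q) 0 v s)
    (fun s => line_deriv2 (contDiff_fibre hT q) 0 v s)
    (fun s => hT.convex _ _ _ hv) 1
  simp only [zero_smul, add_zero, one_smul, zero_add, one_mul] at h
  exact h

lemma fderiv_base_zero (hT : IsTonelli A L)
    (hfib : ∀ (a : Fin m → ℝ) (q v : Cover m), L (q.1 + a, q.2) v = L q v)
    (x : Fin m → ℝ) (z : ℝ) (v : Fin m → ℝ)
    (h0 : fderiv ℝ (red L) (z, v) (1, 0) = 0) :
    fderiv ℝ (fun q => L q (v, 0)) (x, z) = 0 := by
  have hq : ∀ q : Cover m, L q (v, 0) = L (0, q.2) (v, 0) := by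
    intro q
    have := hfib q.1 (0, q.2) (v, 0)
    rw [zero_add] at this
    exact this
  have e : (fun q : Cover m => L q (v, 0)) =
      (fun ζ : ℝ => red L (ζ, v)) ∘ (ContinuousLinearMap.snd ℝ (Fin m → ℝ) ℝ) := by
    funext q
    rw [hq q]
    rfl
  have hc : HasDerivAt (fun ζ : ℝ => (ζ, v)) ((1 : ℝ), (0 : Fin m → ℝ)) z :=
    (hasDerivAt_id z).prodMk (hasDerivAt_const z v)
  have hd : HasDerivAt (fun ζ : ℝ => red L (ζ, v)) 0 z := by
    have h := ((contDiff_red hT).differentiable (by norm_num) (z, v)).hasFDerivAt.comp_hasDerivAt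
      z hc
    rw [h0] at h
    exact h
  have hF : HasFDerivAt (fun ζ : ℝ => red L (ζ, v)) (0 : ℝ →L[ℝ] ℝ)
      ((ContinuousLinearMap.snd ℝ (Fin m → ℝ) ℝ) ((x, z) : Cover m)) := by
    have h := hd.hasFDerivAt
    have e0 : ContinuousLinearMap.toSpanSingleton ℝ (0 : ℝ) = 0 := by
      ext; simp
    rw [e0] at h
    exact h
  have h := hF.comp ((x, z) : Cover m)
    (ContinuousLinearMap.snd ℝ (Fin m → ℝ) ℝ).hasFDerivAt
  rw [e, h.fderiv]
  simp

end Proof

/-- On the mapping torus of any `A ∈ GL_m(ℤ)`, `m ≥ 1`, every nonempty energy level of a Tonelli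
Lagrangian that is invariant under the translations of the torus fibres contains a periodic orbit
or a singularity. -/
theorem main (m : ℕ) (hm : 0 < m) (A : Matrix.GeneralLinearGroup (Fin m) ℤ)
    (L : Cover m → Cover m → ℝ) (hT : IsTonelli A L)
    (hfib : ∀ (a : Fin m → ℝ) (q v : Cover m), L (q.1 + a, q.2) v = L q v)
    (k : ℝ) (hk : ∃ q v : Cover m, energy L q v = k) :
    (∃ c : ℝ → Cover m, IsPeriodicOrbit A L k c) ∨ (∃ q : Cover m, IsSingularity L k q) := by
  obtain ⟨q0, v0, hqv⟩ := hk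
  have hz1 : -red L (q0.2, 0) ≤ k := by
    have h := energy_ge hT q0 v0
    rw [hqv] at h
    have e : L q0 0 = red L (q0.2, 0) := by
      have := hfib q0.1 (0, q0.2) 0
      rw [zero_add] at this
      exact this
    rw [e] at h
    exact h
  have hne : ∃ w ∈ lattice m, w ≠ 0 := by
    refine ⟨fun _ => 1, ⟨fun _ => 1, by funext i; simp⟩, ?_⟩
    intro h
    have := congrFun h ⟨0, hm⟩
    simp at this
  obtain ⟨z, s, w, hw, hw0, hen, hcrit⟩ :=
    (red_red hT).exists_critical (red_shift hT) (lat A) hne hz1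
  rw [en_red hT] at hen
  have hLq : ∀ x : Fin m → ℝ, L (x, z) = L (0, z) := by
    intro x
    funext v
    have := hfib x (0, z) v
    rw [zero_add] at this
    exact this
  by_cases hs : s = 0
  · right
    refine ⟨(0, z), ⟨?_, ?_⟩, ?_⟩
    · exact differentiable_const _
    · intro t
      have hd : deriv (fun _ : ℝ => ((0, z) : Cover m)) = fun _ => 0 := by
        funext t
        exact deriv_const t _
      simp only [hd]
      subst hs
      rw [zero_smul] at hcrit
      have h0 := fderiv_base_zero hT hfib 0 z 0 hcrit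
      have e : ((0 : Fin m → ℝ), (0 : ℝ)) = (0 : Cover m) := rfl
      rw [e] at h0
      rw [h0]
      exact hasDerivAt_const t _
    · subst hs
      rw [zero_smul] at hen
      exact hen
  · left
    have hder : ∀ t : ℝ, HasDerivAt (fun t : ℝ => (((s * t) • w, z) : Cover m)) (s • w, 0) t := by
      intro t
      refine HasDerivAt.prodMk ?_ (hasDerivAt_const t z)
      have := ((hasDerivAt_id t).const_mul s).smul_const w
      simpa using this
    have hd : deriv (fun t : ℝ => (((s * t) • w, z) : Cover m)) = fun _ => (s • w, 0) := by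
      funext t
      exact (hder t).deriv
    refine ⟨fun t => ((s * t) • w, z), ⟨⟨fun t => (hder t).differentiableAt, ?_⟩, ?_, ?_, ?_⟩⟩
    · intro t
      simp only [hd, hLq]
      rw [fderiv_base_zero hT hfib _ z _ hcrit]
      exact hasDerivAt_const t _
    · intro t
      simp only [hd]
      rw [← hen]
      unfold energy
      rw [hLq]
    · intro t
      simp only [hd]
      intro h
      exact smul_ne_zero hs hw0 (congrArg Prod.fst h)
    · obtain ⟨n, rfl⟩ := hw
      rcases lt_or_gt_of_ne hs with hneg | hpos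
      · refine ⟨(-s)⁻¹, inv_pos.mpr (neg_pos.mpr hneg), -n, 0, ?_⟩
        intro t
        unfold deck
        rw [zpow_zero, act_one]
        refine Prod.ext ?_ (by simp)
        funext i
        simp only [Pi.add_apply, Pi.smul_apply, smul_eq_mul, Pi.neg_apply, Int.cast_neg]
        field_simp
      · refine ⟨s⁻¹, inv_pos.mpr hpos, n, 0, ?_⟩
        intro t
        unfold deck
        rw [zpow_zero, act_one]
        refine Prod.ext ?_ (by simp)
        funext i
        simp only [Pi.add_apply, Pi.smul_apply, smul_eq_mul]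
        field_simp

end Run7.h907.TorusBundle
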